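import Pool.Agent.Q195.AP.Mean

/-! Almost periodic functions in the sense of Besicovitch: coefficients, mean square. -/

set_option autoImplicit false

open MeasureTheory Filter Topology Set Complex
open scoped ENNReal

namespace Pool.Agent.Q195.AP

/-- almost periodicity in mean square -/
structure Bes (f : ℝ → ℝ) (Γ : ℕ → Finset ℝ) (b : ℝ → ℂ) : Prop where
  meas : Measurable f
  sq : LI fun t => f t ^ 2
  app : ∀ ε : ℝ, 0 < ε → ∀ᶠ N in atTop, ∀ᶠ T in atTop,
    mn (fun t => ‖(f t : ℂ) - ts (Γ N) b t‖ ^ 2) T ≤ ε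
  mono : Monotone Γ
  supp : ∀ γ, b γ ≠ 0 → ∃ N, γ ∈ Γ N

variable {f : ℝ → ℝ} {Γ : ℕ → Finset ℝ} {b : ℝ → ℂ}

lemma Bes.fC (H : Bes f Γ b) : Measurable fun t => (f t : ℂ) :=
  Complex.measurable_ofReal.comp H.meas

lemma Bes.dm (H : Bes f Γ b) (N : ℕ) : Measurable fun t => (f t : ℂ) - ts (Γ N) b t :=
  H.fC.sub (ts_cont _ _).measurable

lemma Bes.li_diff (H : Bes f Γ b) (N : ℕ) : LI fun t => ‖(f t : ℂ) - ts (Γ N) b t‖ ^ 2 := by
  have h1 : LI fun t => 2 * f t ^ 2 + 2 * (∑ γ ∈ Γ N, ‖b γ‖) ^ 2 :=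
    (H.sq.const_mul 2).add (LI.of_cont continuous_const)
  refine h1.mono ((H.dm N).norm.pow_const 2).aestronglyMeasurable fun t => ?_
  rw [Real.norm_of_nonneg (by positivity)]
  have h2 : ‖(f t : ℂ) - ts (Γ N) b t‖ ≤ |f t| + ∑ γ ∈ Γ N, ‖b γ‖ := by
    refine (norm_sub_le _ _).trans (add_le_add ?_ (ts_le _ _ _))
    rw [Complex.norm_real, Real.norm_eq_abs]
  refine (pow_le_pow_left₀ (norm_nonneg _) h2 2).trans ?_
  rw [← sq_abs (f t)]
  nlinarith [sq_nonneg (|f t| - ∑ γ ∈ Γ N, ‖b γ‖)]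

lemma Bes.li_abs (H : Bes f Γ b) : LI fun t => |f t| := by
  have h1 : LI fun t => 1 + f t ^ 2 := (LI.of_cont continuous_const).add H.sq
  refine h1.mono H.meas.abs.aestronglyMeasurable fun t => ?_
  rw [Real.norm_eq_abs, abs_abs]
  nlinarith [sq_nonneg (|f t| - 1), sq_abs (f t), abs_nonneg (f t)]

lemma Bes.li (H : Bes f Γ b) : LI f := by
  refine H.li_abs.mono H.meas.aestronglyMeasurable fun t => ?_
  rw [Real.norm_eq_abs]

/-- the inequality of Cauchy and Schwarz -/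
lemma mn_cs {g : ℝ → ℝ} (h1 : LI g) (h2 : LI fun t => g t ^ 2) {T θ : ℝ} (hT : 1 ≤ T)
    (hθ : 0 < θ) : mn g T ≤ θ / 2 + 1 / (2 * θ) * mn (fun t => g t ^ 2) T := by
  have h3 : LI fun t => θ / 2 + 1 / (2 * θ) * g t ^ 2 :=
    (LI.of_cont continuous_const).add (h2.const_mul _)
  refine (mn_mono h1 h3 hT fun t _ => ?_).trans ?_
  · have : 0 ≤ (g t - θ) ^ 2 / (2 * θ) := by positivity
    have e1 : (g t - θ) ^ 2 / (2 * θ) = θ / 2 + 1 / (2 * θ) * g t ^ 2 - g t := by
      field_simp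
      ring
    linarith
  · rw [mn_add (LI.of_cont continuous_const) (h2.const_mul _) hT, mn_mul]
    have := mn_const hT (c := θ / 2) (by positivity)
    linarith

lemma Bes.li_dn (H : Bes f Γ b) (N : ℕ) : LI fun t => ‖(f t : ℂ) - ts (Γ N) b t‖ := by
  have h1 : LI fun t => 1 + ‖(f t : ℂ) - ts (Γ N) b t‖ ^ 2 :=
    (LI.of_cont continuous_const).add (H.li_diff N)
  refine h1.mono (H.dm N).norm.aestronglyMeasurable fun t => ?_
  rw [norm_norm]
  nlinarith [sq_nonneg (‖(f t : ℂ) - ts (Γ N) b t‖ - 1)]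

/-- the mean of the distance -/
lemma Bes.app1 (H : Bes f Γ b) {ε : ℝ} (hε : 0 < ε) : ∀ᶠ N in atTop, ∀ᶠ T in atTop,
    mn (fun t => ‖(f t : ℂ) - ts (Γ N) b t‖) T ≤ ε := by
  filter_upwards [H.app (ε ^ 2) (by positivity)] with N hN
  filter_upwards [hN, eventually_ge_atTop 1] with T hT hT1
  refine (mn_cs (H.li_dn N) (H.li_diff N) hT1 hε).trans ?_
  calc ε / 2 + 1 / (2 * ε) * mn (fun t => ‖(f t : ℂ) - ts (Γ N) b t‖ ^ 2) T
      ≤ ε / 2 + 1 / (2 * ε) * ε ^ 2 := by gcongr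
    _ = ε := by
      field_simp
      ring

/-- the mean square is bounded -/
lemma Bes.bd (H : Bes f Γ b) : ∃ K : ℝ, 0 ≤ K ∧ ∀ᶠ T in atTop, mn (fun t => f t ^ 2) T ≤ K := by
  obtain ⟨N, hN⟩ := (H.app 1 one_pos).exists
  set S : ℝ := ∑ γ ∈ Γ N, ‖b γ‖ with hS
  refine ⟨2 * 1 + 2 * S ^ 2, by positivity, ?_⟩
  filter_upwards [hN, eventually_ge_atTop 1] with T hT hT1
  have h1 : LI fun t => 2 * ‖(f t : ℂ) - ts (Γ N) b t‖ ^ 2 + 2 * S ^ 2 :=
    ((H.li_diff N).const_mul 2).add (LI.of_cont continuous_const)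
  refine (mn_mono H.sq h1 hT1 fun t _ => ?_).trans ?_
  · have h2 : |f t| ≤ ‖(f t : ℂ) - ts (Γ N) b t‖ + S := by
      have e1 := norm_add_le ((f t : ℂ) - ts (Γ N) b t) (ts (Γ N) b t)
      rw [sub_add_cancel, Complex.norm_real, Real.norm_eq_abs] at e1
      exact e1.trans (add_le_add le_rfl (ts_le _ _ _))
    rw [← sq_abs]
    refine (pow_le_pow_left₀ (abs_nonneg _) h2 2).trans ?_
    nlinarith [sq_nonneg (‖(f t : ℂ) - ts (Γ N) b t‖ - S)]
  · rw [mn_add ((H.li_diff N).const_mul 2) (LI.of_cont continuous_const) hT1, mn_mul]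
    have := mn_const hT1 (c := 2 * S ^ 2) (by positivity)
    linarith

/-- **The Bohr coefficients.** -/
theorem Bes.coef (H : Bes f Γ b) (τ : ℝ) :
    Tendsto (mnC fun t => (f t : ℂ) * exp (-(I * (τ * t)))) atTop (𝓝 (b τ)) := by
  have hne : ∀ t : ℝ, ‖exp (-(I * ((τ : ℂ) * t)))‖ = 1 := by
    intro t
    have : -(I * ((τ : ℂ) * t)) = I * ((-(τ * t) : ℝ) : ℂ) := by
      push_cast
      ring
    rw [this, nexp]
  have hfi : LI fun t => (f t : ℂ) * exp (-(I * (τ * t))) := by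
    refine H.li_abs.mono ?_ fun t => ?_
    · exact (H.fC.mul (by fun_prop)).aestronglyMeasurable
    · rw [norm_mul, hne, mul_one, Complex.norm_real, Real.norm_eq_abs]
  have hgi : ∀ N, LI fun t => ts (Γ N) b t * exp (-(I * (τ * t))) := fun N =>
    LI.of_cont ((ts_cont _ _).mul (by fun_prop))
  obtain ⟨L, h1, h2⟩ := mo (A := mnC fun t => (f t : ℂ) * exp (-(I * (τ * t))))
    (AN := fun N => mnC fun t => ts (Γ N) b t * exp (-(I * (τ * t)))) (fun ε hε => by
      filter_upwards [H.app1 hε] with N hN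
      filter_upwards [hN, eventually_ge_atTop 1] with T hT hT1
      rw [← mnC_sub hfi (hgi N) hT1]
      refine (norm_mnC hT1).trans (le_trans (le_of_eq ?_) hT)
      congr 1
      ext t
      rw [← sub_mul, norm_mul, hne, mul_one]) (fun N => ts_coef (Γ N) b τ)
  have h3 : Tendsto (fun N => if τ ∈ Γ N then b τ else 0) atTop (𝓝 (b τ)) := by
    refine tendsto_const_nhds.congr' ?_
    by_cases hb : b τ = 0
    · exact Eventually.of_forall fun N => by simp [hb]
    · obtain ⟨N₀, hN₀⟩ := H.supp τ hb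
      filter_upwards [eventually_ge_atTop N₀] with N hN
      rw [if_pos (H.mono hN hN₀)]
  rwa [tendsto_nhds_unique h2 h3] at h1

/-- **The mean square.** -/
theorem Bes.var (H : Bes f Γ b) : Summable (fun γ : ℝ => ‖b γ‖ ^ 2) ∧
    Tendsto (mn fun t => f t ^ 2) atTop (𝓝 (∑' γ : ℝ, ‖b γ‖ ^ 2)) := by
  obtain ⟨K, hK0, hK⟩ := H.bd
  have hgi : ∀ N, LI fun t => ‖ts (Γ N) b t‖ ^ 2 := fun N =>
    LI.of_cont ((ts_cont _ _).norm.pow 2)
  obtain ⟨L, h1, h2⟩ := mo (A := mn fun t => f t ^ 2)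
    (AN := fun N => mn fun t => ‖ts (Γ N) b t‖ ^ 2) (fun ε hε => by
      set θ : ℝ := ε / (2 * (K + 1)) with hθ
      have hθ0 : 0 < θ := by positivity
      filter_upwards [H.app (ε / 2 / (1 + 1 / θ)) (by positivity)] with N hN
      filter_upwards [hN, hK, eventually_ge_atTop 1] with T hT hT2 hT1
      have i1 : LI fun t => f t ^ 2 - ‖ts (Γ N) b t‖ ^ 2 := H.sq.sub (hgi N)
      have i1' : LI fun t => |f t ^ 2 - ‖ts (Γ N) b t‖ ^ 2| := i1.norm
      have i2 : LI fun t => θ * f t ^ 2 + (1 + 1 / θ) * ‖(f t : ℂ) - ts (Γ N) b t‖ ^ 2 :=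
        (H.sq.const_mul _).add ((H.li_diff N).const_mul _)
      rw [← mn_sub H.sq (hgi N) hT1, Real.norm_eq_abs]
      refine (abs_mn hT1).trans ((mn_mono i1' i2 hT1 fun t _ => ?_).trans ?_)
      · set d : ℝ := ‖(f t : ℂ) - ts (Γ N) b t‖ with hd
        have e1 : |(|f t| - ‖ts (Γ N) b t‖)| ≤ d := by
          have := abs_norm_sub_norm_le (f t : ℂ) (ts (Γ N) b t)
          rwa [Complex.norm_real, Real.norm_eq_abs] at this
        have e2 : ‖ts (Γ N) b t‖ ≤ |f t| + d := by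
          have := (abs_le.1 e1).1
          linarith
        have e3 : |f t ^ 2 - ‖ts (Γ N) b t‖ ^ 2| ≤ d * (2 * |f t| + d) := by
          rw [← sq_abs (f t), sq_sub_sq, abs_mul, mul_comm]
          refine mul_le_mul e1 ?_ (abs_nonneg _) (norm_nonneg _)
          rw [abs_of_nonneg (by positivity)]
          linarith
        refine e3.trans ?_
        have e4 : 0 ≤ (θ * |f t| - d) ^ 2 / θ := by positivity
        have e5 : (θ * |f t| - d) ^ 2 / θ = θ * f t ^ 2 - 2 * |f t| * d + 1 / θ * d ^ 2 := by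
          rw [← sq_abs (f t)]
          field_simp
          ring
        nlinarith
      · rw [mn_add (H.sq.const_mul _) ((H.li_diff N).const_mul _) hT1, mn_mul, mn_mul]
        have e1 : θ * mn (fun t => f t ^ 2) T ≤ ε / 2 := by
          calc θ * mn (fun t => f t ^ 2) T ≤ θ * (K + 1) := by
                refine mul_le_mul_of_nonneg_left ?_ hθ0.le
                linarith
            _ = ε / 2 := by
              rw [hθ]
              field_simp
        have e2 : (1 + 1 / θ) * mn (fun t => ‖(f t : ℂ) - ts (Γ N) b t‖ ^ 2) T ≤ ε / 2 := by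
          calc _ ≤ (1 + 1 / θ) * (ε / 2 / (1 + 1 / θ)) :=
                mul_le_mul_of_nonneg_left hT (by positivity)
            _ = ε / 2 := by field_simp
        linarith) (fun N => ts_sq (Γ N) b)
  have hmono : Monotone fun N => ∑ γ ∈ Γ N, ‖b γ‖ ^ 2 := fun N M hNM =>
    Finset.sum_le_sum_of_subset_of_nonneg (H.mono hNM) fun γ _ _ => by positivity
  have hle : ∀ N, ∑ γ ∈ Γ N, ‖b γ‖ ^ 2 ≤ L := fun N => hmono.ge_of_tendsto h2 N
  have hfin : ∀ S : Finset ℝ, ∑ γ ∈ S, ‖b γ‖ ^ 2 ≤ L := by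
    intro S
    have h3 : ∃ N, ∀ γ ∈ S, b γ ≠ 0 → γ ∈ Γ N := by
      induction S using Finset.induction_on with
      | empty => exact ⟨0, fun γ h => absurd h (Finset.notMem_empty γ)⟩
      | insert x S hx ih =>
        obtain ⟨N, hN⟩ := ih
        by_cases hb : b x = 0
        · refine ⟨N, fun γ hγ hbγ => ?_⟩
          rcases Finset.mem_insert.1 hγ with h | h
          · rw [h] at hbγ
            exact absurd hb hbγ
          · exact hN γ h hbγ
        · obtain ⟨M, hM⟩ := H.supp x hb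
          refine ⟨max N M, fun γ hγ hbγ => ?_⟩
          rcases Finset.mem_insert.1 hγ with h | h
          · rw [h]
            exact H.mono (le_max_right _ _) hM
          · exact H.mono (le_max_left _ _) (hN γ h hbγ)
    obtain ⟨N, hN⟩ := h3
    refine le_trans ?_ (hle N)
    rw [← Finset.sum_filter_add_sum_filter_not S (fun γ => b γ ≠ 0)]
    have e1 : ∑ γ ∈ S with ¬b γ ≠ 0, ‖b γ‖ ^ 2 = 0 := by
      refine Finset.sum_eq_zero fun γ hγ => ?_
      rw [Finset.mem_filter, not_not] at hγ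
      rw [hγ.2]
      simp
    rw [e1, add_zero]
    refine Finset.sum_le_sum_of_subset_of_nonneg (fun γ hγ => ?_) fun γ _ _ => by positivity
    rw [Finset.mem_filter] at hγ
    exact hN γ hγ.1 hγ.2
  have hs : Summable fun γ : ℝ => ‖b γ‖ ^ 2 :=
    summable_of_sum_le (fun γ => by positivity) hfin
  refine ⟨hs, ?_⟩
  have h4 : ∑' γ : ℝ, ‖b γ‖ ^ 2 = L := by
    refine le_antisymm (Real.tsum_le_of_sum_le (fun γ => by positivity) hfin) ?_
    refine le_of_tendsto h2 (Eventually.of_forall fun N => ?_)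
    exact hs.sum_le_tsum _ fun γ _ => by positivity
  rw [h4]
  exact h1

end Pool.Agent.Q195.AP
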