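import Pool.Agent.Q195.AP.Ker
import Pool.Agent.TH270.MS.Dir

/-! Almost periodicity of a function whose Laplace transform has simple poles on the imaginary axis. -/

set_option autoImplicit false

open MeasureTheory Filter Topology Set Complex
open scoped ENNReal

namespace Pool.Agent.Q195.AP

open Pool.Agent.Q195.CR
open Pool.Agent.TH270.MS (integrable_step integral_step)

variable {H : ℂ → ℂ} {k : ℝ → ℂ} {h T a : ℝ}

/-- a trigonometric sum -/
noncomputable def ts (Γ : Finset ℝ) (b : ℝ → ℂ) (u : ℝ) : ℂ := ∑ γ ∈ Γ, b γ * exp (I * (γ * u))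

lemma ts_cont (Γ : Finset ℝ) (b : ℝ → ℂ) : Continuous (ts Γ b) := by
  unfold ts
  fun_prop

lemma ts_le (Γ : Finset ℝ) (b : ℝ → ℂ) (u : ℝ) : ‖ts Γ b u‖ ≤ ∑ γ ∈ Γ, ‖b γ‖ := by
  unfold ts
  refine norm_sum_le_of_le _ fun γ _ => ?_
  rw [norm_mul, ← Complex.ofReal_mul, norm_exp_I, mul_one]

/-- the difference -/
noncomputable def kd (k : ℝ → ℂ) (Γ : Finset ℝ) (b : ℝ → ℂ) (u : ℝ) : ℂ :=
  k u - (Ici (0 : ℝ)).indicator (ts Γ b) u

lemma ts_lap (Γ : Finset ℝ) (b : ℝ → ℂ) {s : ℂ} (hs : 0 < s.re) :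
    Integrable (fun u : ℝ => (Ici (0 : ℝ)).indicator (ts Γ b) u * exp (-(s * u))) ∧
      ∫ u : ℝ, (Ici (0 : ℝ)).indicator (ts Γ b) u * exp (-(s * u)) = mp Γ b s := by
  have h1 : (fun u : ℝ => (Ici (0 : ℝ)).indicator (ts Γ b) u * exp (-(s * u))) =
      fun u : ℝ => ∑ γ ∈ Γ, b γ * (Ici (0 : ℝ)).indicator
        (fun u : ℝ => exp (-((s - I * γ) * u))) u := by
    ext u
    by_cases hu : u ∈ Ici (0 : ℝ)
    · simp only [indicator_of_mem hu]
      unfold ts
      rw [Finset.sum_mul]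
      refine Finset.sum_congr rfl fun γ _ => ?_
      rw [mul_assoc, ← exp_add]
      congr 2
      ring
    · simp only [indicator_of_notMem hu]
      simp
  have hre : ∀ γ : ℝ, 0 < (s - I * γ).re := fun γ => by simpa using hs
  have hi : ∀ γ ∈ Γ, Integrable fun u : ℝ => b γ * (Ici (0 : ℝ)).indicator
        (fun u : ℝ => exp (-((s - I * γ) * u))) u := fun γ _ =>
    (integrable_step (hre γ) 0).const_mul _
  rw [h1]
  refine ⟨integrable_finsetSum _ hi, ?_⟩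
  rw [integral_finsetSum _ hi]
  unfold mp pol
  refine Finset.sum_congr rfl fun γ _ => ?_
  rw [integral_const_mul, integral_step (hre γ)]
  simp

/-- the passage from the transform to the function -/
theorem pw_av {δ₀ : ℝ} {K : ℝ≥0∞} (ha : 0 ≤ a) (hδ₀ : 0 < δ₀)
    (hk1 : ∀ x : ℝ, a < x → Integrable fun u : ℝ => k u * exp (-(x * u)))
    (hk2 : ∀ x : ℝ, a < x → MemLp (fun u : ℝ => k u * exp (-(x * u))) 2)
    (hH : ∀ s : ℂ, a < s.re → H s = ∫ u : ℝ, k u * exp (-(s * u)))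
    (hd : ∀ s : ℂ, 0 < s.re → DifferentiableAt ℂ H s)
    (hb : ∀ δ : ℝ, 0 < δ → ∃ B : ℝ, ∀ s : ℂ, δ ≤ s.re → s.re ≤ a + 1 → ‖H s‖ ≤ B)
    (hK : ∀ δ : ℝ, 0 < δ → δ < δ₀ → ∫⁻ t : ℝ, ‖av H h T (δ + t * I)‖ₑ ^ 2 ≤ K) :
    ∫⁻ u : ℝ, ‖k u * ww (h * (u - T))‖ₑ ^ 2 ≤ K := by
  have hwc : Continuous fun u : ℝ => ww (h * (u - T)) := ww_cont.comp (by fun_prop)
  refine Pool.Agent.TH270.MS.paley_wiener (k := fun u => k u * ww (h * (u - T)))
    (H := av H h T) (a := a) (δ₀ := δ₀) ha hδ₀ ?_ ?_ ?_ ?_ ?_ hK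
  · intro x hx
    have h1 : (fun u : ℝ => k u * ww (h * (u - T)) * exp (-((x : ℂ) * u))) =
        fun u : ℝ => ww (h * (u - T)) * (k u * exp (-((x : ℂ) * u))) := by
      ext u
      ring
    rw [h1]
    refine (hk1 x hx).bdd_mul hwc.aestronglyMeasurable (c := 1) ?_
    exact Eventually.of_forall fun u => ww_norm_le_one _
  · intro x hx
    have h1 : (fun u : ℝ => k u * ww (h * (u - T)) * exp (-((x : ℂ) * u))) =
        fun u : ℝ => (k u * exp (-((x : ℂ) * u))) * ww (h * (u - T)) := by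
      ext u
      ring
    rw [h1]
    refine (hk2 x hx).of_le ((hk2 x hx).1.mul hwc.aestronglyMeasurable)
      (Eventually.of_forall fun u => ?_)
    rw [norm_mul]
    exact mul_le_of_le_one_right (norm_nonneg _) (ww_norm_le_one _)
  · intro s hs
    exact av_lap hk1 hH hs
  · intro s hs
    exact av_diff hd hs
  · intro δ hδ
    obtain ⟨B, hB⟩ := hb δ hδ
    refine ⟨B, fun s h1 h2 => av_le fun y _ => hB _ ?_ ?_⟩
    · rwa [re_seg]
    · rwa [re_seg]

/-- the remainder is square integrable -/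
lemma rem_fin : ∫⁻ t : ℝ, ENNReal.ofReal (1 / (1 + |t|) ^ 2) < ⊤ := by
  have h1 : Integrable fun t : ℝ => (1 + ‖t‖) ^ (-(2 : ℝ)) :=
    integrable_one_add_norm (by simp)
  have h2 := h1.lintegral_lt_top
  refine lt_of_le_of_lt (lintegral_mono fun t => ?_) h2
  apply ENNReal.ofReal_le_ofReal
  rw [Real.norm_eq_abs, Real.rpow_neg (by positivity), one_div]
  norm_num

/-- **The mean square of the difference.** -/
theorem core {δ₀ : ℝ} {M : ℝ → ℝ} (ha : 0 ≤ a) (hδ₀ : 0 < δ₀) (hh : 0 < h) (hh1 : h ≤ 1)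
    (hk1 : ∀ x : ℝ, a < x → Integrable fun u : ℝ => k u * exp (-(x * u)))
    (hk2 : ∀ x : ℝ, a < x → MemLp (fun u : ℝ => k u * exp (-(x * u))) 2)
    (hH : ∀ s : ℂ, a < s.re → H s = ∫ u : ℝ, k u * exp (-(s * u)))
    (hd : ∀ s : ℂ, 0 < s.re → DifferentiableAt ℂ H s)
    (hb : ∀ δ : ℝ, 0 < δ → ∃ B : ℝ, ∀ s : ℂ, δ ≤ s.re → s.re ≤ a + 1 → ‖H s‖ ≤ B)
    (hloc : ∀ δ : ℝ, 0 < δ → δ < δ₀ → ∀ t : ℝ, ∃ (n : ℕ) (c z : Fin n → ℂ), (∀ i, (z i).re ≤ 0) ∧
      ∑ i, ‖c i‖ ≤ M t ∧ ∀ y ∈ Icc (0 : ℝ) 1, ‖H (δ + t * I - I * (h * y)) -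
        ∑ i, c i * (δ + t * I - I * (h * y) - z i)⁻¹‖ ≤ M t)
    {Γ : Finset ℝ} {b : ℝ → ℂ} {N B : ℝ}
    (hnear : ∀ t : ℝ, ∑ γ ∈ Γ with |t - γ| < 2 * h, ‖b γ‖ ≤ M t)
    (hin : ∀ s : ℂ, 0 < s.re → s.re < δ₀ → |s.im| ≤ N →
      ‖H s - mp Γ b s‖ ≤ B ∧ ‖deriv (fun s => H s - mp Γ b s) s‖ ≤ B) :
    ∃ K : ℝ≥0∞, K < ⊤ ∧ ∀ T : ℝ, 0 < T → ∫⁻ u in Icc T (T + 1), ‖k u - ts Γ b u‖ₑ ^ 2 ≤
      144 * (ENNReal.ofReal (8 * (12 * Real.pi / h + 1) ^ 2) *
        (∫⁻ t in {t : ℝ | N - 1 < |t|}, ENNReal.ofReal (M t ^ 2)) +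
          ENNReal.ofReal (1 / T ^ 2) * K) := by
  set c₀ : ℝ := 12 * Real.pi / h + 1 with hc₀
  have hc00 : 0 ≤ c₀ := by positivity
  have hcf := cf_pos hh
  set W : ℝ := 2 * cf h * (∑ γ ∈ Γ, ‖b γ‖ * (1 + |γ|)) / h with hW
  have hW0 : 0 ≤ W := by
    have : 0 ≤ ∑ γ ∈ Γ, ‖b γ‖ * (1 + |γ|) := Finset.sum_nonneg fun γ _ => by positivity
    positivity
  set K : ℝ≥0∞ := ENNReal.ofReal ((2 * B / h) ^ 2) * volume (Icc (-(N - 1)) (N - 1)) +
    ENNReal.ofReal (2 * W ^ 2) * ∫⁻ t : ℝ, ENNReal.ofReal (1 / (1 + |t|) ^ 2) with hK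
  have hKt : K < ⊤ := by
    rw [hK]
    refine ENNReal.add_lt_top.2 ⟨ENNReal.mul_lt_top ENNReal.ofReal_lt_top ?_,
      ENNReal.mul_lt_top ENNReal.ofReal_lt_top rem_fin⟩
    exact measure_Icc_lt_top
  refine ⟨K, hKt, fun T hT => ?_⟩
  -- the transform of the difference
  have hmd : ∀ s : ℂ, 0 < s.re → DifferentiableAt ℂ (fun s => H s - mp Γ b s) s := fun s hs =>
    (hd s hs).sub (mp_diff Γ b hs)
  have hre : ∀ x : ℝ, ((x : ℂ)).re = x := fun x => Complex.ofReal_re x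
  have hpos : ∀ x : ℝ, a < x → 0 < ((x : ℂ)).re := fun x hx => by
    rw [hre]
    linarith
  have hsplit : ∀ s : ℂ, (fun u : ℝ => kd k Γ b u * exp (-(s * u))) = fun u : ℝ =>
      k u * exp (-(s * u)) - (Ici (0 : ℝ)).indicator (ts Γ b) u * exp (-(s * u)) := by
    intro s
    ext u
    unfold kd
    ring
  have hk1s : ∀ s : ℂ, a < s.re → Integrable fun u : ℝ => k u * exp (-(s * u)) := by
    intro s hs
    have hks := hk1 s.re hs
    have h1 : (fun u : ℝ => k u * exp (-(s * u))) =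
        fun u : ℝ => exp (-((s - s.re) * u)) * (k u * exp (-((s.re : ℂ) * u))) := by
      ext u
      rw [mul_left_comm, ← exp_add]
      congr 2
      ring
    rw [h1]
    refine hks.bdd_mul (c := 1) (Continuous.aestronglyMeasurable (by fun_prop))
      (Eventually.of_forall fun u => ?_)
    rw [Complex.norm_exp]
    simp
  have hk1' : ∀ x : ℝ, a < x → Integrable fun u : ℝ => kd k Γ b u * exp (-((x : ℂ) * u)) := by
    intro x hx
    rw [hsplit]
    exact (hk1 x hx).sub (ts_lap Γ b (hpos x hx)).1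
  have hk2' : ∀ x : ℝ, a < x → MemLp (fun u : ℝ => kd k Γ b u * exp (-((x : ℂ) * u))) 2 := by
    intro x hx
    rw [hsplit]
    refine (hk2 x hx).sub ?_
    have i1 := (ts_lap Γ b (hpos x hx)).1
    rw [memLp_two_iff_integrable_sq_norm i1.aestronglyMeasurable]
    set Sb : ℝ := ∑ γ ∈ Γ, ‖b γ‖ with hSb
    have hSb0 : 0 ≤ Sb := Finset.sum_nonneg fun γ _ => norm_nonneg _
    refine (i1.norm.const_mul Sb).mono' (i1.aestronglyMeasurable.norm.pow 2)
      (Eventually.of_forall fun u => ?_)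
    rw [Real.norm_of_nonneg (by positivity), sq]
    refine mul_le_mul_of_nonneg_right ?_ (norm_nonneg _)
    rw [norm_mul]
    by_cases hu : u ∈ Ici (0 : ℝ)
    · rw [indicator_of_mem hu, Complex.norm_exp]
      have hu0 : (0 : ℝ) ≤ u := hu
      have e1 : Real.exp (-((x : ℂ) * u)).re ≤ 1 := by
        rw [Real.exp_le_one_iff]
        simp
        have : 0 ≤ x := by linarith
        positivity
      calc ‖ts Γ b u‖ * Real.exp (-((x : ℂ) * u)).re ≤ Sb * 1 :=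
            mul_le_mul (ts_le Γ b u) e1 (Real.exp_pos _).le hSb0
        _ = Sb := mul_one _
    · rw [indicator_of_notMem hu, norm_zero, zero_mul]
      exact hSb0
  have hH' : ∀ s : ℂ, a < s.re → H s - mp Γ b s = ∫ u : ℝ, kd k Γ b u * exp (-(s * u)) := by
    intro s hs
    have hs0 : 0 < s.re := by linarith
    rw [hsplit, integral_sub (hk1s s hs) (ts_lap Γ b hs0).1, (ts_lap Γ b hs0).2, hH s hs]
  have hb' : ∀ δ : ℝ, 0 < δ → ∃ B : ℝ, ∀ s : ℂ, δ ≤ s.re → s.re ≤ a + 1 →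
      ‖H s - mp Γ b s‖ ≤ B := by
    intro δ hδ
    obtain ⟨B', hB'⟩ := hb δ hδ
    refine ⟨B' + ∑ γ ∈ Γ, ‖b γ‖ * (1 / δ), fun s h1 h2 => ?_⟩
    refine (norm_sub_le _ _).trans (add_le_add (hB' s h1 h2) ?_)
    unfold mp pol
    refine norm_sum_le_of_le _ fun γ _ => ?_
    rw [norm_mul]
    refine mul_le_mul_of_nonneg_left ?_ (norm_nonneg _)
    rw [norm_inv, one_div]
    refine inv_anti₀ hδ (h1.trans ?_)
    have := Complex.re_le_norm (s - I * γ)
    simpa using this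
  -- the pointwise bound
  have hpt : ∀ δ : ℝ, 0 < δ → δ < δ₀ → ∀ t : ℝ,
      ‖av (fun s => H s - mp Γ b s) h T (δ + t * I)‖ₑ ^ 2 ≤
        {t : ℝ | N - 1 < |t|}.indicator (fun t => ENNReal.ofReal (8 * c₀ ^ 2) *
          ENNReal.ofReal (M t ^ 2)) t +
        ENNReal.ofReal (1 / T ^ 2) * ((Icc (-(N - 1)) (N - 1)).indicator
          (fun _ => ENNReal.ofReal ((2 * B / h) ^ 2)) t +
            ENNReal.ofReal (2 * W ^ 2) * ENNReal.ofReal (1 / (1 + |t|) ^ 2)) := by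
    intro δ hδ hδ1 t
    have hs : 0 < ((δ : ℂ) + t * I).re := by simpa using hδ
    rw [← ofReal_norm, ← ENNReal.ofReal_pow (norm_nonneg _)]
    rcases le_or_gt |t| (N - 1) with ht | ht
    · rw [indicator_of_notMem (by simpa using ht), zero_add, indicator_of_mem (by
        rw [Set.mem_Icc]
        exact abs_le.1 ht)]
      have h1 := av_ibp (T := T) hmd hs hh hh1 hT (B := B) (fun y hy => by
        refine hin _ ?_ ?_ ?_
        · rw [re_seg]
          exact hs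
        · rw [re_seg]
          simpa using hδ1
        · have : ((δ : ℂ) + t * I - I * (h * y)).im = t - h * y := by simp
          rw [this]
          have h3 : |t - h * y| ≤ |t| + |h * y| := abs_sub _ _
          have h4 : |h * y| ≤ 1 := by
            rw [abs_mul, abs_of_pos hh, abs_of_nonneg hy.1]
            nlinarith [hy.1, hy.2]
          linarith)
      have h2 : ‖av (fun s => H s - mp Γ b s) h T (δ + t * I)‖ ^ 2 ≤
          1 / T ^ 2 * (2 * B / h) ^ 2 := by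
        refine (pow_le_pow_left₀ (norm_nonneg _) h1 2).trans (le_of_eq ?_)
        field_simp
      refine (ENNReal.ofReal_le_ofReal h2).trans ?_
      rw [ENNReal.ofReal_mul (by positivity)]
      exact mul_le_mul_right (self_le_add_right _ _) _
    · rw [indicator_of_mem (show t ∈ {t : ℝ | N - 1 < |t|} from ht)]
      obtain ⟨n, c, z, h1, h2, h3⟩ := hloc δ hδ hδ1 t
      have h4 := av_tail (T := T) hd hδ hh hh1 hT h1 h2 h3 (hnear t)
      rw [← hc₀, ← hW] at h4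
      have h5 : ‖av (fun s => H s - mp Γ b s) h T (δ + t * I)‖ ^ 2 ≤
          8 * c₀ ^ 2 * M t ^ 2 + 1 / T ^ 2 * (2 * W ^ 2 * (1 / (1 + |t|) ^ 2)) := by
        refine (pow_le_pow_left₀ (norm_nonneg _) h4 2).trans ?_
        have e1 : (2 * c₀ * M t + W / (1 + |t|) / T) ^ 2 ≤
            2 * (2 * c₀ * M t) ^ 2 + 2 * (W / (1 + |t|) / T) ^ 2 := by
          nlinarith [sq_nonneg (2 * c₀ * M t - W / (1 + |t|) / T)]
        refine e1.trans (le_of_eq ?_)
        rw [div_pow, div_pow]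
        ring
      refine (ENNReal.ofReal_le_ofReal h5).trans ?_
      rw [ENNReal.ofReal_add (by positivity) (by positivity), ENNReal.ofReal_mul (by positivity),
        ENNReal.ofReal_mul (p := 1 / T ^ 2) (by positivity),
        ENNReal.ofReal_mul (p := 2 * W ^ 2) (by positivity)]
      gcongr
      exact self_le_add_left _ _
  have hN : MeasurableSet {t : ℝ | N - 1 < |t|} := measurableSet_lt measurable_const measurable_id.abs
  have hint : ∀ δ : ℝ, 0 < δ → δ < δ₀ →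
      ∫⁻ t : ℝ, ‖av (fun s => H s - mp Γ b s) h T (δ + t * I)‖ₑ ^ 2 ≤
        ENNReal.ofReal (8 * c₀ ^ 2) *
          (∫⁻ t in {t : ℝ | N - 1 < |t|}, ENNReal.ofReal (M t ^ 2)) +
            ENNReal.ofReal (1 / T ^ 2) * K := by
    intro δ hδ hδ1
    refine (lintegral_mono (hpt δ hδ hδ1)).trans (le_of_eq ?_)
    have m1 : Measurable fun t : ℝ => ENNReal.ofReal (1 / (1 + |t|) ^ 2) := by fun_prop
    have m2 : Measurable ((Icc (-(N - 1)) (N - 1)).indicator
          (fun _ : ℝ => ENNReal.ofReal ((2 * B / h) ^ 2))) :=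
      measurable_const.indicator measurableSet_Icc
    have m3 : Measurable fun t : ℝ => ENNReal.ofReal (1 / T ^ 2) *
        ((Icc (-(N - 1)) (N - 1)).indicator (fun _ => ENNReal.ofReal ((2 * B / h) ^ 2)) t +
            ENNReal.ofReal (2 * W ^ 2) * ENNReal.ofReal (1 / (1 + |t|) ^ 2)) :=
      (m2.add (m1.const_mul _)).const_mul _
    rw [lintegral_add_right _ m3, lintegral_indicator hN, lintegral_const_mul' _ _ ENNReal.ofReal_ne_top,
      lintegral_const_mul' _ _ ENNReal.ofReal_ne_top, lintegral_add_left m2,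
      lintegral_indicator measurableSet_Icc, lintegral_const_mul' _ _ ENNReal.ofReal_ne_top,
      setLIntegral_const]
  have h1 := pw_av (k := kd k Γ b) (H := fun s => H s - mp Γ b s) (h := h) (T := T) ha hδ₀ hk1' hk2'
    hH' hmd hb' hint
  have h2 := local_bound hh hh1 h1
  refine le_trans (le_of_eq ?_) h2
  refine setLIntegral_congr_fun measurableSet_Icc fun u hu => ?_
  have hu0 : u ∈ Ici (0 : ℝ) := hT.le.trans hu.1
  unfold kd
  rw [indicator_of_mem hu0]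

end Pool.Agent.Q195.AP
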