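import Pool.Agent.Q195.AP.Bes

/-! Almost periodic functions in the sense of Besicovitch: the limit law. -/

set_option autoImplicit false

open MeasureTheory Filter Topology Set Complex
open scoped ENNReal CompactlySupported

namespace Pool.Agent.Q195.AP

/-- the means of continuous functions of a trigonometric sum -/
theorem TP.law {F : ℝ → ℂ} (hF : TP F) {φ : ℝ → ℝ} (hφ : Continuous φ) :
    ∃ L : ℝ, Tendsto (mn fun t => φ (F t).re) atTop (𝓝 L) := by
  -- a bound
  obtain ⟨R, hR⟩ : ∃ R : ℝ, ∀ t, |(F t).re| ≤ R := by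
    obtain ⟨ι, _, ω, c, h1⟩ := hF
    refine ⟨∑ i, ‖c i‖, fun t => (Complex.abs_re_le_norm _).trans ?_⟩
    rw [h1]
    refine norm_sum_le_of_le _ fun i _ => ?_
    rw [norm_mul, nexp2, mul_one]
  have hFc : Continuous fun t => (F t).re := Complex.continuous_re.comp hF.cont
  have hq : ∀ n : ℕ, ∃ p : Polynomial ℝ, ∀ x ∈ Icc (-R) R, |p.eval x - φ x| < 1 / ((n : ℝ) + 1) :=
    fun n => exists_polynomial_near_of_continuousOn (-R) R φ hφ.continuousOn _ (by positivity)
  choose p hp using hq
  have hl : ∀ n, ∃ L : ℝ, Tendsto (mn fun t => (p n).eval (F t).re) atTop (𝓝 L) := by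
    intro n
    have h1 : TP fun t => (((p n).eval (F t).re : ℝ) : ℂ) := by
      have h2 : ∀ t, (((p n).eval (F t).re : ℝ) : ℂ) =
          ∑ i ∈ Finset.range ((p n).natDegree + 1), (((p n).coeff i : ℝ) : ℂ) *
            (((F t).re : ℝ) : ℂ) ^ i := by
        intro t
        rw [Polynomial.eval_eq_sum_range]
        push_cast
        rfl
      simp only [h2]
      exact TP.sum _ fun i _ => (TP.const _).mul (hF.re.pow i)
    obtain ⟨L, hL⟩ := h1.mean
    refine ⟨L.re, ((Complex.continuous_re.tendsto _).comp hL).congr fun T => ?_⟩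
    simp only [Function.comp]
    unfold mnC mn
    rw [intervalIntegral.integral_ofReal, ← Complex.ofReal_div, Complex.ofReal_re]
  choose l hl using hl
  obtain ⟨L, h1, -⟩ := mo (A := mn fun t => φ (F t).re) (AN := fun n => mn fun t =>
    (p n).eval (F t).re) (fun ε hε => by
      have h3 : Tendsto (fun n : ℕ => 1 / ((n : ℝ) + 1)) atTop (𝓝 0) :=
        tendsto_one_div_add_atTop_nhds_zero_nat
      filter_upwards [h3.eventually (gt_mem_nhds hε)] with n hn
      filter_upwards [eventually_ge_atTop 1] with T hT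
      have i1 : LI fun t => φ (F t).re := LI.of_cont (hφ.comp hFc)
      have i2 : LI fun t => (p n).eval (F t).re := LI.of_cont ((p n).continuous.comp hFc)
      rw [← mn_sub i1 i2 hT, Real.norm_eq_abs]
      refine (abs_mn hT).trans ?_
      have i3 : LI fun t => |φ (F t).re - (p n).eval (F t).re| := (i1.sub i2).norm
      refine (mn_mono i3 (LI.of_cont continuous_const) hT (g := fun _ => ε) fun t _ => ?_).trans
        (mn_const hT hε.le)
      rw [abs_sub_comm]
      exact (hp n _ (abs_le.1 (hR t))).le.trans hn.le) hl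
  exact ⟨L, h1⟩

variable {f : ℝ → ℝ} {Γ : ℕ → Finset ℝ} {b : ℝ → ℂ}

/-- moderately growing test functions -/
def Mod (φ : ℝ → ℝ) : Prop := ∀ ε : ℝ, 0 < ε → ∃ C : ℝ, 0 ≤ C ∧ ∀ x y : ℝ,
  |φ x - φ y| ≤ ε + C * (x - y) ^ 2

lemma Bes.li_phi (H : Bes f Γ b) {φ : ℝ → ℝ} (hφ : Continuous φ) {C : ℝ}
    (hC : ∀ x, |φ x| ≤ C * (1 + x ^ 2)) : LI fun t => φ (f t) := by
  have h1 : LI fun t => C * (1 + f t ^ 2) :=
    ((LI.of_cont continuous_const).add H.sq).const_mul C
  refine h1.mono (hφ.measurable.comp H.meas).aestronglyMeasurable fun t => ?_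
  rw [Real.norm_eq_abs]
  exact hC _

/-- the means converge -/
theorem Bes.conv (H : Bes f Γ b) {φ : ℝ → ℝ} (hφ : Continuous φ) (hm : Mod φ) :
    ∃ L : ℝ, Tendsto (mn fun t => φ (f t)) atTop (𝓝 L) := by
  obtain ⟨C₁, hC₁, hb⟩ := hm 1 one_pos
  have hgr : ∀ x, |φ x| ≤ (|φ 0| + 1 + C₁) * (1 + x ^ 2) := by
    intro x
    have h1 := hb x 0
    rw [sub_zero] at h1
    have h2 : |φ x| ≤ |φ x - φ 0| + |φ 0| := by
      have := abs_add_le (φ x - φ 0) (φ 0)
      rwa [sub_add_cancel] at this
    nlinarith [sq_nonneg x, abs_nonneg (φ 0)]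
  have i1 := H.li_phi hφ hgr
  have i2 : ∀ N, LI fun t => φ (ts (Γ N) b t).re := fun N =>
    LI.of_cont (hφ.comp (Complex.continuous_re.comp (ts_cont _ _)))
  obtain ⟨l, hl⟩ : ∃ l : ℕ → ℝ, ∀ N, Tendsto (mn fun t => φ (ts (Γ N) b t).re) atTop (𝓝 (l N)) :=
    ⟨fun N => ((TP.ts (Γ N) b).law hφ).choose, fun N => ((TP.ts (Γ N) b).law hφ).choose_spec⟩
  obtain ⟨L, h1, -⟩ := mo (A := mn fun t => φ (f t)) (AN := fun N => mn fun t =>
    φ (ts (Γ N) b t).re) (fun ε hε => by
      obtain ⟨C, hC, hb⟩ := hm (ε / 2) (by linarith)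
      filter_upwards [H.app (ε / 2 / (C + 1)) (by positivity)] with N hN
      filter_upwards [hN, eventually_ge_atTop 1] with T hT hT1
      rw [← mn_sub i1 (i2 N) hT1, Real.norm_eq_abs]
      have i3 : LI fun t => |φ (f t) - φ (ts (Γ N) b t).re| := (i1.sub (i2 N)).norm
      have i4 : LI fun t => ε / 2 + C * ‖(f t : ℂ) - ts (Γ N) b t‖ ^ 2 :=
        (LI.of_cont continuous_const).add ((H.li_diff N).const_mul C)
      refine (abs_mn hT1).trans ((mn_mono i3 i4 hT1 fun t _ => ?_).trans ?_)
      · refine (hb _ _).trans ?_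
        have e1 : (f t - (ts (Γ N) b t).re) ^ 2 ≤ ‖(f t : ℂ) - ts (Γ N) b t‖ ^ 2 := by
          rw [← sq_abs]
          refine pow_le_pow_left₀ (abs_nonneg _) ?_ 2
          have := Complex.abs_re_le_norm ((f t : ℂ) - ts (Γ N) b t)
          simpa using this
        have := mul_le_mul_of_nonneg_left e1 hC
        linarith
      · rw [mn_add (LI.of_cont continuous_const) ((H.li_diff N).const_mul C) hT1, mn_mul]
        have e1 := mn_const hT1 (c := ε / 2) (by linarith)
        have e2 : C * mn (fun t => ‖(f t : ℂ) - ts (Γ N) b t‖ ^ 2) T ≤ ε / 2 := by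
          calc _ ≤ (C + 1) * (ε / 2 / (C + 1)) := by
                refine mul_le_mul (by linarith) hT (mn_nonneg hT1 fun t => by positivity)
                  (by linarith)
            _ = ε / 2 := by field_simp
        linarith) hl
  exact ⟨L, h1⟩

/-- uniform integrability of the squares -/
theorem Bes.ui (H : Bes f Γ b) {ε : ℝ} (hε : 0 < ε) : ∃ R : ℝ, 1 ≤ R ∧ ∀ᶠ T in atTop,
    mn (fun t => if R < |f t| then f t ^ 2 else 0) T ≤ ε := by
  obtain ⟨N, hN⟩ := (H.app (ε / 4) (by linarith)).exists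
  set S : ℝ := ∑ γ ∈ Γ N, ‖b γ‖ with hS
  have hS0 : 0 ≤ S := Finset.sum_nonneg fun γ _ => norm_nonneg _
  refine ⟨2 * S + 1, by linarith, ?_⟩
  filter_upwards [hN, eventually_ge_atTop 1] with T hT hT1
  have i1 : LI fun t => if 2 * S + 1 < |f t| then f t ^ 2 else 0 := by
    refine H.sq.mono ?_ fun t => ?_
    · exact (Measurable.ite (measurableSet_lt measurable_const H.meas.abs) (H.meas.pow_const 2)
        measurable_const).aestronglyMeasurable
    · split_ifs
      · rw [Real.norm_of_nonneg (sq_nonneg _)]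
      · rw [norm_zero]
        positivity
  have i2 : LI fun t => 4 * ‖(f t : ℂ) - ts (Γ N) b t‖ ^ 2 := (H.li_diff N).const_mul 4
  refine (mn_mono i1 i2 hT1 fun t _ => ?_).trans ?_
  · split_ifs with h
    · have e1 := norm_sub_norm_le (f t : ℂ) (ts (Γ N) b t)
      rw [Complex.norm_real, Real.norm_eq_abs] at e1
      have e2 := ts_le (Γ N) b t
      have e3 : |f t| ≤ 2 * ‖(f t : ℂ) - ts (Γ N) b t‖ := by linarith
      rw [← sq_abs (f t)]
      calc |f t| ^ 2 ≤ (2 * ‖(f t : ℂ) - ts (Γ N) b t‖) ^ 2 :=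
            pow_le_pow_left₀ (abs_nonneg _) e3 2
        _ = _ := by ring
    · positivity
  · rw [mn_mul]
    linarith

/-- functions of compact support are moderate -/
lemma mod_cc {φ : ℝ → ℝ} (hφ : Continuous φ) (hc : HasCompactSupport φ) : Mod φ := by
  intro ε hε
  obtain ⟨B, hB⟩ := hc.exists_bound_of_continuous hφ
  have hB0 : 0 ≤ B := (norm_nonneg _).trans (hB 0)
  have hu := hc.uniformContinuous_of_continuous hφ
  obtain ⟨d, hd, h1⟩ := Metric.uniformContinuous_iff.1 hu ε hε
  refine ⟨2 * B / d ^ 2, by positivity, fun x y => ?_⟩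
  rcases lt_or_ge |x - y| d with h | h
  · have h2 := h1 (by rwa [Real.dist_eq] : dist x y < d)
    rw [Real.dist_eq] at h2
    have : 0 ≤ 2 * B / d ^ 2 * (x - y) ^ 2 := by positivity
    linarith
  · have h2 : |φ x - φ y| ≤ 2 * B := by
      have e1 := hB x
      have e2 := hB y
      rw [Real.norm_eq_abs] at e1 e2
      have := abs_sub (φ x) (φ y)
      linarith
    have h3 : 1 ≤ (x - y) ^ 2 / d ^ 2 := by
      rw [one_le_div (by positivity), ← sq_abs (x - y)]
      exact pow_le_pow_left₀ hd.le h 2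
    have h4 : 2 * B / d ^ 2 * (x - y) ^ 2 = 2 * B * ((x - y) ^ 2 / d ^ 2) := by ring
    rw [h4]
    nlinarith

/-- the limit of the means -/
noncomputable def Bes.lim (H : Bes f Γ b) (φ : C_c(ℝ, ℝ)) : ℝ :=
  (H.conv φ.continuous (mod_cc φ.continuous φ.hasCompactSupport)).choose

lemma Bes.lim_spec (H : Bes f Γ b) (φ : C_c(ℝ, ℝ)) :
    Tendsto (mn fun t => φ (f t)) atTop (𝓝 (H.lim φ)) :=
  (H.conv φ.continuous (mod_cc φ.continuous φ.hasCompactSupport)).choose_spec

lemma Bes.li_cc (H : Bes f Γ b) (φ : C_c(ℝ, ℝ)) : LI fun t => φ (f t) := by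
  obtain ⟨B, hB⟩ := φ.hasCompactSupport.exists_bound_of_continuous φ.continuous
  have hB0 : 0 ≤ B := (norm_nonneg _).trans (hB 0)
  refine H.li_phi φ.continuous (C := B) fun x => ?_
  have h1 := hB x
  rw [Real.norm_eq_abs] at h1
  nlinarith [sq_nonneg x]

/-- the positive linear functional -/
noncomputable def Bes.fnl (H : Bes f Γ b) : C_c(ℝ, ℝ) →ₚ[ℝ] ℝ :=
  PositiveLinearMap.mk₀
    { toFun := H.lim
      map_add' := fun φ ψ => by
        refine tendsto_nhds_unique (H.lim_spec (φ + ψ)) ?_
        refine ((H.lim_spec φ).add (H.lim_spec ψ)).congr' ?_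
        filter_upwards [eventually_ge_atTop 1] with T hT
        rw [← mn_add (H.li_cc φ) (H.li_cc ψ) hT]
        rfl
      map_smul' := fun c φ => by
        refine tendsto_nhds_unique (H.lim_spec (c • φ)) ?_
        refine ((H.lim_spec φ).const_mul c).congr fun T => ?_
        rw [← mn_mul]
        rfl }
    (fun φ hφ => by
      refine ge_of_tendsto (H.lim_spec φ) ?_
      filter_upwards [eventually_ge_atTop 1] with T hT
      exact mn_nonneg hT fun t => hφ (f t))

lemma Bes.fnl_apply (H : Bes f Γ b) (φ : C_c(ℝ, ℝ)) : H.fnl φ = H.lim φ := rfl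

/-- a cutoff -/
noncomputable def cut (n : ℕ) (x : ℝ) : ℝ := max 0 (min 1 (2 - |x| / (n + 1)))

lemma cut_cont (n : ℕ) : Continuous (cut n) := by
  unfold cut
  fun_prop

lemma cut_nonneg (n : ℕ) (x : ℝ) : 0 ≤ cut n x := le_max_left _ _

lemma cut_le (n : ℕ) (x : ℝ) : cut n x ≤ 1 := by
  unfold cut
  exact max_le zero_le_one (min_le_left _ _)

lemma cut_one {n : ℕ} {x : ℝ} (hx : |x| ≤ n) : cut n x = 1 := by
  unfold cut
  have hn : (0 : ℝ) < n + 1 := by positivity
  have h1 : |x| / (n + 1) ≤ 1 := by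
    rw [div_le_one hn]
    linarith
  rw [min_eq_left (by linarith), max_eq_right zero_le_one]

lemma cut_supp (n : ℕ) : HasCompactSupport (cut n) := by
  refine HasCompactSupport.intro (isCompact_Icc (a := -(2 * ((n : ℝ) + 1))) (b := 2 * ((n : ℝ) + 1)))
    fun x hx => ?_
  have hn : (0 : ℝ) < n + 1 := by positivity
  have h1 : 2 * ((n : ℝ) + 1) < |x| := by
    by_contra hc
    exact hx (abs_le.1 (not_lt.1 hc))
  have h2 : 2 < |x| / (n + 1) := by
    rw [lt_div_iff₀ hn]
    exact h1
  unfold cut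
  rw [min_eq_right (by linarith), max_eq_left (by linarith)]

/-- the cut function -/
noncomputable def cutf (φ : ℝ → ℝ) (hφ : Continuous φ) (n : ℕ) : C_c(ℝ, ℝ) where
  toFun := fun x => φ x * cut n x
  continuous_toFun := hφ.mul (cut_cont n)
  hasCompactSupport' := (cut_supp n).mul_left

lemma cutf_apply {φ : ℝ → ℝ} (hφ : Continuous φ) (n : ℕ) (x : ℝ) :
    cutf φ hφ n x = φ x * cut n x := rfl

/-- **The limit law.** -/
theorem Bes.law (H : Bes f Γ b) : ∃ ν : Measure ℝ, IsProbabilityMeasure ν ∧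
    ∀ φ : ℝ → ℝ, Continuous φ → (∃ C : ℝ, ∀ x, |φ x| ≤ C * (1 + x ^ 2)) →
      Integrable φ ν ∧ Tendsto (mn fun t => φ (f t)) atTop (𝓝 (∫ x, φ x ∂ν)) := by
  set ν : Measure ℝ := RealRMK.rieszMeasure H.fnl with hν
  have hint : ∀ φ : C_c(ℝ, ℝ), ∫ x, φ x ∂ν = H.lim φ := fun φ => by
    rw [hν, RealRMK.integral_rieszMeasure, H.fnl_apply]
  obtain ⟨K, hK0, hK⟩ := H.bd
  -- the second moment
  have hqc : Continuous fun x : ℝ => 1 + x ^ 2 := by fun_prop
  have hsec : ∀ n, ∫ x, (cutf _ hqc n) x ∂ν ≤ 1 + K := by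
    intro n
    rw [hint]
    refine le_of_tendsto (H.lim_spec _) ?_
    filter_upwards [hK, eventually_ge_atTop 1] with T hT hT1
    have i1 : LI fun t => 1 + f t ^ 2 := (LI.of_cont continuous_const).add H.sq
    refine (mn_mono (H.li_cc _) i1 hT1 fun t _ => ?_).trans ?_
    · rw [cutf_apply]
      exact mul_le_of_le_one_right (by positivity) (cut_le n _)
    · rw [mn_add (LI.of_cont continuous_const) H.sq hT1]
      have := mn_const hT1 (c := 1) zero_le_one
      linarith
  have hfat : ∫⁻ x, ENNReal.ofReal (1 + x ^ 2) ∂ν ≤ ENNReal.ofReal (1 + K) := by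
    have h1 : ∀ n, ∫⁻ x, ENNReal.ofReal ((cutf _ hqc n) x) ∂ν ≤ ENNReal.ofReal (1 + K) := by
      intro n
      rw [← ofReal_integral_eq_lintegral_ofReal]
      · exact ENNReal.ofReal_le_ofReal (hsec n)
      · exact (cutf _ hqc n).continuous.integrable_of_hasCompactSupport
          (cutf _ hqc n).hasCompactSupport
      · refine Eventually.of_forall fun x => ?_
        rw [cutf_apply]
        exact mul_nonneg (by positivity) (cut_nonneg n x)
    have h2 := lintegral_liminf_le (μ := ν) (u := atTop)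
      (f := fun (n : ℕ) (x : ℝ) => ENNReal.ofReal ((cutf _ hqc n) x))
      (fun n => (cutf _ hqc n).continuous.measurable.ennreal_ofReal)
    have h3 : ∀ x : ℝ, liminf (fun n : ℕ => ENNReal.ofReal ((cutf _ hqc n) x)) atTop =
        ENNReal.ofReal (1 + x ^ 2) := by
      intro x
      refine Tendsto.liminf_eq (tendsto_const_nhds.congr' ?_)
      obtain ⟨N, hN⟩ := exists_nat_ge |x|
      filter_upwards [eventually_ge_atTop N] with n hn
      rw [cutf_apply, cut_one (hN.trans (by exact_mod_cast hn)), mul_one]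
    simp only [h3] at h2
    refine h2.trans ?_
    refine liminf_le_of_le (by isBoundedDefault) fun c hc => ?_
    obtain ⟨n, hn⟩ := hc.exists
    exact hn.trans (h1 n)
  have hfq : Integrable (fun x : ℝ => 1 + x ^ 2) ν := by
    refine ⟨hqc.aestronglyMeasurable, ?_⟩
    rw [hasFiniteIntegral_iff_ofReal (Eventually.of_forall fun x => by positivity)]
    exact hfat.trans_lt ENNReal.ofReal_lt_top
  -- the means
  have key : ∀ φ : ℝ → ℝ, Continuous φ → (∃ C : ℝ, ∀ x, |φ x| ≤ C * (1 + x ^ 2)) →
      Integrable φ ν ∧ Tendsto (mn fun t => φ (f t)) atTop (𝓝 (∫ x, φ x ∂ν)) := by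
    rintro φ hφ ⟨C, hC⟩
    have hC0 : 0 ≤ C := by
      have := (abs_nonneg _).trans (hC 0)
      simpa using this
    have hi : Integrable φ ν := (hfq.const_mul C).mono' hφ.aestronglyMeasurable
      (Eventually.of_forall fun x => by
        rw [Real.norm_eq_abs]
        exact hC x)
    refine ⟨hi, ?_⟩
    have hl : Tendsto (fun n => ∫ x, (cutf φ hφ n) x ∂ν) atTop (𝓝 (∫ x, φ x ∂ν)) := by
      refine tendsto_integral_of_dominated_convergence (fun x => C * (1 + x ^ 2))
        (fun n => (cutf φ hφ n).continuous.aestronglyMeasurable) (hfq.const_mul C) ?_ ?_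
      · intro n
        refine Eventually.of_forall fun x => ?_
        rw [cutf_apply, norm_mul, Real.norm_eq_abs, Real.norm_of_nonneg (cut_nonneg n x)]
        exact (mul_le_of_le_one_right (abs_nonneg _) (cut_le n x)).trans (hC x)
      · refine Eventually.of_forall fun x => ?_
        refine tendsto_const_nhds.congr' ?_
        obtain ⟨N, hN⟩ := exists_nat_ge |x|
        filter_upwards [eventually_ge_atTop N] with n hn
        rw [cutf_apply, cut_one (hN.trans (by exact_mod_cast hn)), mul_one]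
    have i1 := H.li_phi hφ hC
    obtain ⟨L, h1, h2⟩ := mo (A := mn fun t => φ (f t)) (AN := fun n => mn fun t =>
      (cutf φ hφ n) (f t)) (l := fun n => ∫ x, (cutf φ hφ n) x ∂ν) (fun ε hε => by
        obtain ⟨R, hR1, hR⟩ := H.ui (ε := ε / (2 * (C + 1))) (by positivity)
        obtain ⟨N, hN⟩ := exists_nat_ge R
        filter_upwards [eventually_ge_atTop N] with n hn
        filter_upwards [hR, eventually_ge_atTop 1] with T hT hT1
        have hRn : R ≤ n := hN.trans (by exact_mod_cast hn)
        have i2 := H.li_cc (cutf φ hφ n)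
        have i3 : LI fun t => |φ (f t) - (cutf φ hφ n) (f t)| := (i1.sub i2).norm
        have i4 : LI fun t => if R < |f t| then f t ^ 2 else 0 := by
          refine H.sq.mono ?_ fun t => ?_
          · exact (Measurable.ite (measurableSet_lt measurable_const H.meas.abs)
              (H.meas.pow_const 2) measurable_const).aestronglyMeasurable
          · split_ifs
            · rw [Real.norm_of_nonneg (sq_nonneg _)]
            · rw [norm_zero]
              positivity
        rw [← mn_sub i1 i2 hT1, Real.norm_eq_abs]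
        refine (abs_mn hT1).trans ((mn_mono i3 (i4.const_mul (2 * C)) hT1 fun t _ => ?_).trans ?_)
        · rcases le_or_gt |f t| R with h | h
          · rw [cutf_apply, cut_one (h.trans hRn), mul_one, sub_self, abs_zero, if_neg (not_lt.2 h),
              mul_zero]
          · rw [if_pos h, cutf_apply]
            have e1 : φ (f t) - φ (f t) * cut n (f t) = φ (f t) * (1 - cut n (f t)) := by ring
            have e2 := cut_nonneg n (f t)
            have e3 := cut_le n (f t)
            rw [e1, abs_mul, abs_of_nonneg (by linarith : 0 ≤ 1 - cut n (f t))]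
            refine (mul_le_of_le_one_right (abs_nonneg _) (by linarith)).trans ((hC _).trans ?_)
            have e4 : 1 ≤ f t ^ 2 := by
              rw [← sq_abs]
              exact one_le_pow₀ (hR1.trans h.le)
            nlinarith
        · rw [mn_mul]
          have e5 : 0 ≤ mn (fun t => if R < |f t| then f t ^ 2 else 0) T :=
            mn_nonneg hT1 fun t => by split_ifs <;> positivity
          calc _ ≤ 2 * (C + 1) * (ε / (2 * (C + 1))) := by
                refine mul_le_mul (by linarith) hT e5 (by positivity)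
            _ = ε := by field_simp) (fun n => by
        have := H.lim_spec (cutf φ hφ n)
        rwa [← hint] at this)
    rwa [tendsto_nhds_unique h2 hl] at h1
  refine ⟨ν, ?_, key⟩
  obtain ⟨h1, h2⟩ := key (fun _ => 1) continuous_const ⟨1, fun x => by
    rw [abs_one, one_mul]
    nlinarith [sq_nonneg x]⟩
  have h3 : Tendsto (mn fun _ => 1) atTop (𝓝 1) := by
    have h4 : Tendsto (fun T : ℝ => 1 - T⁻¹) atTop (𝓝 (1 - 0)) :=
      tendsto_const_nhds.sub tendsto_inv_atTop_zero
    rw [sub_zero] at h4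
    refine h4.congr' ?_
    filter_upwards [eventually_gt_atTop 0] with T hT
    unfold mn
    rw [intervalIntegral.integral_const, smul_eq_mul]
    field_simp
  have h4 := tendsto_nhds_unique h2 h3
  rw [integral_const, smul_eq_mul, mul_one] at h4
  constructor
  have h5 : ν univ ≠ ⊤ := by
    have := (integrable_const_iff.1 h1)
    rcases this with h | h
    · exact absurd h one_ne_zero
    · exact (measure_lt_top ν univ).ne
  rw [Measure.real, ENNReal.toReal_eq_one_iff] at h4
  exact h4

end Pool.Agent.Q195.AP
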