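import Pool.Agent.Q195.AP.Trans
import Pool.Agent.Q195.AP.Law

/-! Almost periodicity of the deviation of the sums `∑ c(n)`. -/

set_option autoImplicit false

open MeasureTheory Filter Topology Set Complex
open scoped ENNReal
open Pool.Agent.TH942.LS (Dat P)
open Pool.Agent.TH942.SL

namespace Pool.Agent.Q195.AP

open Pool.Agent.Q195.CR
open Pool.Agent.TH270.MS

variable {lam c : ℕ → ℝ} {δ σ : ℝ} {G₀ g : ℂ → ℂ} {k p κ : ℕ} {η C : ℝ}

/-- the scaled deviation -/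
noncomputable def fd (lam c : ℕ → ℝ) (r q t : ℝ) : ℝ := t * (Sh lam c t - r * Real.log t - q)

lemma fd_meas (D : Dat lam c δ σ) (r q : ℝ) : Measurable (fd lam c r q) :=
  measurable_id.mul (ferr_meas D r q)

lemma fd_bd (D : Dat lam c δ σ) (r q : ℝ) : ∃ K : ℝ, 0 ≤ K ∧ ∀ t : ℝ, 1 ≤ t →
    |fd lam c r q t| ≤ K * (t * Real.exp (σ * t) + t ^ 2 + t) := by
  set S₀ : ℝ := ∑' n, |c n| * Real.exp (-(σ * lam n)) with hS₀
  have h0 : 0 ≤ S₀ := tsum_nonneg fun n => by positivity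
  refine ⟨S₀ + |r| + |q|, by positivity, fun t ht => ?_⟩
  have ht0 : 0 < t := by linarith
  have e1 := sh_le D t
  have e2 : |Real.log t| ≤ t := by
    rw [abs_of_nonneg (Real.log_nonneg ht)]
    have := Real.log_le_sub_one_of_pos ht0
    linarith
  unfold fd
  rw [abs_mul, abs_of_pos ht0]
  have e3 : |Sh lam c t - r * Real.log t - q| ≤ Real.exp (σ * t) * S₀ + |r| * t + |q| := by
    refine (abs_sub _ _).trans (add_le_add ((abs_sub _ _).trans (add_le_add e1 ?_)) le_rfl)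
    rw [abs_mul]
    exact mul_le_mul_of_nonneg_left e2 (abs_nonneg r)
  refine (mul_le_mul_of_nonneg_left e3 ht0.le).trans ?_
  have p1 : 0 ≤ (|r| + |q|) * (t * Real.exp (σ * t)) := by positivity
  have p2 : 0 ≤ (S₀ + |q|) * t ^ 2 := by positivity
  have p3 : 0 ≤ (S₀ + |r|) * t := by positivity
  nlinarith

lemma fd_sq_li (D : Dat lam c δ σ) (r q : ℝ) : LI fun t => fd lam c r q t ^ 2 := by
  obtain ⟨K, hK, hb⟩ := fd_bd D r q
  intro T hT
  rw [intervalIntegrable_iff_integrableOn_Ioc_of_le hT]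
  have h1 : IntegrableOn (fun t : ℝ => (K * (t * Real.exp (σ * t) + t ^ 2 + t)) ^ 2) (Ioc 1 T) :=
    (Continuous.integrableOn_Icc (by fun_prop)).mono_set Ioc_subset_Icc_self
  refine h1.mono' ((fd_meas D r q).pow_const 2).aestronglyMeasurable ?_
  filter_upwards [ae_restrict_mem measurableSet_Ioc] with t ht
  rw [Real.norm_of_nonneg (sq_nonneg _), ← sq_abs]
  exact pow_le_pow_left₀ (abs_nonneg _) (hb t ht.1.le) 2

lemma fd_dist_li (D : Dat lam c δ σ) (r q : ℝ) (Γ : Finset ℝ) (b : ℝ → ℂ) :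
    LI fun t => ‖(fd lam c r q t : ℂ) - ts Γ b t‖ ^ 2 := by
  have h1 : LI fun t => 2 * fd lam c r q t ^ 2 + 2 * (∑ γ ∈ Γ, ‖b γ‖) ^ 2 :=
    ((fd_sq_li D r q).const_mul 2).add (LI.of_cont continuous_const)
  refine h1.mono (((Complex.measurable_ofReal.comp (fd_meas D r q)).sub
    (ts_cont _ _).measurable).norm.pow_const 2).aestronglyMeasurable fun t => ?_
  rw [Real.norm_of_nonneg (by positivity)]
  have h2 : ‖(fd lam c r q t : ℂ) - ts Γ b t‖ ≤ |fd lam c r q t| + ∑ γ ∈ Γ, ‖b γ‖ := by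
    refine (norm_sub_le _ _).trans (add_le_add ?_ (ts_le _ _ _))
    rw [Complex.norm_real, Real.norm_eq_abs]
  refine (pow_le_pow_left₀ (norm_nonneg _) h2 2).trans ?_
  rw [← sq_abs (fd lam c r q t)]
  nlinarith [sq_nonneg (|fd lam c r q t| - ∑ γ ∈ Γ, ‖b γ‖)]

/-- **Almost periodicity in the sense of Stepanov.** -/
theorem cn_step (E : Cn lam c δ σ G₀ g k p κ η C) (hne : ∀ s : ℂ, 0 < s.re → G₀ s ≠ 0) {r q : ℝ}
    (hr : (p : ℝ) = k + r)
    (hE : IntegrableOn (fun T : ℝ => (Sh lam c T - r * Real.log T - q) ^ 2) (Ioi 1)) {ε : ℝ}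
    (hε : 0 < ε) : ∀ᶠ N : ℕ in atTop, ∀ᶠ T : ℝ in atTop,
      ∫ t in T..T + 1, ‖(fd lam c r q t : ℂ) - ts (Gz G₀ N) (bz G₀) t‖ ^ 2 ≤ ε := by
  have hq := q_real E hne hr
  have hcl := close E hne hr hE
  set q₁ : ℂ := deriv g 0 / g 0 with hq₁
  filter_upwards [step_ec E.D E.hη E.hG E.hgrow E.hexp hne E.hg E.hg0 E.near
        (r := r) (by linarith) hq₁ (ε := ε / 4) (by positivity)] with N hN
  have hm : Measurable fun u => ec lam c r q₁ u - ts (Gz G₀ N) (bz G₀) u :=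
    (ec_meas E.D).sub (ts_cont _ _).measurable
  have hcl2 : ∀ᶠ t : ℝ in atTop, (fd lam c r q t - e1 lam c r q₁.re t) ^ 2 ≤ ε / 4 := by
    have h1 := hcl.pow 2
    rw [zero_pow (by norm_num)] at h1
    filter_upwards [h1.eventually (gt_mem_nhds (by positivity : 0 < ε / 4))] with t ht
    exact ht.le
  obtain ⟨t₀, ht₀⟩ := eventually_atTop.1 hcl2
  filter_upwards [hN, eventually_ge_atTop t₀, eventually_ge_atTop 1] with T hT hT0 hT1
  have h1 := st_real hm (by positivity) hT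
  have i1 : IntervalIntegrable (fun u => ‖ec lam c r q₁ u - ts (Gz G₀ N) (bz G₀) u‖ ^ 2) volume
      T (T + 1) :=
    (ecs_li E.D r q₁ _ _ T hT1).symm.trans (ecs_li E.D r q₁ _ _ (T + 1) (by linarith))
  have i2 : IntervalIntegrable (fun t => ‖(fd lam c r q t : ℂ) - ts (Gz G₀ N) (bz G₀) t‖ ^ 2) volume
      T (T + 1) :=
    (fd_dist_li E.D r q _ _ T hT1).symm.trans (fd_dist_li E.D r q _ _ (T + 1) (by linarith))
  have h2 : ∫ t in T..T + 1, ‖(fd lam c r q t : ℂ) - ts (Gz G₀ N) (bz G₀) t‖ ^ 2 ≤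
      ∫ t in T..T + 1, (2 * ‖ec lam c r q₁ t - ts (Gz G₀ N) (bz G₀) t‖ ^ 2 + ε / 2) := by
    refine intervalIntegral.integral_mono_on (by linarith) i2
      ((i1.const_mul 2).add intervalIntegrable_const) fun t ht => ?_
    have h3 := ht₀ t (hT0.trans ht.1)
    have h4 : ‖(fd lam c r q t : ℂ) - ts (Gz G₀ N) (bz G₀) t‖ ≤
        ‖ec lam c r q₁ t - ts (Gz G₀ N) (bz G₀) t‖ + |fd lam c r q t - e1 lam c r q₁.re t| := by
      have e1 : (fd lam c r q t : ℂ) - ts (Gz G₀ N) (bz G₀) t =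
          (ec lam c r q₁ t - ts (Gz G₀ N) (bz G₀) t) +
            (((fd lam c r q t - e1 lam c r q₁.re t : ℝ)) : ℂ) := by
        rw [ec_re hq]
        push_cast
        ring
      rw [e1]
      refine (norm_add_le _ _).trans ?_
      rw [Complex.norm_real, Real.norm_eq_abs]
    refine (pow_le_pow_left₀ (norm_nonneg _) h4 2).trans ?_
    rw [← sq_abs (fd lam c r q t - e1 lam c r q₁.re t)] at h3
    nlinarith [sq_nonneg (‖ec lam c r q₁ t - ts (Gz G₀ N) (bz G₀) t‖ -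
      |fd lam c r q t - e1 lam c r q₁.re t|)]
  refine h2.trans ?_
  rw [intervalIntegral.integral_add (i1.const_mul 2) intervalIntegrable_const,
    intervalIntegral.integral_const_mul, intervalIntegral.integral_const, smul_eq_mul]
  have : T + 1 - T = 1 := by ring
  rw [this]
  linarith

/-- **Almost periodicity in the sense of Besicovitch.** -/
theorem cn_bes (E : Cn lam c δ σ G₀ g k p κ η C) (hne : ∀ s : ℂ, 0 < s.re → G₀ s ≠ 0) {r q : ℝ}
    (hr : (p : ℝ) = k + r)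
    (hE : IntegrableOn (fun T : ℝ => (Sh lam c T - r * Real.log T - q) ^ 2) (Ioi 1)) :
    Bes (fd lam c r q) (fun N : ℕ => Gz G₀ N) (bz G₀) := by
  obtain ⟨S₀, Hd⟩ := cn_gd E hne
  refine ⟨fd_meas E.D r q, fd_sq_li E.D r q, fun ε hε => ?_, ?_, ?_⟩
  · filter_upwards [cn_step E hne hr hE (ε := ε / 2) (by positivity)] with N hN
    exact st_mean (fun t => by positivity) (fd_dist_li E.D r q _ _) (by positivity)
      (by linarith) hN
  · intro N M hNM γ hγ
    have hγ' := (mem_Gz Hd).1 hγ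
    exact (mem_Gz Hd).2 ⟨hγ'.1.trans (by exact_mod_cast hNM), hγ'.2⟩
  · intro γ hγ
    obtain ⟨N, hN⟩ := exists_nat_ge |γ|
    refine ⟨N, (mem_Gz Hd).2 ⟨hN, ?_, ?_⟩⟩
    · rintro rfl
      exact hγ (by simp [bz])
    · rw [← mz_pos Hd]
      by_contra h0
      apply hγ
      have : mz G₀ γ = 0 := by omega
      unfold bz
      rw [this]
      simp

end Pool.Agent.Q195.AP
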