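import Pool.Agent.Q195.AP.Mean

/-! Integration by parts against `1/v²`, means over unit intervals. -/

set_option autoImplicit false

open MeasureTheory Filter Topology Set
open scoped ENNReal

namespace Pool.Agent.Q195.AP

/-- integration by parts -/
lemma ibp {g : ℝ → ℝ} (hg : LI g) {t u : ℝ} (ht : 1 ≤ t) (hu : t ≤ u) :
    ∫ v in t..u, g v * (1 / v ^ 2) = (∫ v in (1 : ℝ)..u, g v) / u ^ 2 -
      (∫ v in (1 : ℝ)..t, g v) / t ^ 2 + ∫ v in t..u, (∫ w in (1 : ℝ)..v, g w) * (2 / v ^ 3) := by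
  set A : ℝ → ℝ := fun x => ∫ w in (1 : ℝ)..x, g w with hA
  have h1u : (1 : ℝ) ≤ u := ht.trans hu
  have hi := hg u h1u
  have hsub : uIcc t u ⊆ uIcc 1 u := by
    rw [uIcc_of_le hu, uIcc_of_le h1u]
    exact Icc_subset_Icc_left ht
  have hAac : AbsolutelyContinuousOnInterval A t u :=
    (hi.absolutelyContinuousOnInterval_intervalIntegral (c := 1) (by simp)).mono hsub
  have hpos : ∀ v ∈ uIcc t u, 0 < v := by
    intro v hv
    rw [uIcc_of_le hu] at hv
    linarith [hv.1]
  have hfd : ∀ v : ℝ, 0 < v → HasDerivAt (fun v : ℝ => 1 / v ^ 2) (-(2 / v ^ 3)) v := by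
    intro v hv
    have h1 := (hasDerivAt_const v (1 : ℝ)).fun_div (hasDerivAt_pow 2 v) (by positivity)
    refine h1.congr_deriv ?_
    simp only [Nat.cast_ofNat, Nat.add_one_sub_one, pow_one]
    field_simp
    ring
  have hfac : AbsolutelyContinuousOnInterval (fun v : ℝ => 1 / v ^ 2) t u := by
    apply ContDiffOn.absolutelyContinuousOnInterval
    refine contDiffOn_const.div (contDiffOn_id.pow 2) fun v hv => ?_
    have := hpos v hv
    positivity
  have key := hfac.integral_mul_deriv_eq_deriv_mul hAac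
  have e1 : ∫ v in t..u, (1 / v ^ 2) * deriv A v = ∫ v in t..u, g v * (1 / v ^ 2) := by
    refine intervalIntegral.integral_congr_ae ?_
    filter_upwards [hi.ae_hasDerivAt_integral] with x hx hx1
    have hx2 : x ∈ uIcc 1 u := hsub (uIoc_subset_uIcc hx1)
    rw [(hx hx2 1 (by simp)).deriv, mul_comm]
  have e2 : ∫ v in t..u, deriv (fun v : ℝ => 1 / v ^ 2) v * A v =
      -∫ v in t..u, A v * (2 / v ^ 3) := by
    rw [← intervalIntegral.integral_neg]
    refine intervalIntegral.integral_congr fun v hv => ?_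
    rw [(hfd v (hpos v hv)).deriv]
    ring
  rw [e1, e2] at key
  rw [key]
  ring

lemma int_inv2 {t u : ℝ} (ht : 0 < t) (hu : t ≤ u) : ∫ v in t..u, 1 / v ^ 2 = 1 / t - 1 / u := by
  have hd : ∀ v ∈ uIcc t u, HasDerivAt (fun v : ℝ => -(1 / v)) (1 / v ^ 2) v := by
    intro v hv
    rw [uIcc_of_le hu] at hv
    have hu0 : v ≠ 0 := by linarith [hv.1]
    have h1 := (hasDerivAt_inv hu0).fun_neg
    simp only [one_div]
    refine h1.congr_deriv ?_
    ring
  have hc : ContinuousOn (fun v : ℝ => 1 / v ^ 2) (uIcc t u) := by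
    rw [uIcc_of_le hu]
    exact ContinuousOn.div continuousOn_const (by fun_prop) fun v hv => by
      have : 0 < v := by linarith [hv.1]
      positivity
  rw [intervalIntegral.integral_eq_sub_of_hasDerivAt hd hc.intervalIntegrable]
  ring

/-- small means give small tails -/
lemma tail_small {g : ℝ → ℝ} (hg : LI g) (h : Tendsto (mn g) atTop (𝓝 0)) {ε : ℝ} (hε : 0 < ε) :
    ∀ᶠ t : ℝ in atTop, ∀ u : ℝ, t ≤ u → |∫ v in t..u, g v * (1 / v ^ 2)| ≤ ε / t := by
  have h1 : ∀ᶠ v : ℝ in atTop, |mn g v| < ε / 4 := by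
    have := (Metric.tendsto_nhds.1 h) (ε / 4) (by linarith)
    filter_upwards [this] with v hv
    rwa [Real.dist_eq, sub_zero] at hv
  obtain ⟨v₀, hv₀⟩ := eventually_atTop.1 h1
  filter_upwards [eventually_ge_atTop v₀, eventually_ge_atTop 1] with t ht1 ht2 u hu
  have hA : ∀ v : ℝ, t ≤ v → |∫ w in (1 : ℝ)..v, g w| ≤ ε / 4 * v := by
    intro v hv
    have h2 := hv₀ v (ht1.trans hv)
    have hv0 : 0 < v := by linarith
    unfold mn at h2
    rw [abs_div, abs_of_pos hv0, div_lt_iff₀ hv0] at h2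
    exact h2.le
  have ht0 : 0 < t := by linarith
  have hu0 : 0 < u := by linarith
  rw [ibp hg ht2 hu]
  have e1 : |(∫ v in (1 : ℝ)..u, g v) / u ^ 2| ≤ ε / 4 / t := by
    rw [abs_div, abs_of_pos (by positivity : 0 < u ^ 2), div_le_div_iff₀ (by positivity) ht0]
    have := hA u hu
    nlinarith [mul_le_mul_of_nonneg_left hu (by positivity : 0 ≤ ε / 4 * u)]
  have e2 : |(∫ v in (1 : ℝ)..t, g v) / t ^ 2| ≤ ε / 4 / t := by
    rw [abs_div, abs_of_pos (by positivity : 0 < t ^ 2), div_le_div_iff₀ (by positivity) ht0]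
    have := hA t le_rfl
    nlinarith
  have e3 : |∫ v in t..u, (∫ w in (1 : ℝ)..v, g w) * (2 / v ^ 3)| ≤ 2 * (ε / 4) / t := by
    have i0 : IntervalIntegrable (fun v : ℝ => 2 * (ε / 4) * (1 / v ^ 2)) volume t u := by
      refine ContinuousOn.intervalIntegrable_of_Icc hu ?_
      refine continuousOn_const.mul (ContinuousOn.div continuousOn_const (by fun_prop)
        fun v hv => ?_)
      have : 0 < v := by linarith [hv.1]
      positivity
    have h3 := intervalIntegral.norm_integral_le_of_norm_le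
      (f := fun v => (∫ w in (1 : ℝ)..v, g w) * (2 / v ^ 3)) hu
      (Eventually.of_forall fun v hv => by
        have hv0 : 0 < v := by linarith [hv.1]
        show ‖(∫ w in (1 : ℝ)..v, g w) * (2 / v ^ 3)‖ ≤ 2 * (ε / 4) * (1 / v ^ 2)
        rw [norm_mul, Real.norm_eq_abs, Real.norm_of_nonneg (by positivity)]
        refine (mul_le_mul_of_nonneg_right (hA v hv.1.le) (by positivity)).trans (le_of_eq ?_)
        field_simp) i0
    rw [Real.norm_eq_abs] at h3
    refine h3.trans ?_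
    rw [intervalIntegral.integral_const_mul, int_inv2 ht0 hu]
    have : 0 ≤ 1 / u := by positivity
    calc 2 * (ε / 4) * (1 / t - 1 / u) ≤ 2 * (ε / 4) * (1 / t) := by gcongr; linarith
      _ = _ := by ring
  refine (abs_add_le _ _).trans ?_
  refine (add_le_add ((abs_sub _ _).trans (add_le_add e1 e2)) e3).trans (le_of_eq ?_)
  ring

/-- a bound in intervals of length one gives a bound for the mean -/
lemma st_mean {G : ℝ → ℝ} (hG0 : ∀ t, 0 ≤ G t) (hG : LI G) {ε ε' : ℝ} (hε0 : 0 ≤ ε)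
    (hε : ε < ε') (h : ∀ᶠ T : ℝ in atTop, ∫ t in T..T + 1, G t ≤ ε) :
    ∀ᶠ T : ℝ in atTop, mn G T ≤ ε' := by
  obtain ⟨T₁, hT₁⟩ := eventually_atTop.1 h
  set T₀ : ℝ := max T₁ 1 with hT₀
  have h1 : 1 ≤ T₀ := le_max_right _ _
  have hii : ∀ a b : ℝ, 1 ≤ a → a ≤ b → IntervalIntegrable G volume a b := fun a b ha hab =>
    (hG a ha).symm.trans (hG b (ha.trans hab))
  have hn : ∀ n : ℕ, ∫ t in T₀..T₀ + n, G t ≤ n * ε := by
    intro n
    induction n with
    | zero => simp
    | succ n ih =>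
      have hn0 : (0 : ℝ) ≤ n := Nat.cast_nonneg n
      have e1 : T₀ + ((n + 1 : ℕ) : ℝ) = T₀ + n + 1 := by push_cast; ring
      rw [e1, ← intervalIntegral.integral_add_adjacent_intervals (b := T₀ + n)
        (hii _ _ h1 (by linarith)) (hii _ _ (by linarith) (by linarith))]
      have e2 := hT₁ (T₀ + n) (by linarith [le_max_left T₁ 1])
      push_cast
      linarith
  set K : ℝ := ∫ t in (1 : ℝ)..T₀, G t with hK
  have hlim : Tendsto (fun T : ℝ => (K + ε) / T) atTop (𝓝 0) :=
    tendsto_const_nhds.div_atTop tendsto_id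
  filter_upwards [hlim.eventually (gt_mem_nhds (by linarith : 0 < ε' - ε)),
    eventually_ge_atTop T₀] with T hT hTT
  have hT0 : 0 < T := by linarith
  set n : ℕ := ⌈T - T₀⌉₊ with hnn
  have f1 : T - T₀ ≤ n := Nat.le_ceil _
  have f2 : (n : ℝ) < T - T₀ + 1 := Nat.ceil_lt_add_one (by linarith)
  have f3 : ∫ t in (1 : ℝ)..T, G t ≤ K + n * ε := by
    have g1 : ∫ t in (1 : ℝ)..T, G t ≤ ∫ t in (1 : ℝ)..T₀ + n, G t := by
      have g2 : ∫ t in (1 : ℝ)..T₀ + n, G t = (∫ t in (1 : ℝ)..T, G t) +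
          ∫ t in T..T₀ + n, G t :=
        (intervalIntegral.integral_add_adjacent_intervals (hii _ _ le_rfl (by linarith))
          (hii _ _ (by linarith) (by linarith))).symm
      have g3 : 0 ≤ ∫ t in T..T₀ + n, G t :=
        intervalIntegral.integral_nonneg (by linarith) fun t _ => hG0 t
      linarith
    have g4 : ∫ t in (1 : ℝ)..T₀ + n, G t = K + ∫ t in T₀..T₀ + n, G t :=
      (intervalIntegral.integral_add_adjacent_intervals (hii _ _ le_rfl h1)
        (hii _ _ h1 (by linarith))).symm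
    have := hn n
    linarith
  unfold mn
  rw [div_le_iff₀ hT0]
  have f4 : (n : ℝ) * ε ≤ (T + 1) * ε := mul_le_mul_of_nonneg_right (by linarith) hε0
  have f5 : K + ε < (ε' - ε) * T := by rwa [div_lt_iff₀ hT0] at hT
  nlinarith

end Pool.Agent.Q195.AP
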