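import Pool.Agent.Q195.CR.LocPW

/-! The kernel away from the poles: integration by parts. -/

set_option autoImplicit false

open MeasureTheory Filter Topology Set Complex
open scoped ENNReal

namespace Pool.Agent.Q195.AP

open Pool.Agent.Q195.CR

variable {H : ℂ → ℂ} {h T : ℝ}

lemma vv_deriv (y : ℝ) : HasDerivAt (fun y : ℝ => (vv y : ℂ)) ((1 - 2 * y : ℝ) : ℂ) y := by
  have h1 : HasDerivAt vv (1 - 2 * y) y := by
    unfold vv
    have h2 := (hasDerivAt_id' y).mul ((hasDerivAt_const y (1 : ℝ)).sub (hasDerivAt_id' y))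
    refine h2.congr_deriv ?_
    simp only [Pi.sub_apply]
    ring
  exact h1.ofReal_comp

/-- integration by parts -/
theorem av_ibp (hd : ∀ s : ℂ, 0 < s.re → DifferentiableAt ℂ H s) {s : ℂ} (hs : 0 < s.re)
    (hh : 0 < h) (hh1 : h ≤ 1) (hT : 0 < T) {B : ℝ}
    (hB : ∀ y ∈ Icc (0 : ℝ) 1, ‖H (s - I * (h * y))‖ ≤ B ∧ ‖deriv H (s - I * (h * y))‖ ≤ B) :
    ‖av H h T s‖ ≤ 2 * B / (h * T) := by
  have hB0 : 0 ≤ B := (norm_nonneg _).trans (hB 0 ⟨le_rfl, zero_le_one⟩).1
  have hω : 0 < h * T := mul_pos hh hT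
  have hU : IsOpen {s : ℂ | 0 < s.re} := isOpen_lt continuous_const Complex.continuous_re
  have hH : DifferentiableOn ℂ H {s : ℂ | 0 < s.re} := fun z hz => (hd z hz).differentiableWithinAt
  have hH' : DifferentiableOn ℂ (deriv H) {s : ℂ | 0 < s.re} := hH.deriv hU
  have hdc : Continuous fun y : ℝ => deriv H (s - I * (h * y)) := by
    rw [continuous_iff_continuousAt]
    intro y
    have h1 : ContinuousAt (deriv H) (s - I * (h * y)) :=
      (hH'.continuousOn).continuousAt (hU.mem_nhds (by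
        show 0 < (s - I * (h * y)).re
        rw [re_seg]
        exact hs))
    exact ContinuousAt.comp (f := fun y : ℝ => s - I * ((h : ℂ) * y)) h1 (by fun_prop)
  have hHc := seg_cont hd hs h
  have hv := vv_cont
  set c : ℂ := -(I * (h * T)) with hc
  have hc0 : c ≠ 0 := by
    rw [hc]
    refine neg_ne_zero.2 (mul_ne_zero I_ne_zero ?_)
    exact_mod_cast hω.ne'
  have hcn : ‖c‖ = h * T := by
    rw [hc, norm_neg, norm_mul, norm_I, one_mul, ← Complex.ofReal_mul, Complex.norm_real,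
      Real.norm_of_nonneg hω.le]
  -- the two functions
  set u : ℝ → ℂ := fun y => (vv y : ℂ) * H (s - I * (h * y)) with hu
  set u' : ℝ → ℂ := fun y => ((1 - 2 * y : ℝ) : ℂ) * H (s - I * (h * y)) +
    (vv y : ℂ) * (deriv H (s - I * (h * y)) * (-(I * h))) with hu'
  set w : ℝ → ℂ := fun y => exp (c * y) / c with hw
  have hud : ∀ y ∈ uIcc (0 : ℝ) 1, HasDerivAt u (u' y) y := by
    intro y _
    have h1 : HasDerivAt H (deriv H (s - I * (h * y))) (s - I * (h * y)) :=
      (hd _ (by rw [re_seg]; exact hs)).hasDerivAt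
    have h2 : HasDerivAt (fun y : ℝ => s - I * ((h : ℂ) * y)) (-(I * h)) y := by
      have h3 : HasDerivAt (fun y : ℝ => (y : ℂ)) 1 y := Complex.ofRealCLM.hasDerivAt
      refine (((h3.const_mul (h : ℂ)).const_mul I).const_sub s).congr_deriv ?_
      ring
    exact (vv_deriv y).mul (h1.comp y h2)
  have hwd : ∀ y ∈ uIcc (0 : ℝ) 1, HasDerivAt w (exp (c * y)) y := by
    intro y _
    have h3 : HasDerivAt (fun y : ℝ => (y : ℂ)) 1 y := Complex.ofRealCLM.hasDerivAt
    refine ((h3.const_mul c).cexp.div_const c).congr_deriv ?_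
    field_simp
  have hu'c : Continuous u' := by
    rw [hu']
    refine Continuous.add (Continuous.mul (by fun_prop) hHc) (Continuous.mul (by fun_prop)
      (Continuous.mul hdc continuous_const))
  have key := intervalIntegral.integral_mul_deriv_eq_deriv_mul hud hwd
    (hu'c.intervalIntegrable _ _) (Continuous.intervalIntegrable (by fun_prop) _ _)
  have hv1 : vv 1 = 0 := by unfold vv; norm_num
  have hv0 : vv 0 = 0 := by unfold vv; norm_num
  have e1 : av H h T s = ∫ y in (0 : ℝ)..1, u y * exp (c * y) := by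
    unfold av
    refine intervalIntegral.integral_congr fun y _ => ?_
    simp only [hu, hc]
    rw [show -(I * ((h : ℂ) * y * T)) = -(I * (h * T)) * y by ring]
    ring
  have e2 : u 1 * w 1 - u 0 * w 0 = 0 := by
    simp only [hu]
    rw [hv1, hv0]
    simp
  rw [e1, key, e2, zero_sub, norm_neg]
  have hb : ∀ y ∈ uIoc (0 : ℝ) 1, ‖u' y * w y‖ ≤ 2 * B / (h * T) := by
    intro y hy
    rw [uIoc_of_le zero_le_one] at hy
    obtain ⟨b1, b2⟩ := hB y ⟨hy.1.le, hy.2⟩
    have c1 : ‖w y‖ = 1 / (h * T) := by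
      simp only [hw]
      rw [norm_div, hcn]
      congr 1
      have : c * (y : ℂ) = I * ((-(h * T * y) : ℝ) : ℂ) := by
        rw [hc]
        push_cast
        ring
      rw [this, norm_exp_I]
    have c2 : ‖u' y‖ ≤ B + B := by
      simp only [hu']
      refine (norm_add_le _ _).trans (add_le_add ?_ ?_)
      · rw [norm_mul, Complex.norm_real, Real.norm_eq_abs]
        have : |1 - 2 * y| ≤ 1 := by
          rw [abs_le]
          constructor <;> linarith [hy.1, hy.2]
        calc |1 - 2 * y| * ‖H (s - I * (h * y))‖ ≤ 1 * B :=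
              mul_le_mul this b1 (norm_nonneg _) zero_le_one
          _ = B := one_mul _
      · have hhn : ‖(h : ℂ)‖ = h := by rw [Complex.norm_real, Real.norm_of_nonneg hh.le]
        rw [norm_mul, norm_mul, norm_neg, norm_mul, norm_I, one_mul, hhn]
        calc ‖(vv y : ℂ)‖ * (‖deriv H (s - I * (h * y))‖ * h) ≤ 1 * (B * 1) :=
              mul_le_mul (vv_norm hy.1.le hy.2)
                (mul_le_mul b2 hh1 hh.le hB0) (by positivity) zero_le_one
          _ = B := by ring
    rw [norm_mul, c1, mul_one_div]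
    exact div_le_div_of_nonneg_right (by linarith) hω.le
  refine (intervalIntegral.norm_integral_le_of_norm_le_const hb).trans (le_of_eq ?_)
  norm_num

/-- a pole -/
noncomputable def pol (γ : ℝ) (s : ℂ) : ℂ := (s - I * γ)⁻¹

lemma pol_ne (γ : ℝ) {s : ℂ} (hs : 0 < s.re) : s - I * γ ≠ 0 := by
  intro h0
  have := congrArg Complex.re h0
  simp at this
  linarith

lemma pol_deriv (γ : ℝ) {s : ℂ} (hs : 0 < s.re) :
    HasDerivAt (pol γ) (-1 / (s - I * γ) ^ 2) s :=
  ((hasDerivAt_id s).sub_const (I * (γ : ℂ))).fun_inv (pol_ne γ hs)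

lemma pol_diff (γ : ℝ) {s : ℂ} (hs : 0 < s.re) : DifferentiableAt ℂ (pol γ) s :=
  (pol_deriv γ hs).differentiableAt

/-- the constant -/
noncomputable def cf (h : ℝ) : ℝ := (2 + 2 / h) * (1 + 1 / (2 * h))

lemma cf_pos (hh : 0 < h) : 0 < cf h := by
  unfold cf
  positivity

/-- near and far poles -/
lemma av_near (γ : ℝ) {s : ℂ} (hs : 0 < s.re) (hh : 0 < h) (T : ℝ) :
    ‖av (pol γ) h T s‖ ≤ 12 * Real.pi / h := by
  have h1 := kern_pole (z := s - I * γ) (by simpa using hs) hh T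
  refine le_trans (le_of_eq ?_) h1
  unfold av pol
  congr 1
  refine intervalIntegral.integral_congr fun y _ => ?_
  rw [show s - I * ((h : ℂ) * y) - I * γ = s - I * γ - I * (h * y) by ring]

lemma av_far {γ δ t : ℝ} (hδ : 0 < δ) (hh : 0 < h) (hh1 : h ≤ 1) (hT : 0 < T)
    (hγ : 2 * h ≤ |t - γ|) :
    ‖av (pol γ) h T (δ + t * I)‖ ≤ 2 * (cf h / (1 + |t - γ|)) / (h * T) := by
  refine av_ibp (fun s hs => pol_diff γ hs) (by simpa using hδ) hh hh1 hT fun y hy => ?_
  set x : ℝ := |t - γ| with hx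
  have hx0 : 0 < x := by linarith
  set z : ℂ := (δ : ℂ) + t * I - I * (h * y) with hz
  have hzre : z.re = δ := by rw [hz]; simp
  have hzim : z.im = t - h * y := by rw [hz]; simp
  have hn : x / 2 ≤ ‖z - I * γ‖ := by
    have h1 := Complex.abs_im_le_norm (z - I * γ)
    have h2 : (z - I * γ).im = t - γ - h * y := by
      rw [Complex.sub_im, hzim]
      simp
      ring
    rw [h2] at h1
    have h3 : |t - γ| - |h * y| ≤ |t - γ - h * y| := abs_sub_abs_le_abs_sub _ _
    have h4 : |h * y| ≤ h := by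
      rw [abs_mul, abs_of_pos hh, abs_of_nonneg hy.1]
      nlinarith [hy.2]
    rw [← hx] at h3
    linarith
  have hn0 : 0 < ‖z - I * γ‖ := by linarith
  have hq : 2 / x ≤ 2 * (1 + 1 / (2 * h)) / (1 + x) := by
    rw [div_le_div_iff₀ hx0 (by linarith)]
    have h1 : 1 ≤ 1 / (2 * h) * x := by
      rw [one_div, inv_mul_eq_div, one_le_div (by linarith)]
      exact hγ
    nlinarith
  have h2h : 0 < 2 / h := by positivity
  have hk : 0 < 1 + 1 / (2 * h) := by positivity
  constructor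
  · unfold pol
    rw [norm_inv]
    have h1 : ‖z - I * γ‖⁻¹ ≤ 2 / x := by
      have := inv_anti₀ (half_pos hx0) hn
      rwa [inv_div] at this
    refine h1.trans (hq.trans ?_)
    refine div_le_div_of_nonneg_right ?_ (by linarith)
    unfold cf
    nlinarith [mul_pos h2h hk]
  · rw [(pol_deriv γ (by rw [hzre]; exact hδ)).deriv, norm_div, norm_neg, norm_one, norm_pow]
    have h1 : ‖z - I * γ‖⁻¹ ≤ 2 / x := by
      have := inv_anti₀ (half_pos hx0) hn
      rwa [inv_div] at this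
    have h3 : ‖z - I * γ‖⁻¹ ≤ 1 / h := by
      refine h1.trans ?_
      rw [div_le_div_iff₀ hx0 hh]
      linarith
    have h4 : 1 / ‖z - I * γ‖ ^ 2 = ‖z - I * γ‖⁻¹ * ‖z - I * γ‖⁻¹ := by
      rw [one_div, sq, mul_inv]
    rw [h4]
    have h5 : ‖z - I * γ‖⁻¹ * ‖z - I * γ‖⁻¹ ≤ (1 / h) * (2 / x) :=
      mul_le_mul h3 h1 (by positivity) (by positivity)
    refine h5.trans ?_
    calc 1 / h * (2 / x) ≤ 1 / h * (2 * (1 + 1 / (2 * h)) / (1 + x)) :=
          mul_le_mul_of_nonneg_left hq (by positivity)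
      _ = (2 / h) * (1 + 1 / (2 * h)) / (1 + x) := by ring
      _ ≤ cf h / (1 + x) := by
        refine div_le_div_of_nonneg_right ?_ (by linarith)
        unfold cf
        nlinarith

/-- the main part -/
noncomputable def mp (Γ : Finset ℝ) (a : ℝ → ℂ) (s : ℂ) : ℂ := ∑ γ ∈ Γ, a γ * pol γ s

lemma mp_diff (Γ : Finset ℝ) (a : ℝ → ℂ) {s : ℂ} (hs : 0 < s.re) :
    DifferentiableAt ℂ (mp Γ a) s := by
  unfold mp
  exact DifferentiableAt.fun_sum fun γ _ => (pol_diff γ hs).const_mul _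

lemma av_lin (hd : ∀ s : ℂ, 0 < s.re → DifferentiableAt ℂ H s) (Γ : Finset ℝ) (a : ℝ → ℂ) {s : ℂ}
    (hs : 0 < s.re) : av (fun s => H s - mp Γ a s) h T s =
      av H h T s - ∑ γ ∈ Γ, a γ * av (pol γ) h T s := by
  have hv := vv_cont
  have hHc := seg_cont hd hs h
  have hpc : ∀ γ : ℝ, Continuous fun y : ℝ => pol γ (s - I * (h * y)) := fun γ =>
    seg_cont (fun s hs => pol_diff γ hs) hs h
  have i1 : IntervalIntegrable (fun y : ℝ => (vv y : ℂ) * exp (-(I * (h * y * T))) *
      H (s - I * (h * y))) volume 0 1 :=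
    Continuous.intervalIntegrable (Continuous.mul (by fun_prop) hHc) _ _
  have i2 : ∀ γ : ℝ, IntervalIntegrable (fun y : ℝ => (vv y : ℂ) * exp (-(I * (h * y * T))) *
      pol γ (s - I * (h * y))) volume 0 1 := fun γ =>
    Continuous.intervalIntegrable (Continuous.mul (by fun_prop) (hpc γ)) _ _
  have i3 : IntervalIntegrable (fun y : ℝ => ∑ γ ∈ Γ, a γ * ((vv y : ℂ) *
      exp (-(I * (h * y * T))) * pol γ (s - I * (h * y)))) volume 0 1 := by
    refine Continuous.intervalIntegrable (continuous_finsetSum _ fun γ _ => ?_) _ _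
    exact continuous_const.mul (Continuous.mul (by fun_prop) (hpc γ))
  have e1 : ∀ y : ℝ, (vv y : ℂ) * exp (-(I * (h * y * T))) * (H (s - I * (h * y)) -
      mp Γ a (s - I * (h * y))) = (vv y : ℂ) * exp (-(I * (h * y * T))) * H (s - I * (h * y)) -
        ∑ γ ∈ Γ, a γ * ((vv y : ℂ) * exp (-(I * (h * y * T))) * pol γ (s - I * (h * y))) := by
    intro y
    unfold mp
    rw [mul_sub, Finset.mul_sum]
    congr 1
    refine Finset.sum_congr rfl fun γ _ => ?_
    ring
  unfold av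
  simp only [e1]
  rw [intervalIntegral.integral_sub i1 i3, intervalIntegral.integral_finsetSum
    (fun γ _ => (i2 γ).const_mul _)]
  congr 1
  refine Finset.sum_congr rfl fun γ _ => ?_
  rw [intervalIntegral.integral_const_mul]

/-- **The bound far from the real axis.** -/
theorem av_tail (hd : ∀ s : ℂ, 0 < s.re → DifferentiableAt ℂ H s) {δ t : ℝ} (hδ : 0 < δ)
    (hh : 0 < h) (hh1 : h ≤ 1) (hT : 0 < T) {M : ℝ} {n : ℕ} {c z : Fin n → ℂ}
    (hz : ∀ i, (z i).re ≤ 0) (hc : ∑ i, ‖c i‖ ≤ M)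
    (hb : ∀ y ∈ Icc (0 : ℝ) 1, ‖H (δ + t * I - I * (h * y)) -
      ∑ i, c i * (δ + t * I - I * (h * y) - z i)⁻¹‖ ≤ M) {Γ : Finset ℝ} {a : ℝ → ℂ}
    (hnear : ∑ γ ∈ Γ with |t - γ| < 2 * h, ‖a γ‖ ≤ M) :
    ‖av (fun s => H s - mp Γ a s) h T (δ + t * I)‖ ≤ 2 * (12 * Real.pi / h + 1) * M +
      (2 * cf h * (∑ γ ∈ Γ, ‖a γ‖ * (1 + |γ|)) / h) / (1 + |t|) / T := by
  have hs : 0 < ((δ : ℂ) + t * I).re := by simpa using hδ
  have hM0 : 0 ≤ M := (Finset.sum_nonneg fun i _ => norm_nonneg _).trans hc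
  have h12 : 0 ≤ 12 * Real.pi / h := by positivity
  have hcf := cf_pos hh
  rw [av_lin hd Γ a hs]
  refine (norm_sub_le _ _).trans ?_
  have e1 := av_pole (T := T) hd hs hh hz hc hb
  have e2 : ‖∑ γ ∈ Γ, a γ * av (pol γ) h T (δ + t * I)‖ ≤ 12 * Real.pi / h * M +
      (2 * cf h * (∑ γ ∈ Γ, ‖a γ‖ * (1 + |γ|)) / h) / (1 + |t|) / T := by
    refine (norm_sum_le _ _).trans ?_
    rw [← Finset.sum_filter_add_sum_filter_not Γ (fun γ => |t - γ| < 2 * h)]
    refine add_le_add ?_ ?_
    · have f1 : ∀ γ ∈ Γ.filter (fun γ => |t - γ| < 2 * h),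
          ‖a γ * av (pol γ) h T (δ + t * I)‖ ≤ ‖a γ‖ * (12 * Real.pi / h) := by
        intro γ _
        rw [norm_mul]
        exact mul_le_mul_of_nonneg_left (av_near γ hs hh T) (norm_nonneg _)
      refine (Finset.sum_le_sum f1).trans ?_
      rw [← Finset.sum_mul, mul_comm]
      exact mul_le_mul_of_nonneg_left hnear h12
    · have f1 : ∀ γ ∈ Γ.filter (fun γ => ¬|t - γ| < 2 * h),
          ‖a γ * av (pol γ) h T (δ + t * I)‖ ≤ (2 * cf h / h / (1 + |t|) / T) *
            (‖a γ‖ * (1 + |γ|)) := by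
        intro γ hγ
        rw [Finset.mem_filter] at hγ
        rw [norm_mul]
        have g1 := av_far (γ := γ) (t := t) hδ hh hh1 hT (not_lt.1 hγ.2)
        have g2 : 1 / (1 + |t - γ|) ≤ (1 + |γ|) / (1 + |t|) := by
          rw [div_le_div_iff₀ (by positivity) (by positivity)]
          have g3 : |t| ≤ |t - γ| + |γ| := by
            have := abs_add_le (t - γ) γ
            rwa [sub_add_cancel] at this
          nlinarith [abs_nonneg γ, abs_nonneg (t - γ)]
        have g4 : 2 * (cf h / (1 + |t - γ|)) / (h * T) =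
            (2 * cf h / h / T) * (1 / (1 + |t - γ|)) := by
          field_simp
        rw [g4] at g1
        have g5 : ‖av (pol γ) h T (δ + t * I)‖ ≤ (2 * cf h / h / T) * ((1 + |γ|) / (1 + |t|)) :=
          g1.trans (mul_le_mul_of_nonneg_left g2 (by positivity))
        refine (mul_le_mul_of_nonneg_left g5 (norm_nonneg (a γ))).trans (le_of_eq ?_)
        ring
      refine (Finset.sum_le_sum f1).trans ?_
      rw [← Finset.mul_sum]
      have f2 : ∑ γ ∈ Γ.filter (fun γ => ¬|t - γ| < 2 * h), ‖a γ‖ * (1 + |γ|) ≤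
          ∑ γ ∈ Γ, ‖a γ‖ * (1 + |γ|) :=
        Finset.sum_le_sum_of_subset_of_nonneg (Finset.filter_subset _ _)
          fun γ _ _ => by positivity
      refine (mul_le_mul_of_nonneg_left f2 (by positivity)).trans (le_of_eq ?_)
      ring
  linarith

end Pool.Agent.Q195.AP
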