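import Pool.Agent.Q195.AP.Fin

/-! The equivalences for a Dirichlet series. -/

set_option autoImplicit false

open MeasureTheory Filter Topology Set Complex
open scoped ENNReal
open Pool.Agent.TH942.LS (Dat P)
open Pool.Agent.TH942.SL

namespace Pool.Agent.Q195.AP

open Pool.Agent.Q195.CR
open Pool.Agent.TH270.MS

variable {lam c : ℕ → ℝ} {δ σ : ℝ} {G₀ g : ℂ → ℂ} {k p κ : ℕ} {η C : ℝ}

/-- bounded mean square gives square integrability of the deviation -/
lemma sq_of_mean (D : Dat lam c δ σ) {r q B : ℝ}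
    (h : ∀ᶠ T : ℝ in atTop, ∫ t in (1 : ℝ)..T, fd lam c r q t ^ 2 ≤ B * T) :
    IntegrableOn (fun T : ℝ => (Sh lam c T - r * Real.log T - q) ^ 2) (Ioi 1) := by
  have hli := fd_sq_li D r q
  have hB0 : 0 ≤ B := by
    obtain ⟨T, hT, hT1⟩ := (h.and (eventually_ge_atTop 1)).exists
    have h1 : 0 ≤ ∫ t in (1 : ℝ)..T, fd lam c r q t ^ 2 :=
      intervalIntegral.integral_nonneg hT1 fun t _ => sq_nonneg _
    by_contra hc
    have : B * T < 0 := mul_neg_of_neg_of_pos (not_le.1 hc) (by linarith)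
    linarith
  obtain ⟨T₁, hT₁⟩ := eventually_atTop.1 h
  set T₀ : ℝ := max T₁ 1 with hT₀
  have hT₀1 : 1 ≤ T₀ := le_max_right _ _
  have hm : Measurable fun T : ℝ => (Sh lam c T - r * Real.log T - q) ^ 2 :=
    (ferr_meas D r q).pow_const 2
  have heq : ∀ v : ℝ, 1 ≤ v → fd lam c r q v ^ 2 * (1 / v ^ 2) =
      (Sh lam c v - r * Real.log v - q) ^ 2 := by
    intro v hv
    have hv0 : 0 < v := by linarith
    unfold fd
    field_simp
  -- on bounded intervals
  have hloc : ∀ T : ℝ, IntegrableOn (fun T : ℝ => (Sh lam c T - r * Real.log T - q) ^ 2)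
      (Ioc 1 T) := by
    intro T
    rcases le_or_gt T 1 with hT | hT
    · rw [Ioc_eq_empty (by linarith)]
      exact integrableOn_empty
    · have h1 := (intervalIntegrable_iff_integrableOn_Ioc_of_le hT.le).1 (hli T hT.le)
      refine h1.mono' hm.aestronglyMeasurable ?_
      filter_upwards [ae_restrict_mem measurableSet_Ioc] with v hv
      rw [Real.norm_of_nonneg (sq_nonneg _), ← heq v hv.1.le]
      have e3 : 1 / v ^ 2 ≤ 1 := by
        rw [div_le_one (by nlinarith [hv.1])]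
        exact one_le_pow₀ hv.1.le
      exact mul_le_of_le_one_right (sq_nonneg _) e3
  refine integrableOn_Ioi_of_intervalIntegral_norm_bounded (l := atTop) (b := fun n : ℝ => n)
    ((∫ v in (1 : ℝ)..T₀, (Sh lam c v - r * Real.log v - q) ^ 2) + 3 * B) 1
    (fun n => hloc n) tendsto_id ?_
  filter_upwards [eventually_ge_atTop T₀] with u hu
  have hu1 : 1 ≤ u := hT₀1.trans hu
  have i0 : ∀ a b : ℝ, 1 ≤ a → a ≤ b → IntervalIntegrable
      (fun v : ℝ => (Sh lam c v - r * Real.log v - q) ^ 2) volume a b := by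
    intro a b ha hab
    rw [intervalIntegrable_iff_integrableOn_Ioc_of_le hab]
    exact (hloc b).mono_set (Ioc_subset_Ioc_left ha)
  have e0 : ∫ x in (1 : ℝ)..u, ‖(Sh lam c x - r * Real.log x - q) ^ 2‖ =
      ∫ x in (1 : ℝ)..u, (Sh lam c x - r * Real.log x - q) ^ 2 := by
    refine intervalIntegral.integral_congr fun v _ => ?_
    exact Real.norm_of_nonneg (sq_nonneg _)
  rw [e0, ← intervalIntegral.integral_add_adjacent_intervals (b := T₀) (i0 _ _ le_rfl hT₀1)
    (i0 _ _ hT₀1 hu)]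
  refine add_le_add le_rfl ?_
  have e1 : ∫ x in T₀..u, (Sh lam c x - r * Real.log x - q) ^ 2 =
      ∫ v in T₀..u, fd lam c r q v ^ 2 * (1 / v ^ 2) := by
    refine intervalIntegral.integral_congr fun v hv => ?_
    rw [uIcc_of_le hu] at hv
    exact (heq v (hT₀1.trans hv.1)).symm
  rw [e1, ibp hli hT₀1 hu]
  have hA : ∀ v : ℝ, T₀ ≤ v → ∫ w in (1 : ℝ)..v, fd lam c r q w ^ 2 ≤ B * v := fun v hv =>
    hT₁ v ((le_max_left _ _).trans hv)
  have hA0 : ∀ v : ℝ, 1 ≤ v → 0 ≤ ∫ w in (1 : ℝ)..v, fd lam c r q w ^ 2 := fun v hv =>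
    intervalIntegral.integral_nonneg hv fun t _ => sq_nonneg _
  have g1 : (∫ w in (1 : ℝ)..u, fd lam c r q w ^ 2) / u ^ 2 ≤ B := by
    rw [div_le_iff₀ (by positivity)]
    refine (hA u hu).trans ?_
    nlinarith [mul_le_mul_of_nonneg_left hu1 (by positivity : 0 ≤ B * u)]
  have g2 : 0 ≤ (∫ w in (1 : ℝ)..T₀, fd lam c r q w ^ 2) / T₀ ^ 2 :=
    div_nonneg (hA0 T₀ hT₀1) (by positivity)
  have g3 : ∫ v in T₀..u, (∫ w in (1 : ℝ)..v, fd lam c r q w ^ 2) * (2 / v ^ 3) ≤ 2 * B := by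
    have i1 : IntervalIntegrable (fun v : ℝ => 2 * B * (1 / v ^ 2)) volume T₀ u := by
      refine ContinuousOn.intervalIntegrable_of_Icc hu ?_
      refine continuousOn_const.mul (ContinuousOn.div continuousOn_const (by fun_prop)
        fun v hv => ?_)
      have : 0 < v := by linarith [hv.1]
      positivity
    have h3 := intervalIntegral.norm_integral_le_of_norm_le
      (f := fun v => (∫ w in (1 : ℝ)..v, fd lam c r q w ^ 2) * (2 / v ^ 3)) hu
      (Eventually.of_forall fun v hv => by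
        have hv0 : 0 < v := by linarith [hv.1]
        have hv1 : 1 ≤ v := by linarith [hv.1]
        show ‖(∫ w in (1 : ℝ)..v, fd lam c r q w ^ 2) * (2 / v ^ 3)‖ ≤ 2 * B * (1 / v ^ 2)
        rw [norm_mul, Real.norm_of_nonneg (hA0 v hv1), Real.norm_of_nonneg (by positivity)]
        refine (mul_le_mul_of_nonneg_right (hA v hv.1.le) (by positivity)).trans (le_of_eq ?_)
        field_simp) i1
    refine (le_abs_self _).trans ?_
    rw [Real.norm_eq_abs] at h3
    refine h3.trans ?_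
    rw [intervalIntegral.integral_const_mul, int_inv2 (by linarith) hu]
    have h4 : 1 / T₀ ≤ 1 := by
      rw [div_le_one (by linarith)]
      exact hT₀1
    have h5 : 0 ≤ 1 / u := by positivity
    calc 2 * B * (1 / T₀ - 1 / u) ≤ 2 * B * 1 := by gcongr; linarith
      _ = _ := by ring
  linarith

/-- the negative of an almost periodic function -/
lemma Bes.neg {f : ℝ → ℝ} {Γ : ℕ → Finset ℝ} {b : ℝ → ℂ} (H : Bes f Γ b) :
    Bes (fun t => -f t) Γ (fun γ => -b γ) where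
  meas := H.meas.neg
  sq := by
    have h := H.sq
    simpa only [neg_sq] using h
  app := fun ε hε => by
    filter_upwards [H.app ε hε] with N hN
    filter_upwards [hN] with T hT
    refine le_trans (le_of_eq ?_) hT
    congr 1
    ext t
    have e1 : ((-f t : ℝ) : ℂ) - ts (Γ N) (fun γ => -b γ) t = -((f t : ℂ) - ts (Γ N) b t) := by
      unfold ts
      simp only [neg_mul, Finset.sum_neg_distrib]
      push_cast
      ring
    rw [e1, norm_neg]
  mono := H.mono
  supp := fun γ hγ => H.supp γ (by simpa using hγ)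

/-- the tail -/
theorem Bes.tail {f : ℝ → ℝ} {Γ : ℕ → Finset ℝ} {b : ℝ → ℂ} (H : Bes f Γ b)
    (hI : IntegrableOn (fun t => (f t / t) ^ 2) (Ioi 1)) :
    Tendsto (fun T : ℝ => T * ∫ t in Ioi T, (f t / t) ^ 2) atTop
      (𝓝 (∑' γ : ℝ, ‖b γ‖ ^ 2)) := by
  obtain ⟨hs, hv⟩ := H.var
  set V : ℝ := ∑' γ : ℝ, ‖b γ‖ ^ 2 with hV
  have hli : LI fun t => f t ^ 2 - V := H.sq.sub (LI.of_cont continuous_const)
  have hm : Tendsto (mn fun t => f t ^ 2 - V) atTop (𝓝 0) := by
    have h1 : Tendsto (fun T : ℝ => mn (fun t => f t ^ 2) T - V * (1 - T⁻¹)) atTop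
        (𝓝 (V - V * (1 - 0))) :=
      hv.sub ((tendsto_const_nhds.sub tendsto_inv_atTop_zero).const_mul V)
    rw [sub_zero, mul_one, sub_self] at h1
    refine h1.congr' ?_
    filter_upwards [eventually_ge_atTop 1] with T hT
    rw [mn_sub H.sq (LI.of_cont continuous_const) hT]
    congr 1
    unfold mn
    rw [intervalIntegral.integral_const, smul_eq_mul]
    field_simp
  rw [Metric.tendsto_nhds]
  intro ε hε
  filter_upwards [tail_small hli hm (half_pos hε), eventually_ge_atTop 1] with T hT hT1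
  have hT0 : 0 < T := by linarith
  have hIT : IntegrableOn (fun t => (f t / t) ^ 2) (Ioi T) := hI.mono_set (Ioi_subset_Ioi hT1)
  have h1 : Tendsto (fun u : ℝ => ∫ t in T..u, (f t / t) ^ 2) atTop
      (𝓝 (∫ t in Ioi T, (f t / t) ^ 2)) :=
    intervalIntegral_tendsto_integral_Ioi T hIT tendsto_id
  have h2 : Tendsto (fun u : ℝ => |(∫ t in T..u, (f t / t) ^ 2) - V * (1 / T - 1 / u)|) atTop
      (𝓝 |(∫ t in Ioi T, (f t / t) ^ 2) - V * (1 / T - 0)|) := by
    have h3 : Tendsto (fun u : ℝ => 1 / u) atTop (𝓝 0) :=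
      tendsto_const_nhds.div_atTop tendsto_id
    exact (h1.sub ((tendsto_const_nhds.sub h3).const_mul V)).abs
  have h3 : |(∫ t in Ioi T, (f t / t) ^ 2) - V * (1 / T - 0)| ≤ ε / 2 / T := by
    refine le_of_tendsto h2 ?_
    filter_upwards [eventually_ge_atTop T] with u hu
    have h4 := hT u hu
    refine le_trans (le_of_eq ?_) h4
    congr 1
    rw [← int_inv2 hT0 hu, ← intervalIntegral.integral_const_mul, ← intervalIntegral.integral_sub]
    · refine intervalIntegral.integral_congr fun t ht => ?_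
      rw [uIcc_of_le hu] at ht
      have ht0 : 0 < t := by linarith [ht.1]
      field_simp
    · rw [intervalIntegrable_iff_integrableOn_Ioc_of_le hu]
      exact hIT.mono_set Ioc_subset_Ioi_self
    · refine ContinuousOn.intervalIntegrable_of_Icc hu ?_
      refine continuousOn_const.mul (ContinuousOn.div continuousOn_const (by fun_prop)
        fun v hv => ?_)
      have : 0 < v := by linarith [hv.1]
      positivity
  rw [Real.dist_eq]
  have h5 : T * (∫ t in Ioi T, (f t / t) ^ 2) - V =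
      T * ((∫ t in Ioi T, (f t / t) ^ 2) - V * (1 / T - 0)) := by
    field_simp
    ring
  rw [h5, abs_mul, abs_of_pos hT0]
  rw [le_div_iff₀ hT0] at h3
  linarith

/-- **The equivalences.** -/
theorem cn_equiv (E : Cn lam c δ σ G₀ g k p κ η C) (r q : ℝ) : List.TFAE [
    (∀ s : ℂ, 0 < s.re → G₀ s ≠ 0) ∧ (p : ℝ) = k + r ∧
      g 0 = Real.exp (r * Real.eulerMascheroniConstant - q),
    ∃ B : ℝ, ∀ᶠ T : ℝ in atTop, ∫ t in (1 : ℝ)..T, fd lam c r q t ^ 2 ≤ B * T,
    ∀ ε : ℝ, 0 < ε → ∀ᶠ N : ℕ in atTop, ∀ᶠ T : ℝ in atTop,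
      ∫ t in T..T + 1, ‖(fd lam c r q t : ℂ) - ts (Gz G₀ N) (bz G₀) t‖ ^ 2 ≤ ε,
    Summable (fun γ : ℝ => ‖bz G₀ γ‖ ^ 2) ∧
      Tendsto (mn fun t => fd lam c r q t ^ 2) atTop (𝓝 (∑' γ : ℝ, ‖bz G₀ γ‖ ^ 2)),
    ∃ ν : Measure ℝ, IsProbabilityMeasure ν ∧
      ∀ φ : ℝ → ℝ, Continuous φ → (∃ C : ℝ, ∀ x, |φ x| ≤ C * (1 + x ^ 2)) →
        Integrable φ ν ∧ Tendsto (mn fun t => φ (fd lam c r q t)) atTop (𝓝 (∫ x, φ x ∂ν))] := by
  have hli := fd_sq_li E.D r q
  have t := E.tfae r q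
  have hbd : ∀ L : ℝ, Tendsto (mn fun t => fd lam c r q t ^ 2) atTop (𝓝 L) →
      ∃ B : ℝ, ∀ᶠ T : ℝ in atTop, ∫ t in (1 : ℝ)..T, fd lam c r q t ^ 2 ≤ B * T := by
    intro L hL
    refine ⟨L + 1, ?_⟩
    filter_upwards [hL.eventually (gt_mem_nhds (by linarith : L < L + 1)),
      eventually_gt_atTop 0] with T hT hT0
    unfold mn at hT
    rw [div_lt_iff₀ hT0] at hT
    exact hT.le
  tfae_have 2 → 1 := fun ⟨B, hB⟩ => (t.out 0 1).2 (sq_of_mean E.D hB)
  tfae_have 1 → 3 := fun h ε hε => cn_step E h.1 h.2.1 ((t.out 0 1).1 h) hε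
  tfae_have 1 → 4 := fun h => (cn_bes E h.1 h.2.1 ((t.out 0 1).1 h)).var
  tfae_have 1 → 5 := fun h => (cn_bes E h.1 h.2.1 ((t.out 0 1).1 h)).law
  tfae_have 4 → 2 := fun h => hbd _ h.2
  tfae_have 5 → 2 := by
    rintro ⟨ν, -, h⟩
    exact hbd _ (h (fun x => x ^ 2) (by fun_prop) ⟨1, fun x => by
      rw [abs_of_nonneg (sq_nonneg x)]
      linarith⟩).2
  tfae_have 3 → 2 := by
    intro h
    obtain ⟨N, hN⟩ := (h 1 one_pos).exists
    set S : ℝ := ∑ γ ∈ Gz G₀ N, ‖bz G₀ γ‖ with hS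
    have h1 := st_mean (ε := 1) (ε' := 2) (fun t => by positivity)
      (fd_dist_li E.D r q (Gz G₀ N) (bz G₀)) zero_le_one (by norm_num) hN
    refine ⟨4 + 2 * S ^ 2, ?_⟩
    filter_upwards [h1, eventually_ge_atTop 1] with T hT hT1
    have i1 : LI fun t => 2 * ‖(fd lam c r q t : ℂ) - ts (Gz G₀ N) (bz G₀) t‖ ^ 2 + 2 * S ^ 2 :=
      ((fd_dist_li E.D r q _ _).const_mul 2).add (LI.of_cont continuous_const)
    have h2 : mn (fun t => fd lam c r q t ^ 2) T ≤ 4 + 2 * S ^ 2 := by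
      refine (mn_mono hli i1 hT1 fun t _ => ?_).trans ?_
      · have h2 : |fd lam c r q t| ≤ ‖(fd lam c r q t : ℂ) - ts (Gz G₀ N) (bz G₀) t‖ + S := by
          have e1 := norm_add_le ((fd lam c r q t : ℂ) - ts (Gz G₀ N) (bz G₀) t)
            (ts (Gz G₀ N) (bz G₀) t)
          rw [sub_add_cancel, Complex.norm_real, Real.norm_eq_abs] at e1
          exact e1.trans (add_le_add le_rfl (ts_le _ _ _))
        rw [← sq_abs]
        refine (pow_le_pow_left₀ (abs_nonneg _) h2 2).trans ?_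
        nlinarith [sq_nonneg (‖(fd lam c r q t : ℂ) - ts (Gz G₀ N) (bz G₀) t‖ - S)]
      · rw [mn_add ((fd_dist_li E.D r q _ _).const_mul 2) (LI.of_cont continuous_const) hT1, mn_mul]
        have := mn_const hT1 (c := 2 * S ^ 2) (by positivity)
        linarith
    unfold mn at h2
    rwa [div_le_iff₀ (by linarith)] at h2
  tfae_finish

end Pool.Agent.Q195.AP
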