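import Pool.Agent.Q195.AP.Main
import Pool.Agent.TH270.MS.Real

/-! The equivalences for the Euler products. -/

set_option autoImplicit false

open MeasureTheory Filter Topology Set Complex
open scoped ENNReal
open Pool.Agent.TH942.LS (Dat)
open Pool.Agent.TH942.SL
open Pool.Agent.TH942.ES
open Pool.Agent.TH270.RS (cS' dat' DD_neg)

namespace Pool.Agent.Q195.AP

open Pool.Agent.Q195.CR
open Pool.Agent.TH270.MS

variable {X : Type} {d : ℕ} {N : X → ℕ} {α : X → Fin d → ℂ} {Ψ G₀ : ℂ → ℂ} {κ : ℕ} {η C : ℝ}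

/-- the scaled deviation of the Euler product -/
noncomputable def sd (N : X → ℕ) (α : X → Fin d → ℂ) (ρ A t : ℝ) : ℝ :=
  t * DvR N α ρ A (Real.exp t)

lemma sd_eq {e : X × ℕ → ℕ} (E : Sys N α) (he : Function.Injective e) (ρ A t : ℝ) :
    sd N α ρ A t = -fd (lamS N e) (cS' N α e) ρ (ρ * Real.eulerMascheroniConstant - Real.log A) t := by
  unfold sd fd
  rw [dvR_sh E he ρ A (Real.exp_pos t), Real.log_exp]
  ring

/-- the zeros in a bounded part of the line are finite in number -/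
lemma zeros_fin' {lam c : ℕ → ℝ} {δ σ : ℝ} {g : ℂ → ℂ} {k p : ℕ} (E : Cn lam c δ σ G₀ g k p κ η C)
    (R : ℝ) : {γ : ℝ | |γ| ≤ R ∧ γ ≠ 0 ∧ G₀ (I * γ) = 0}.Finite := by
  have hη := E.hη
  have hσ := E.D.σ0
  have hU : IsOpen {s : ℂ | -η < s.re} := isOpen_lt continuous_const Complex.continuous_re
  have hUc : IsPreconnected {s : ℂ | -η < s.re} := (convex_halfSpace_re_gt (-η)).isPreconnected
  have hA : AnalyticOnNhd ℂ G₀ {s : ℂ | -η < s.re} :=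
    DifferentiableOn.analyticOnNhd (fun z hz => (E.hG z hz).differentiableWithinAt) hU
  have hx : ((σ + 1 : ℝ) : ℂ).re = σ + 1 := Complex.ofReal_re _
  have hord : ∀ γ : ℝ, analyticOrderAt G₀ (I * γ) ≠ ⊤ := by
    intro γ
    refine AnalyticOnNhd.analyticOrderAt_ne_top_of_isPreconnected hA hUc
      (x := ((σ + 1 : ℝ) : ℂ)) ?_ ?_ ?_
    · show -η < ((σ + 1 : ℝ) : ℂ).re
      rw [hx]
      linarith
    · show -η < (I * (γ : ℂ)).re
      rw [re_Ig]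
      linarith
    · have h1 : G₀ ((σ + 1 : ℝ) : ℂ) ≠ 0 := by
        rw [← E.hexp _ (by rw [hx]; linarith)]
        refine mul_ne_zero (pow_ne_zero _ ?_) (Complex.exp_ne_zero _)
        intro h0
        have := congrArg Complex.re h0
        rw [hx, Complex.zero_re] at this
        linarith
      have h2 : analyticOrderAt G₀ ((σ + 1 : ℝ) : ℂ) = 0 := by
        rw [(hA _ (by
          show -η < ((σ + 1 : ℝ) : ℂ).re
          rw [hx]
          linarith)).analyticOrderAt_eq_zero]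
        exact h1
      rw [h2]
      simp
  have hloc : ∀ γ : ℝ, ∀ᶠ x : ℝ in 𝓝[≠] γ, G₀ (I * x) ≠ 0 := by
    intro γ
    have hz : AnalyticAt ℂ G₀ (I * γ) := hA _ (by
      show -η < (I * (γ : ℂ)).re
      rw [re_Ig]
      linarith)
    have h1 : ∀ᶠ s in 𝓝[≠] (I * (γ : ℂ)), G₀ s ≠ 0 := by
      rcases hz.eventually_eq_zero_or_eventually_ne_zero with h | h
      · exact absurd (analyticOrderAt_eq_top.2 h) (hord γ)
      · exact h
    have h2 : Tendsto (fun x : ℝ => I * (x : ℂ)) (𝓝[≠] γ) (𝓝[≠] (I * γ)) := by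
      refine tendsto_nhdsWithin_iff.2 ⟨?_, ?_⟩
      · have : Continuous fun x : ℝ => I * (x : ℂ) := by fun_prop
        exact (this.tendsto γ).mono_left nhdsWithin_le_nhds
      · filter_upwards [self_mem_nhdsWithin] with x hx0 h0
        have h3 := mul_left_cancel₀ I_ne_zero h0
        exact hx0 (by exact_mod_cast h3)
    exact h2.eventually h1
  have h1 : (Icc (-R) R ∩ {γ : ℝ | G₀ (I * γ) = 0}).Finite := by
    refine (isCompact_Icc (a := -R) (b := R)).induction_on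
      (p := fun s => (s ∩ {γ : ℝ | G₀ (I * γ) = 0}).Finite) ?_ ?_ ?_ ?_
    · simp
    · intro s t hst ht
      exact ht.subset (inter_subset_inter_left _ hst)
    · intro s t hs ht
      rw [union_inter_distrib_right]
      exact hs.union ht
    · intro x _
      have h2 := hloc x
      rw [eventually_nhdsWithin_iff] at h2
      refine ⟨{y | y ∈ ({x}ᶜ : Set ℝ) → G₀ (I * y) ≠ 0}, mem_nhdsWithin_of_mem_nhds h2, ?_⟩
      refine (Set.finite_singleton x).subset fun y hy => ?_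
      by_contra hne
      exact hy.1 hne hy.2
  exact h1.subset fun γ hγ => ⟨abs_le.1 hγ.1, hγ.2.2⟩

lemma mz_zero {lam c : ℕ → ℝ} {δ σ : ℝ} {g : ℂ → ℂ} {k p : ℕ} (E : Cn lam c δ σ G₀ g k p κ η C)
    {γ : ℝ} (h : G₀ (I * γ) ≠ 0) : mz G₀ γ = 0 := by
  have hη := E.hη
  have hU : IsOpen {s : ℂ | -η < s.re} := isOpen_lt continuous_const Complex.continuous_re
  have hz : AnalyticAt ℂ G₀ (I * γ) :=
    (DifferentiableOn.analyticOnNhd (fun z hz => (E.hG z hz).differentiableWithinAt) hU) _ (by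
      show -η < (I * (γ : ℂ)).re
      rw [re_Ig]
      linarith)
  unfold mz analyticOrderNatAt
  rw [hz.analyticOrderAt_eq_zero.2 h]
  rfl

/-- the sum over the zeros -/
lemma fs_eq {lam c : ℕ → ℝ} {δ σ : ℝ} {g : ℂ → ℂ} {k p : ℕ} (E : Cn lam c δ σ G₀ g k p κ η C)
    (R : ℝ) (f : ℝ → ℂ) (hf : ∀ γ, mz G₀ γ = 0 ∨ γ = 0 → f γ = 0) :
    ∑ᶠ (γ : ℝ) (_ : |γ| ≤ R), f γ = ∑ γ ∈ Gz G₀ R, f γ := by
  have hfin := zeros_fin' E R
  have h1 : ∀ γ : ℝ, γ ∈ Gz G₀ R ↔ |γ| ≤ R ∧ γ ≠ 0 ∧ G₀ (I * γ) = 0 := by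
    intro γ
    unfold Gz
    rw [dif_pos hfin]
    simp
  have h2 : ∀ γ : ℝ, (∑ᶠ (_ : |γ| ≤ R), f γ) = if γ ∈ Gz G₀ R then f γ else 0 := by
    intro γ
    by_cases hγ : |γ| ≤ R
    · rw [finsum_eq_if, if_pos hγ]
      by_cases hm : γ ∈ Gz G₀ R
      · rw [if_pos hm]
      · rw [if_neg hm]
        apply hf
        by_contra hc
        push Not at hc
        apply hm
        rw [h1]
        refine ⟨hγ, hc.2, ?_⟩
        by_contra h0
        exact hc.1 (mz_zero E h0)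
    · rw [finsum_eq_if, if_neg hγ, if_neg]
      intro hm
      exact hγ ((h1 γ).1 hm).1
  simp only [h2]
  rw [finsum_eq_sum_of_support_subset (s := Gz G₀ R)]
  · refine Finset.sum_congr rfl fun γ hγ => ?_
    rw [if_pos hγ]
  · intro γ hγ
    rw [Function.mem_support] at hγ
    by_contra h0
    exact hγ (if_neg h0)

/-- **The equivalences for the Euler products.** -/
theorem mc_equiv (H : Mc N α Ψ G₀ 0 κ η C) (ρ : ℝ) {A : ℝ} (hA : 0 < A) : List.TFAE [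
    (∀ s : ℂ, 0 < s.re → Ψ s ≠ 0) ∧ ∃ m : ℕ, ρ = m ∧
      Tendsto (fun s => Ψ s / s ^ m) (𝓝[≠] 0) (𝓝 (A : ℂ)),
    ∃ B : ℝ, ∀ᶠ T : ℝ in atTop, ∫ t in (1 : ℝ)..T, sd N α ρ A t ^ 2 ≤ B * T,
    ∀ ε : ℝ, 0 < ε → ∀ᶠ R : ℕ in atTop, ∀ᶠ T : ℝ in atTop,
      ∫ t in T..T + 1, ‖(sd N α ρ A t : ℂ) -
        ∑ᶠ (γ : ℝ) (_ : |γ| ≤ R), -bz G₀ γ * exp (I * γ * t)‖ ^ 2 ≤ ε,
    Summable (fun γ : ℝ => ((mz G₀ γ : ℝ) / γ) ^ 2) ∧
      Tendsto (fun T : ℝ => (∫ t in (1 : ℝ)..T, sd N α ρ A t ^ 2) / T) atTop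
        (𝓝 (∑' γ : ℝ, ((mz G₀ γ : ℝ) / γ) ^ 2)),
    ∃ ν : Measure ℝ, IsProbabilityMeasure ν ∧
      ∀ φ : ℝ → ℝ, Continuous φ → (∃ C : ℝ, ∀ x, |φ x| ≤ C * (1 + x ^ 2)) →
        Integrable φ ν ∧ Tendsto (fun T : ℝ => (∫ t in (1 : ℝ)..T, φ (sd N α ρ A t)) / T) atTop
          (𝓝 (∫ x, φ x ∂ν))] ∧
  ((∃ B : ℝ, ∀ᶠ T : ℝ in atTop, ∫ t in (1 : ℝ)..T, sd N α ρ A t ^ 2 ≤ B * T) →
    (∀ τ : ℝ, Tendsto (fun T : ℝ => (∫ t in (1 : ℝ)..T, (sd N α ρ A t : ℂ) *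
      exp (-(I * τ * t))) / (T : ℂ)) atTop (𝓝 (-bz G₀ τ))) ∧
    IntegrableOn (fun t : ℝ => DvR N α ρ A (Real.exp t) ^ 2) (Ioi 1) ∧
    Tendsto (fun T : ℝ => T * ∫ t in Ioi T, DvR N α ρ A (Real.exp t) ^ 2) atTop
      (𝓝 (∑' γ : ℝ, ((mz G₀ γ : ℝ) / γ) ^ 2))) := by
  obtain ⟨e, g, p, he, Q⟩ := H.cn
  set q : ℝ := ρ * Real.eulerMascheroniConstant - Real.log A with hq
  have t := cn_equiv Q ρ q
  have t0 := H.tfae_lead_real ρ hA
  have t1 := Q.tfae ρ q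
  have hsd : ∀ t, sd N α ρ A t = -fd (lamS N e) (cS' N α e) ρ q t := sd_eq H.E he ρ A
  have hsq : ∀ t, sd N α ρ A t ^ 2 = fd (lamS N e) (cS' N α e) ρ q t ^ 2 := fun t => by
    rw [hsd, neg_sq]
  have hbn : ∀ γ : ℝ, ‖bz G₀ γ‖ ^ 2 = ((mz G₀ γ : ℝ) / γ) ^ 2 := fun γ => by
    rw [bz_norm, div_pow, div_pow, sq_abs]
  -- the first item
  have h01 : ((∀ s : ℂ, 0 < s.re → Ψ s ≠ 0) ∧ ∃ m : ℕ, ρ = m ∧
      Tendsto (fun s => Ψ s / s ^ m) (𝓝[≠] 0) (𝓝 (A : ℂ))) ↔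
      ((∀ s : ℂ, 0 < s.re → G₀ s ≠ 0) ∧ (p : ℝ) = (0 : ℕ) + ρ ∧
        g 0 = Real.exp (ρ * Real.eulerMascheroniConstant - q)) := by
    have e1 := (t0.out 0 1)
    rw [e1, dvR_sq H.E he, ← hq]
    exact t1.out 1 0
  have h12 : (∃ B : ℝ, ∀ᶠ T : ℝ in atTop, ∫ t in (1 : ℝ)..T, sd N α ρ A t ^ 2 ≤ B * T) ↔
      ∃ B : ℝ, ∀ᶠ T : ℝ in atTop, ∫ t in (1 : ℝ)..T,
        fd (lamS N e) (cS' N α e) ρ q t ^ 2 ≤ B * T := by
    simp only [hsq]
  have hts : ∀ (R : ℕ) (t : ℝ), ∑ᶠ (γ : ℝ) (_ : |γ| ≤ R), -bz G₀ γ * exp (I * γ * t) =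
      -ts (Gz G₀ R) (bz G₀) t := by
    intro R t
    rw [fs_eq Q]
    · unfold ts
      rw [← Finset.sum_neg_distrib]
      refine Finset.sum_congr rfl fun γ _ => ?_
      rw [neg_mul, mul_assoc]
    · rintro γ (h | h)
      · unfold bz
        rw [h]
        simp
      · unfold bz
        rw [h]
        simp
  have h23 : (∀ ε : ℝ, 0 < ε → ∀ᶠ R : ℕ in atTop, ∀ᶠ T : ℝ in atTop,
      ∫ t in T..T + 1, ‖(sd N α ρ A t : ℂ) -
        ∑ᶠ (γ : ℝ) (_ : |γ| ≤ R), -bz G₀ γ * exp (I * γ * t)‖ ^ 2 ≤ ε) ↔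
      ∀ ε : ℝ, 0 < ε → ∀ᶠ R : ℕ in atTop, ∀ᶠ T : ℝ in atTop,
      ∫ t in T..T + 1, ‖(fd (lamS N e) (cS' N α e) ρ q t : ℂ) -
        ts (Gz G₀ R) (bz G₀) t‖ ^ 2 ≤ ε := by
    have e1 : ∀ (R : ℕ) (t : ℝ), ‖(sd N α ρ A t : ℂ) -
        ∑ᶠ (γ : ℝ) (_ : |γ| ≤ R), -bz G₀ γ * exp (I * γ * t)‖ =
        ‖(fd (lamS N e) (cS' N α e) ρ q t : ℂ) - ts (Gz G₀ R) (bz G₀) t‖ := by
      intro R t
      rw [hts, hsd, ← norm_neg]
      congr 1
      push_cast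
      ring
    simp only [e1]
  have h34 : (Summable (fun γ : ℝ => ((mz G₀ γ : ℝ) / γ) ^ 2) ∧
      Tendsto (fun T : ℝ => (∫ t in (1 : ℝ)..T, sd N α ρ A t ^ 2) / T) atTop
        (𝓝 (∑' γ : ℝ, ((mz G₀ γ : ℝ) / γ) ^ 2))) ↔
      (Summable (fun γ : ℝ => ‖bz G₀ γ‖ ^ 2) ∧
      Tendsto (mn fun t => fd (lamS N e) (cS' N α e) ρ q t ^ 2) atTop
        (𝓝 (∑' γ : ℝ, ‖bz G₀ γ‖ ^ 2))) := by
    simp only [hsq, hbn]
    rfl
  have h45 : (∃ ν : Measure ℝ, IsProbabilityMeasure ν ∧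
      ∀ φ : ℝ → ℝ, Continuous φ → (∃ C : ℝ, ∀ x, |φ x| ≤ C * (1 + x ^ 2)) →
        Integrable φ ν ∧ Tendsto (fun T : ℝ => (∫ t in (1 : ℝ)..T, φ (sd N α ρ A t)) / T) atTop
          (𝓝 (∫ x, φ x ∂ν))) ↔
      ∃ ν : Measure ℝ, IsProbabilityMeasure ν ∧
      ∀ φ : ℝ → ℝ, Continuous φ → (∃ C : ℝ, ∀ x, |φ x| ≤ C * (1 + x ^ 2)) →
        Integrable φ ν ∧ Tendsto (mn fun t => φ (fd (lamS N e) (cS' N α e) ρ q t)) atTop
          (𝓝 (∫ x, φ x ∂ν)) := by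
    constructor
    · rintro ⟨ν, hν, h⟩
      refine ⟨ν.map (fun x => -x), Measure.isProbabilityMeasure_map measurable_neg.aemeasurable,
        fun φ hφ ⟨C, hC⟩ => ?_⟩
      obtain ⟨h1, h2⟩ := h (fun x => φ (-x)) (hφ.comp continuous_neg) ⟨C, fun x => by
        have := hC (-x)
        rwa [neg_sq] at this⟩
      refine ⟨?_, ?_⟩
      · rw [integrable_map_measure hφ.aestronglyMeasurable measurable_neg.aemeasurable]
        exact h1
      · rw [integral_map measurable_neg.aemeasurable hφ.aestronglyMeasurable]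
        refine h2.congr fun T => ?_
        unfold mn
        simp only [hsd, neg_neg]
    · rintro ⟨ν, hν, h⟩
      refine ⟨ν.map (fun x => -x), Measure.isProbabilityMeasure_map measurable_neg.aemeasurable,
        fun φ hφ ⟨C, hC⟩ => ?_⟩
      obtain ⟨h1, h2⟩ := h (fun x => φ (-x)) (hφ.comp continuous_neg) ⟨C, fun x => by
        have := hC (-x)
        rwa [neg_sq] at this⟩
      refine ⟨?_, ?_⟩
      · rw [integrable_map_measure hφ.aestronglyMeasurable measurable_neg.aemeasurable]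
        exact h1
      · rw [integral_map measurable_neg.aemeasurable hφ.aestronglyMeasurable]
        refine h2.congr fun T => ?_
        unfold mn
        simp only [hsd]
  refine ⟨?_, fun hB => ?_⟩
  · tfae_have 1 ↔ 2 := by
      rw [h01, h12]
      exact t.out 0 1
    tfae_have 2 ↔ 3 := by
      rw [h12, h23]
      exact t.out 1 2
    tfae_have 2 ↔ 4 := by
      rw [h12, h34]
      exact t.out 1 3
    tfae_have 2 ↔ 5 := by
      rw [h12, h45]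
      exact t.out 1 4
    tfae_finish
  · have h1 := h12.1 hB
    have h2 := (t.out 1 0).1 h1
    have h3 := (t1.out 0 1).1 h2
    have hb := (cn_bes Q h2.1 h2.2.1 h3).neg
    have hf : (fun t => -fd (lamS N e) (cS' N α e) ρ q t) = sd N α ρ A :=
      funext fun t => (hsd t).symm
    rw [hf] at hb
    have hdv : ∀ t : ℝ, 1 < t → (sd N α ρ A t / t) ^ 2 = DvR N α ρ A (Real.exp t) ^ 2 := by
      intro t ht
      have ht0 : t ≠ 0 := by linarith
      unfold sd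
      rw [mul_div_cancel_left₀ _ ht0]
    have hI : IntegrableOn (fun t : ℝ => DvR N α ρ A (Real.exp t) ^ 2) (Ioi 1) := by
      refine h3.congr_fun (fun t _ => ?_) measurableSet_Ioi
      simp only
      rw [dvR_sh H.E he ρ A (Real.exp_pos t), Real.log_exp, neg_sq]
    refine ⟨fun τ => ?_, hI, ?_⟩
    · refine (hb.coef τ).congr fun T => ?_
      unfold mnC
      simp only [mul_assoc]
    · have hI2 : IntegrableOn (fun t => (sd N α ρ A t / t) ^ 2) (Ioi 1) :=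
        hI.congr_fun (fun t ht => (hdv t ht).symm) measurableSet_Ioi
      have h5 := hb.tail hI2
      simp only [norm_neg, hbn] at h5
      refine h5.congr' ?_
      filter_upwards [eventually_ge_atTop 1] with T hT
      congr 1
      refine setIntegral_congr_fun measurableSet_Ioi fun t ht => ?_
      exact hdv t (lt_of_le_of_lt hT ht)

end Pool.Agent.Q195.AP
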