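import Pool.Agent.Q195.AP.Core

/-! Means of almost periodic functions. -/

set_option autoImplicit false

open MeasureTheory Filter Topology Set Complex
open scoped ENNReal

namespace Pool.Agent.Q195.AP

lemma nexp (x : ℝ) : ‖exp (I * (x : ℂ))‖ = 1 := by
  rw [mul_comm]
  exact Complex.norm_exp_ofReal_mul_I x

lemma nexp2 (γ u : ℝ) : ‖exp (I * ((γ : ℂ) * u))‖ = 1 := by
  rw [← Complex.ofReal_mul]
  exact nexp _

/-- the mean of a real function -/
noncomputable def mn (g : ℝ → ℝ) (T : ℝ) : ℝ := (∫ t in (1 : ℝ)..T, g t) / T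

/-- the mean of a complex function -/
noncomputable def mnC (g : ℝ → ℂ) (T : ℝ) : ℂ := (∫ t in (1 : ℝ)..T, g t) / T

/-- local integrability on `[1, ∞)` -/
def LI {E : Type*} [NormedAddCommGroup E] (g : ℝ → E) : Prop :=
  ∀ T : ℝ, 1 ≤ T → IntervalIntegrable g volume 1 T

lemma LI.add {E : Type*} [NormedAddCommGroup E] {f g : ℝ → E} (hf : LI f) (hg : LI g) :
    LI (fun t => f t + g t) := fun T hT => (hf T hT).add (hg T hT)

lemma LI.sub {E : Type*} [NormedAddCommGroup E] {f g : ℝ → E} (hf : LI f) (hg : LI g) :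
    LI (fun t => f t - g t) := fun T hT => (hf T hT).sub (hg T hT)

lemma LI.of_cont {E : Type*} [NormedAddCommGroup E] {f : ℝ → E} (hf : Continuous f) : LI f :=
  fun _ _ => hf.intervalIntegrable _ _

lemma LI.mono {E : Type*} [NormedAddCommGroup E] {f : ℝ → E} {g : ℝ → ℝ} (hg : LI g)
    (hm : AEStronglyMeasurable f volume) (h : ∀ t, ‖f t‖ ≤ g t) : LI f := by
  intro T hT
  refine (hg T hT).mono_fun hm.restrict ?_
  exact Eventually.of_forall fun t => (h t).trans (le_abs_self _)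

lemma LI.const_mul {f : ℝ → ℝ} (hf : LI f) (c : ℝ) : LI (fun t => c * f t) :=
  fun T hT => (hf T hT).const_mul c

lemma LI.cmul {f : ℝ → ℂ} (hf : LI f) (c : ℂ) : LI (fun t => c * f t) :=
  fun T hT => (hf T hT).const_mul c

lemma LI.norm {E : Type*} [NormedAddCommGroup E] {f : ℝ → E} (hf : LI f) :
    LI (fun t => ‖f t‖) := fun T hT => (hf T hT).norm

lemma mn_add {f g : ℝ → ℝ} (hf : LI f) (hg : LI g) {T : ℝ} (hT : 1 ≤ T) :
    mn (fun t => f t + g t) T = mn f T + mn g T := by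
  unfold mn
  rw [intervalIntegral.integral_add (hf T hT) (hg T hT), add_div]

lemma mn_sub {f g : ℝ → ℝ} (hf : LI f) (hg : LI g) {T : ℝ} (hT : 1 ≤ T) :
    mn (fun t => f t - g t) T = mn f T - mn g T := by
  unfold mn
  rw [intervalIntegral.integral_sub (hf T hT) (hg T hT), sub_div]

lemma mn_mul (c : ℝ) (f : ℝ → ℝ) (T : ℝ) : mn (fun t => c * f t) T = c * mn f T := by
  unfold mn
  rw [intervalIntegral.integral_const_mul, mul_div_assoc]

lemma mnC_add {f g : ℝ → ℂ} (hf : LI f) (hg : LI g) {T : ℝ} (hT : 1 ≤ T) :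
    mnC (fun t => f t + g t) T = mnC f T + mnC g T := by
  unfold mnC
  rw [intervalIntegral.integral_add (hf T hT) (hg T hT), add_div]

lemma mnC_sub {f g : ℝ → ℂ} (hf : LI f) (hg : LI g) {T : ℝ} (hT : 1 ≤ T) :
    mnC (fun t => f t - g t) T = mnC f T - mnC g T := by
  unfold mnC
  rw [intervalIntegral.integral_sub (hf T hT) (hg T hT), sub_div]

lemma mnC_mul (c : ℂ) (f : ℝ → ℂ) (T : ℝ) : mnC (fun t => c * f t) T = c * mnC f T := by
  unfold mnC
  rw [intervalIntegral.integral_const_mul, mul_div_assoc]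

lemma mn_mono {f g : ℝ → ℝ} (hf : LI f) (hg : LI g) {T : ℝ} (hT : 1 ≤ T)
    (h : ∀ t, 1 ≤ t → f t ≤ g t) : mn f T ≤ mn g T := by
  unfold mn
  refine div_le_div_of_nonneg_right ?_ (by linarith)
  exact intervalIntegral.integral_mono_on hT (hf T hT) (hg T hT) fun t ht => h t ht.1

lemma mn_nonneg {f : ℝ → ℝ} {T : ℝ} (hT : 1 ≤ T) (h : ∀ t, 0 ≤ f t) : 0 ≤ mn f T := by
  unfold mn
  exact div_nonneg (intervalIntegral.integral_nonneg hT fun t _ => h t) (by linarith)

lemma mn_const {T : ℝ} (hT : 1 ≤ T) {c : ℝ} (hc : 0 ≤ c) : mn (fun _ => c) T ≤ c := by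
  unfold mn
  rw [intervalIntegral.integral_const, smul_eq_mul, div_le_iff₀ (by linarith)]
  nlinarith

lemma abs_mn {f : ℝ → ℝ} {T : ℝ} (hT : 1 ≤ T) : |mn f T| ≤ mn (fun t => |f t|) T := by
  unfold mn
  rw [abs_div, abs_of_pos (by linarith : 0 < T)]
  refine div_le_div_of_nonneg_right ?_ (by linarith)
  exact intervalIntegral.abs_integral_le_integral_abs hT

lemma norm_mnC {f : ℝ → ℂ} {T : ℝ} (hT : 1 ≤ T) : ‖mnC f T‖ ≤ mn (fun t => ‖f t‖) T := by
  unfold mnC mn
  rw [norm_div, Complex.norm_real, Real.norm_of_nonneg (by linarith : 0 ≤ T)]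
  refine div_le_div_of_nonneg_right ?_ (by linarith)
  exact intervalIntegral.norm_integral_le_integral_norm hT

/-- the mean of a character -/
lemma mean_exp (ω : ℝ) : Tendsto (mnC fun t => exp (I * (ω * t))) atTop
    (𝓝 (if ω = 0 then 1 else 0)) := by
  split_ifs with h
  · subst h
    have h1 : Tendsto (fun T : ℝ => (1 : ℂ) - (T : ℂ)⁻¹) atTop (𝓝 (1 - 0)) := by
      refine tendsto_const_nhds.sub ?_
      have := (tendsto_inv_atTop_zero (𝕜 := ℝ)).ofReal
      simpa using this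
    rw [sub_zero] at h1
    refine h1.congr' ?_
    filter_upwards [eventually_gt_atTop 0] with T hT
    have hT0 : (T : ℂ) ≠ 0 := by exact_mod_cast hT.ne'
    unfold mnC
    simp only [Complex.ofReal_zero, zero_mul, mul_zero, exp_zero]
    rw [intervalIntegral.integral_const]
    rw [Complex.real_smul]
    push_cast
    field_simp
  · have hc : I * (ω : ℂ) ≠ 0 := mul_ne_zero I_ne_zero (by exact_mod_cast h)
    rw [tendsto_zero_iff_norm_tendsto_zero]
    have h1 : Tendsto (fun T : ℝ => (2 / ‖I * (ω : ℂ)‖) * T⁻¹) atTop (𝓝 0) := by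
      have := (tendsto_inv_atTop_zero (𝕜 := ℝ)).const_mul (2 / ‖I * (ω : ℂ)‖)
      rwa [mul_zero] at this
    refine squeeze_zero' (Eventually.of_forall fun T => norm_nonneg _) ?_ h1
    filter_upwards [eventually_gt_atTop 0] with T hT
    unfold mnC
    have e1 : ∫ t in (1 : ℝ)..T, exp (I * (ω * t)) = (exp (I * ω * T) - exp (I * ω * (1 : ℝ))) /
        (I * ω) := by
      rw [← integral_exp_mul_complex hc]
      refine intervalIntegral.integral_congr fun t _ => ?_
      simp only [mul_assoc]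
    rw [e1, norm_div, norm_div, Complex.norm_real, Real.norm_of_nonneg hT.le, div_eq_mul_inv]
    refine mul_le_mul_of_nonneg_right ?_ (by positivity)
    refine div_le_div_of_nonneg_right ?_ (norm_nonneg _)
    refine (norm_sub_le _ _).trans ?_
    rw [mul_assoc, mul_assoc, nexp2, nexp2]
    norm_num

/-- trigonometric sums -/
def TP (F : ℝ → ℂ) : Prop := ∃ (ι : Type) (_ : Fintype ι) (ω : ι → ℝ) (c : ι → ℂ),
  ∀ t, F t = ∑ i, c i * exp (I * (ω i * t))

lemma TP.const (c : ℂ) : TP fun _ => c :=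
  ⟨Unit, inferInstance, fun _ => 0, fun _ => c, fun t => by simp⟩

lemma TP.add {F G : ℝ → ℂ} (hF : TP F) (hG : TP G) : TP fun t => F t + G t := by
  obtain ⟨ι, _, ω, c, h1⟩ := hF
  obtain ⟨κ, _, ω', c', h2⟩ := hG
  exact ⟨ι ⊕ κ, inferInstance, Sum.elim ω ω', Sum.elim c c', fun t => by
    simp only [Fintype.sum_sum_type, h1, h2]
    rfl⟩

lemma TP.mul {F G : ℝ → ℂ} (hF : TP F) (hG : TP G) : TP fun t => F t * G t := by
  obtain ⟨ι, _, ω, c, h1⟩ := hF
  obtain ⟨κ, _, ω', c', h2⟩ := hG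
  refine ⟨ι × κ, inferInstance, fun i => ω i.1 + ω' i.2, fun i => c i.1 * c' i.2, fun t => ?_⟩
  simp only [Fintype.sum_prod_type, h1, h2, Finset.sum_mul_sum]
  refine Finset.sum_congr rfl fun i _ => Finset.sum_congr rfl fun j _ => ?_
  have e1 : exp (I * (((ω i + ω' j : ℝ) : ℂ) * t)) = exp (I * (ω i * t)) * exp (I * (ω' j * t)) := by
    rw [← exp_add]
    congr 1
    push_cast
    ring
  rw [e1]
  ring

lemma TP.pow {F : ℝ → ℂ} (hF : TP F) (n : ℕ) : TP fun t => F t ^ n := by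
  induction n with
  | zero => simpa using TP.const 1
  | succ n ih =>
    simp only [pow_succ]
    exact ih.mul hF

lemma TP.sum {ι : Type*} (s : Finset ι) {F : ι → ℝ → ℂ} (hF : ∀ i ∈ s, TP (F i)) :
    TP fun t => ∑ i ∈ s, F i t := by
  classical
  induction s using Finset.induction_on with
  | empty => simpa using TP.const 0
  | insert a s ha ih =>
    simp only [Finset.sum_insert ha]
    exact (hF a (Finset.mem_insert_self a s)).add
      (ih fun i hi => hF i (Finset.mem_insert_of_mem hi))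

lemma TP.ts (Γ : Finset ℝ) (b : ℝ → ℂ) : TP (ts Γ b) := by
  refine TP.sum Γ fun γ _ => ⟨Unit, inferInstance, fun _ => γ, fun _ => b γ, fun t => by simp⟩

lemma TP.conj {F : ℝ → ℂ} (hF : TP F) : TP fun t => (starRingEnd ℂ) (F t) := by
  obtain ⟨ι, _, ω, c, h1⟩ := hF
  refine ⟨ι, inferInstance, fun i => -ω i, fun i => (starRingEnd ℂ) (c i), fun t => ?_⟩
  simp only
  rw [h1, map_sum]
  refine Finset.sum_congr rfl fun i _ => ?_
  rw [map_mul, ← Complex.exp_conj]
  congr 2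
  simp

lemma TP.re {F : ℝ → ℂ} (hF : TP F) : TP fun t => ((F t).re : ℂ) := by
  have h1 := ((hF.add hF.conj).mul (TP.const (1 / 2)))
  obtain ⟨ι, i1, ω, c, h2⟩ := h1
  refine ⟨ι, i1, ω, c, fun t => ?_⟩
  rw [← h2]
  simp only
  rw [Complex.add_conj]
  push_cast
  ring

lemma TP.cont {F : ℝ → ℂ} (hF : TP F) : Continuous F := by
  obtain ⟨ι, _, ω, c, h1⟩ := hF
  have : F = fun t : ℝ => ∑ i, c i * exp (I * (ω i * t)) := funext h1
  rw [this]
  fun_prop

lemma TP.mean {F : ℝ → ℂ} (hF : TP F) : ∃ L : ℂ, Tendsto (mnC F) atTop (𝓝 L) := by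
  obtain ⟨ι, _, ω, c, h1⟩ := hF
  refine ⟨∑ i, c i * (if ω i = 0 then 1 else 0), ?_⟩
  have h2 : ∀ T : ℝ, mnC F T = ∑ i, c i * mnC (fun t => exp (I * (ω i * t))) T := by
    intro T
    have : F = fun t : ℝ => ∑ i, c i * exp (I * (ω i * t)) := funext h1
    rw [this]
    unfold mnC
    rw [intervalIntegral.integral_finsetSum, Finset.sum_div]
    · refine Finset.sum_congr rfl fun i _ => ?_
      rw [intervalIntegral.integral_const_mul, mul_div_assoc]
    · intro i _
      exact Continuous.intervalIntegrable (by fun_prop) _ _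
  simp only [funext h2]
  exact tendsto_finsetSum _ fun i _ => (mean_exp (ω i)).const_mul _

/-- the Bohr coefficient of a trigonometric sum -/
lemma ts_coef (Γ : Finset ℝ) (b : ℝ → ℂ) (τ : ℝ) :
    Tendsto (mnC fun t => ts Γ b t * exp (-(I * (τ * t)))) atTop
      (𝓝 (if τ ∈ Γ then b τ else 0)) := by
  have h2 : ∀ T : ℝ, mnC (fun t => ts Γ b t * exp (-(I * (τ * t)))) T =
      ∑ γ ∈ Γ, b γ * mnC (fun t => exp (I * (((γ - τ : ℝ) : ℂ) * t))) T := by
    intro T
    unfold mnC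
    have e1 : ∀ t : ℝ, ts Γ b t * exp (-(I * (τ * t))) =
        ∑ γ ∈ Γ, b γ * exp (I * (((γ - τ : ℝ) : ℂ) * t)) := by
      intro t
      unfold ts
      rw [Finset.sum_mul]
      refine Finset.sum_congr rfl fun γ _ => ?_
      rw [mul_assoc, ← exp_add]
      congr 2
      push_cast
      ring
    simp only [e1]
    rw [intervalIntegral.integral_finsetSum, Finset.sum_div]
    · refine Finset.sum_congr rfl fun i _ => ?_
      rw [intervalIntegral.integral_const_mul, mul_div_assoc]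
    · intro i _
      exact Continuous.intervalIntegrable (by fun_prop) _ _
  rw [funext h2]
  have h3 : (if τ ∈ Γ then b τ else 0) = ∑ γ ∈ Γ, b γ * (if γ - τ = 0 then 1 else 0) := by
    simp only [sub_eq_zero, mul_ite, mul_one, mul_zero]
    rw [Finset.sum_ite_eq' Γ τ b]
  rw [h3]
  exact tendsto_finsetSum _ fun γ _ => (mean_exp (γ - τ)).const_mul _

/-- the mean square of a trigonometric sum -/
lemma ts_sq (Γ : Finset ℝ) (b : ℝ → ℂ) :
    Tendsto (mn fun t => ‖ts Γ b t‖ ^ 2) atTop (𝓝 (∑ γ ∈ Γ, ‖b γ‖ ^ 2)) := by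
  have hcont := ts_cont Γ b
  have h1 : ∀ T : ℝ, mnC (fun t => ((‖ts Γ b t‖ ^ 2 : ℝ) : ℂ)) T =
      ∑ γ ∈ Γ, (starRingEnd ℂ) (b γ) * mnC (fun t => ts Γ b t * exp (-(I * (γ * t)))) T := by
    intro T
    unfold mnC
    have e1 : ∀ t : ℝ, ((‖ts Γ b t‖ ^ 2 : ℝ) : ℂ) =
        ∑ γ ∈ Γ, (starRingEnd ℂ) (b γ) * (ts Γ b t * exp (-(I * (γ * t)))) := by
      intro t
      have e2 : ((‖ts Γ b t‖ ^ 2 : ℝ) : ℂ) = ts Γ b t * (starRingEnd ℂ) (ts Γ b t) := by
        rw [Complex.mul_conj, Complex.normSq_eq_norm_sq]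
      rw [e2]
      conv_lhs => rw [show (starRingEnd ℂ) (ts Γ b t) = ∑ γ ∈ Γ, (starRingEnd ℂ) (b γ) *
        exp (-(I * (γ * t))) by
          unfold ts
          rw [map_sum]
          refine Finset.sum_congr rfl fun γ _ => ?_
          rw [map_mul, ← Complex.exp_conj]
          congr 2
          simp]
      rw [Finset.mul_sum]
      refine Finset.sum_congr rfl fun γ _ => ?_
      ring
    simp only [e1]
    rw [intervalIntegral.integral_finsetSum, Finset.sum_div]
    · refine Finset.sum_congr rfl fun i _ => ?_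
      rw [intervalIntegral.integral_const_mul, mul_div_assoc]
    · intro i _
      exact Continuous.intervalIntegrable (by fun_prop) _ _
  have h2 : Tendsto (mnC fun t => ((‖ts Γ b t‖ ^ 2 : ℝ) : ℂ)) atTop
      (𝓝 (∑ γ ∈ Γ, (starRingEnd ℂ) (b γ) * b γ)) := by
    rw [funext h1]
    refine tendsto_finsetSum _ fun γ hγ => ?_
    have := ts_coef Γ b γ
    rw [if_pos hγ] at this
    exact this.const_mul _
  have h3 := (Complex.continuous_re.tendsto _).comp h2
  have h4 : (∑ γ ∈ Γ, (starRingEnd ℂ) (b γ) * b γ).re = ∑ γ ∈ Γ, ‖b γ‖ ^ 2 := by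
    rw [Complex.re_sum]
    refine Finset.sum_congr rfl fun γ _ => ?_
    rw [Complex.conj_mul', ← Complex.ofReal_pow, Complex.ofReal_re]
  rw [h4] at h3
  refine h3.congr fun T => ?_
  simp only [Function.comp]
  unfold mnC mn
  rw [intervalIntegral.integral_ofReal, ← Complex.ofReal_div, Complex.ofReal_re]

/-- exchange of limits -/
lemma mo {E : Type*} [NormedAddCommGroup E] [CompleteSpace E] {A : ℝ → E} {AN : ℕ → ℝ → E}
    {l : ℕ → E} (h : ∀ ε : ℝ, 0 < ε → ∀ᶠ N in atTop, ∀ᶠ T in atTop, ‖A T - AN N T‖ ≤ ε)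
    (hl : ∀ N, Tendsto (AN N) atTop (𝓝 (l N))) :
    ∃ L, Tendsto A atTop (𝓝 L) ∧ Tendsto l atTop (𝓝 L) := by
  have hc : ∀ ε : ℝ, 0 < ε → ∃ N₀, ∀ N ≥ N₀, ∀ M ≥ N₀, ‖l N - l M‖ ≤ 2 * ε := by
    intro ε hε
    obtain ⟨N₀, hN₀⟩ := eventually_atTop.1 (h ε hε)
    refine ⟨N₀, fun N hN M hM => ?_⟩
    refine le_of_tendsto ((hl N).sub (hl M)).norm ?_
    filter_upwards [hN₀ N hN, hN₀ M hM] with T h1 h2
    have e1 : AN N T - AN M T = (A T - AN M T) - (A T - AN N T) := by abel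
    rw [e1]
    exact (norm_sub_le _ _).trans (by linarith)
  have hcs : CauchySeq l := by
    rw [Metric.cauchySeq_iff]
    intro ε hε
    obtain ⟨N₀, h1⟩ := hc (ε / 3) (by linarith)
    refine ⟨N₀, fun N hN M hM => ?_⟩
    rw [dist_eq_norm]
    have := h1 N hN M hM
    linarith
  obtain ⟨L, hL⟩ := cauchySeq_tendsto_of_complete hcs
  refine ⟨L, ?_, hL⟩
  rw [Metric.tendsto_atTop']
  intro ε hε
  have h1 := h (ε / 4) (by linarith)
  have h2 : ∀ᶠ N in atTop, ‖l N - L‖ < ε / 4 := by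
    have := (Metric.tendsto_nhds.1 hL) (ε / 4) (by linarith)
    filter_upwards [this] with N hN
    rwa [dist_eq_norm] at hN
  obtain ⟨N, h3, h4⟩ := (h1.and h2).exists
  have h5 : ∀ᶠ T in atTop, ‖AN N T - l N‖ < ε / 4 := by
    have := (Metric.tendsto_nhds.1 (hl N)) (ε / 4) (by linarith)
    filter_upwards [this] with T hT
    rwa [dist_eq_norm] at hT
  obtain ⟨T₀, hT₀⟩ := eventually_atTop.1 (h3.and h5)
  refine ⟨T₀, fun T hT => ?_⟩
  obtain ⟨e1, e2⟩ := hT₀ T hT.le
  rw [dist_eq_norm]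
  have e3 : A T - L = (A T - AN N T) + (AN N T - l N) + (l N - L) := by abel
  rw [e3]
  refine (norm_add_le _ _).trans_lt ?_
  have := norm_add_le (A T - AN N T) (AN N T - l N)
  linarith

end Pool.Agent.Q195.AP
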