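import Pool.Agent.Q195.AP.Core
import Pool.Agent.Q195.CR.Struct3

/-! The transform near the imaginary axis: zeros, multiplicities, the regular part. -/

set_option autoImplicit false

open MeasureTheory Filter Topology Set Complex
open scoped ENNReal

namespace Pool.Agent.Q195.AP

open Pool.Agent.Q195.CR

variable {G₀ : ℂ → ℂ} {η a C B : ℝ} {κ : ℕ}

lemma gd_ana (H : Gd G₀ η a C B κ) : AnalyticOnNhd ℂ G₀ {s : ℂ | -η < s.re} :=
  DifferentiableOn.analyticOnNhd (fun z hz => (H.hG z hz).differentiableWithinAt)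
    (isOpen_lt continuous_const Complex.continuous_re)

lemma gd_ana_at (H : Gd G₀ η a C B κ) {z : ℂ} (hz : -η < z.re) : AnalyticAt ℂ G₀ z :=
  gd_ana H z hz

lemma gd_ord (H : Gd G₀ η a C B κ) {z : ℂ} (hz : -η < z.re) : analyticOrderAt G₀ z ≠ ⊤ := by
  have hη := H.hη
  have hU : IsPreconnected {s : ℂ | -η < s.re} :=
    (convex_halfSpace_re_gt (-η)).isPreconnected
  refine AnalyticOnNhd.analyticOrderAt_ne_top_of_isPreconnected (gd_ana H) hU (x := 1)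
    (by simp; linarith) hz ?_
  have h1 : G₀ 1 ≠ 0 := H.hne 1 (by simp)
  have h2 : analyticOrderAt G₀ 1 = 0 := by
    rw [(gd_ana_at H (z := 1) (by simp; linarith)).analyticOrderAt_eq_zero]
    exact h1
  rw [h2]
  simp

/-- the local factorization -/
lemma gd_loc (H : Gd G₀ η a C B κ) {z : ℂ} (hz : -η < z.re) : ∃ g : ℂ → ℂ, AnalyticAt ℂ g z ∧
    g z ≠ 0 ∧ (∀ᶠ s in 𝓝 z, g s ≠ 0 ∧ DifferentiableAt ℂ g s) ∧
    ∀ᶠ s in 𝓝[≠] z, deriv G₀ s / G₀ s = analyticOrderNatAt G₀ z / (s - z) + deriv g s / g s := by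
  obtain ⟨g, h1, h2, h3⟩ := (gd_ana_at H hz).analyticOrderAt_ne_top.1 (gd_ord H hz)
  set n : ℕ := analyticOrderNatAt G₀ z with hn
  have h4 : ∀ᶠ s in 𝓝 z, g s ≠ 0 := h1.continuousAt.eventually_ne h2
  have h5 : ∀ᶠ s in 𝓝 z, DifferentiableAt ℂ g s :=
    h1.eventually_analyticAt.mono fun s hs => hs.differentiableAt
  refine ⟨g, h1, h2, h4.and h5, ?_⟩
  have h6 := h3.eventuallyEq_nhds
  have h7 : ∀ᶠ s in 𝓝[≠] z, g s ≠ 0 ∧ DifferentiableAt ℂ g s ∧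
      G₀ =ᶠ[𝓝 s] (fun w => (w - z) ^ n • g w) :=
    (h4.and (h5.and h6)).filter_mono nhdsWithin_le_nhds
  filter_upwards [h7, self_mem_nhdsWithin] with s hs hsz
  obtain ⟨e1, e2, e3⟩ := hs
  have hsz' : s - z ≠ 0 := sub_ne_zero.2 hsz
  have h8 : HasDerivAt (fun w : ℂ => (w - z) ^ n • g w)
      ((n * (s - z) ^ (n - 1) * 1) * g s + (s - z) ^ n * deriv g s) s := by
    simp only [smul_eq_mul]
    exact (((hasDerivAt_id' s).sub_const z).fun_pow n).fun_mul e2.hasDerivAt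
  have h9 : G₀ s = (s - z) ^ n * g s := e3.self_of_nhds
  rw [e3.deriv_eq, h8.deriv, h9]
  rcases Nat.eq_zero_or_pos n with hp | hp
  · rw [hp]
    simp
  · obtain ⟨j, hj⟩ : ∃ j, n = j + 1 := ⟨n - 1, by omega⟩
    rw [hj, Nat.add_sub_cancel, pow_succ]
    field_simp

/-- the multiplicity of the zero at `iγ` -/
noncomputable def mz (G₀ : ℂ → ℂ) (γ : ℝ) : ℕ := analyticOrderNatAt G₀ (I * γ)

/-- the coefficient -/
noncomputable def bz (G₀ : ℂ → ℂ) (γ : ℝ) : ℂ := (mz G₀ γ : ℂ) / (I * γ)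

lemma re_Ig (γ : ℝ) : (I * (γ : ℂ)).re = 0 := by simp

lemma im_Ig (γ : ℝ) : (I * (γ : ℂ)).im = γ := by simp

lemma mz_pos (H : Gd G₀ η a C B κ) (γ : ℝ) : 0 < mz G₀ γ ↔ G₀ (I * γ) = 0 := by
  have hη := H.hη
  have hz : -η < (I * (γ : ℂ)).re := by rw [re_Ig]; linarith
  have h1 := gd_ana_at H hz
  have h2 := gd_ord H hz
  unfold mz
  rw [Nat.pos_iff_ne_zero, ne_eq, ← not_iff_not, not_not, ← ne_eq, ← h1.analyticOrderAt_eq_zero,
    ← Nat.cast_analyticOrderNatAt h2]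
  norm_cast

lemma bz_norm (G₀ : ℂ → ℂ) (γ : ℝ) : ‖bz G₀ γ‖ = mz G₀ γ / |γ| := by
  unfold bz
  rw [norm_div, Complex.norm_natCast, norm_mul, norm_I, one_mul, Complex.norm_real,
    Real.norm_eq_abs]

/-- **The multiplicity is the number of the zeros in the list.** -/
lemma mz_count (H : Gd G₀ η a C B κ) {A t : ℝ} {n : ℕ} {ρ : Fin n → ℂ}
    (hb : ∀ s : ℂ, 0 < s.re → s.re < 1 → |s.im - t| ≤ η / 5 →
      ‖deriv G₀ s / G₀ s - ∑ i, (s - ρ i)⁻¹‖ ≤ A * el t) {γ : ℝ} (hγ : |γ - t| ≤ η / 5) :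
    mz G₀ γ = (Finset.univ.filter fun i => ρ i = I * γ).card := by
  have hη := H.hη
  have hz : -η < (I * (γ : ℂ)).re := by rw [re_Ig]; linarith
  obtain ⟨g, h1, h2, h3, h4⟩ := gd_loc H hz
  have hδ : Tendsto (fun δ : ℝ => I * (γ : ℂ) + (δ : ℂ)) (𝓝[>] 0) (𝓝[≠] (I * γ)) := by
    refine tendsto_nhdsWithin_iff.2 ⟨?_, ?_⟩
    · have e1 : Tendsto (fun δ : ℝ => I * (γ : ℂ) + (δ : ℂ)) (𝓝 0) (𝓝 (I * γ + ((0 : ℝ) : ℂ))) :=
        Continuous.tendsto (by fun_prop) 0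
      rw [Complex.ofReal_zero, add_zero] at e1
      exact e1.mono_left nhdsWithin_le_nhds
    · filter_upwards [self_mem_nhdsWithin] with δ hδ
      intro h0
      rw [Set.mem_singleton_iff, add_eq_left] at h0
      have : δ = 0 := by exact_mod_cast h0
      rw [Set.mem_Ioi] at hδ
      linarith
  have hδ0 : Tendsto (fun δ : ℝ => (δ : ℂ)) (𝓝[>] 0) (𝓝 0) := by
    have e1 : Tendsto (fun δ : ℝ => (δ : ℂ)) (𝓝 0) (𝓝 ((0 : ℝ) : ℂ)) :=
      Continuous.tendsto (by fun_prop) 0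
    rw [Complex.ofReal_zero] at e1
    exact e1.mono_left nhdsWithin_le_nhds
  -- the limit of `δ G'/G`
  have l1 : Tendsto (fun δ : ℝ => (δ : ℂ) * (deriv G₀ (I * γ + δ) / G₀ (I * γ + δ))) (𝓝[>] 0)
      (𝓝 (mz G₀ γ)) := by
    have e1 : Tendsto (fun s => deriv g s / g s) (𝓝[≠] (I * (γ : ℂ)))
        (𝓝 (deriv g (I * γ) / g (I * γ))) := by
      have : AnalyticAt ℂ (fun s => deriv g s / g s) (I * γ) := h1.deriv.div h1 h2
      exact this.continuousAt.tendsto.mono_left nhdsWithin_le_nhds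
    have e2 := (hδ0.mul (e1.comp hδ)).const_add (mz G₀ γ : ℂ)
    rw [zero_mul, add_zero] at e2
    refine e2.congr' ?_
    filter_upwards [hδ.eventually h4, self_mem_nhdsWithin] with δ hδ1 hδ2
    have hδ3 : (δ : ℂ) ≠ 0 := by
      rw [Set.mem_Ioi] at hδ2
      exact_mod_cast hδ2.ne'
    rw [hδ1, add_sub_cancel_left]
    simp only [Function.comp]
    unfold mz
    field_simp
  -- the limit of the sum
  have l2 : Tendsto (fun δ : ℝ => (δ : ℂ) * ∑ i, (I * (γ : ℂ) + δ - ρ i)⁻¹) (𝓝[>] 0)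
      (𝓝 (((Finset.univ.filter fun i => ρ i = I * γ).card : ℕ) : ℂ)) := by
    simp only [Finset.mul_sum]
    rw [Finset.card_filter, Nat.cast_sum]
    refine tendsto_finsetSum _ fun i _ => ?_
    by_cases hi : ρ i = I * γ
    · rw [if_pos hi, hi]
      refine tendsto_const_nhds.congr' ?_
      filter_upwards [self_mem_nhdsWithin] with δ hδ2
      have hδ3 : (δ : ℂ) ≠ 0 := by
        rw [Set.mem_Ioi] at hδ2
        exact_mod_cast hδ2.ne'
      rw [add_sub_cancel_left, mul_inv_cancel₀ hδ3]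
      simp
    · rw [if_neg hi]
      have hne : I * (γ : ℂ) - ρ i ≠ 0 := fun h0 => hi (sub_eq_zero.1 h0).symm
      have e1 : Tendsto (fun δ : ℝ => (I * (γ : ℂ) + δ - ρ i)⁻¹) (𝓝[>] 0)
          (𝓝 ((I * γ + 0 - ρ i)⁻¹)) := by
        refine Tendsto.inv₀ ((hδ0.const_add (I * (γ : ℂ))).sub_const _) ?_
        rwa [add_zero]
      have e2 := hδ0.mul e1
      rw [zero_mul] at e2
      simpa using e2
  -- the difference
  have l3 : Tendsto (fun δ : ℝ => (δ : ℂ) * (deriv G₀ (I * γ + δ) / G₀ (I * γ + δ)) -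
      (δ : ℂ) * ∑ i, (I * (γ : ℂ) + δ - ρ i)⁻¹) (𝓝[>] 0) (𝓝 0) := by
    rw [tendsto_zero_iff_norm_tendsto_zero]
    have e1 : Tendsto (fun δ : ℝ => δ * (A * el t)) (𝓝[>] 0) (𝓝 0) := by
      have : Tendsto (fun δ : ℝ => δ * (A * el t)) (𝓝 0) (𝓝 (0 * (A * el t))) :=
        Continuous.tendsto (by fun_prop) 0
      rw [zero_mul] at this
      exact this.mono_left nhdsWithin_le_nhds
    have hlt : ∀ᶠ δ : ℝ in 𝓝[>] 0, δ < 1 :=
      (gt_mem_nhds (zero_lt_one' ℝ)).filter_mono nhdsWithin_le_nhds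
    refine squeeze_zero' (Eventually.of_forall fun δ => norm_nonneg _) ?_ e1
    filter_upwards [self_mem_nhdsWithin, hlt] with δ hδ1 hδ2
    rw [Set.mem_Ioi] at hδ1
    rw [← mul_sub, norm_mul, Complex.norm_real, Real.norm_of_nonneg hδ1.le]
    refine mul_le_mul_of_nonneg_left (hb _ ?_ ?_ ?_) hδ1.le
    · simpa using hδ1
    · simpa using hδ2
    · simpa using hγ
  have l4 := l1.sub l2
  have l5 := tendsto_nhds_unique l3 l4
  have l6 := (sub_eq_zero.1 l5.symm)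
  exact_mod_cast l6

/-- the sum of the multiplicities in a window -/
lemma mz_sum (H : Gd G₀ η a C B κ) {A t : ℝ} {n : ℕ} {ρ : Fin n → ℂ}
    (hb : ∀ s : ℂ, 0 < s.re → s.re < 1 → |s.im - t| ≤ η / 5 →
      ‖deriv G₀ s / G₀ s - ∑ i, (s - ρ i)⁻¹‖ ≤ A * el t) {S : Finset ℝ}
    (hS : ∀ γ ∈ S, |γ - t| ≤ η / 5) : ∑ γ ∈ S, mz G₀ γ ≤ n := by
  have h1 : ∑ γ ∈ S, mz G₀ γ = ∑ i : Fin n, ∑ γ ∈ S, if ρ i = I * γ then 1 else 0 := by
    rw [Finset.sum_comm]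
    refine Finset.sum_congr rfl fun γ hγ => ?_
    rw [mz_count H hb (hS γ hγ), Finset.card_filter]
  rw [h1]
  have h2 : ∀ i ∈ (Finset.univ : Finset (Fin n)), (∑ γ ∈ S, if ρ i = I * γ then 1 else 0) ≤ 1 := by
    intro i _
    have h3 : (∑ γ ∈ S, if ρ i = I * (γ : ℂ) then 1 else 0) =
        (S.filter fun γ : ℝ => ρ i = I * γ).card := by
      rw [Finset.card_filter]
    rw [h3, Finset.card_le_one]
    intro x hx y hy
    rw [Finset.mem_filter] at hx hy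
    have h4 : I * (x : ℂ) = I * y := by rw [← hx.2, ← hy.2]
    have h5 := mul_left_cancel₀ I_ne_zero h4
    exact_mod_cast h5
  refine (Finset.sum_le_sum h2).trans ?_
  simp

/-- the zeros in a bounded part of the line -/
lemma zeros_fin (H : Gd G₀ η a C B κ) (N : ℝ) :
    {γ : ℝ | |γ| ≤ N ∧ γ ≠ 0 ∧ G₀ (I * γ) = 0}.Finite := by
  have hη := H.hη
  obtain ⟨A, hA, hz⟩ := H.zeros'
  have h1 : (Icc (-N) N ∩ {γ : ℝ | γ ≠ 0 ∧ G₀ (I * γ) = 0}).Finite := by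
    refine (isCompact_Icc (a := -N) (b := N)).induction_on
      (p := fun s => (s ∩ {γ : ℝ | γ ≠ 0 ∧ G₀ (I * γ) = 0}).Finite) ?_ ?_ ?_ ?_
    · simp
    · intro s t hst ht
      exact ht.subset (inter_subset_inter_left _ hst)
    · intro s t hs ht
      rw [union_inter_distrib_right]
      exact hs.union ht
    · intro x _
      refine ⟨Metric.closedBall x (η / 5), mem_nhdsWithin_of_mem_nhds
        (Metric.closedBall_mem_nhds x (by linarith)), ?_⟩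
      obtain ⟨n, ρ, k1, k2, k3⟩ := hz x
      by_contra hinf
      obtain ⟨S, hS1, hS2⟩ := Set.Infinite.exists_subset_card_eq hinf (n + 1)
      have h2 : ∀ γ ∈ S, |γ - x| ≤ η / 5 := by
        intro γ hγ
        have := (hS1 hγ).1
        rwa [Metric.mem_closedBall, Real.dist_eq] at this
      have h3 := mz_sum H k3 h2
      have h4 : ∀ γ ∈ S, 1 ≤ mz G₀ γ := by
        intro γ hγ
        exact (mz_pos H γ).2 (hS1 hγ).2.2
      have h5 : S.card • 1 ≤ ∑ γ ∈ S, mz G₀ γ := Finset.card_nsmul_le_sum S (mz G₀) 1 h4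
      rw [hS2, smul_eq_mul, mul_one] at h5
      exact absurd (h5.trans h3) (by omega)
  refine h1.subset fun γ hγ => ?_
  obtain ⟨e1, e2, e3⟩ := hγ
  exact ⟨abs_le.1 e1, e2, e3⟩

/-- the set of the zeros -/
noncomputable def Gz (G₀ : ℂ → ℂ) (N : ℝ) : Finset ℝ := by
  classical
  exact if h : {γ : ℝ | |γ| ≤ N ∧ γ ≠ 0 ∧ G₀ (I * γ) = 0}.Finite then h.toFinset else ∅

lemma mem_Gz (H : Gd G₀ η a C B κ) {N γ : ℝ} :
    γ ∈ Gz G₀ N ↔ |γ| ≤ N ∧ γ ≠ 0 ∧ G₀ (I * γ) = 0 := by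
  unfold Gz
  rw [dif_pos (zeros_fin H N)]
  simp

end Pool.Agent.Q195.AP
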