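import Pool.Agent.Q195.AP.Near

/-! The regular part of the transform. -/

set_option autoImplicit false

open MeasureTheory Filter Topology Set Complex
open scoped ENNReal

namespace Pool.Agent.Q195.AP

open Pool.Agent.Q195.CR

variable {G₀ : ℂ → ℂ} {η a C B : ℝ} {κ : ℕ}

lemma pol_ana {γ : ℝ} {z : ℂ} (hz : z ≠ I * γ) : AnalyticAt ℂ (pol γ) z := by
  unfold pol
  exact (analyticAt_id.sub analyticAt_const).inv (sub_ne_zero.2 hz)

lemma mp_ana {Γ : Finset ℝ} {b : ℝ → ℂ} {z : ℂ} (hz : ∀ γ ∈ Γ, z ≠ I * γ) :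
    AnalyticAt ℂ (mp Γ b) z := by
  unfold mp
  exact Finset.analyticAt_fun_sum _ fun γ hγ => analyticAt_const.mul (pol_ana (hz γ hγ))

/-- the transform minus the main part extends analytically -/
lemma ext_ana (H : Gd G₀ η a C B κ) (k : ℕ) {g : ℂ → ℂ} {p : ℕ} (hg : AnalyticAt ℂ g 0)
    (hg0 : g 0 ≠ 0) (near : ∀ᶠ s in 𝓝 (0 : ℂ), G₀ s = s ^ p * g s) {r : ℝ} {q : ℂ}
    (hr : r = p - k) (hq : q = deriv g 0 / g 0) {N : ℝ} {z : ℂ} (hz : z.re = 0) (hN : |z.im| ≤ N) :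
    ∃ F : ℂ → ℂ, AnalyticAt ℂ F z ∧
      ∀ᶠ s in 𝓝[≠] z, KM G₀ k r q s - mp (Gz G₀ N) (bz G₀) s = F s := by
  have hη := H.hη
  set γ : ℝ := z.im with hγ
  have hzγ : z = I * γ := by
    apply Complex.ext <;> simp [hz, hγ]
  rcases eq_or_ne γ 0 with h0 | h0
  · -- near the centre
    have hz0 : z = 0 := by rw [hzγ, h0]; simp
    rw [hz0]
    have hL : AnalyticAt ℂ (fun s => deriv g s / g s) 0 := hg.deriv.div hg hg0
    obtain ⟨P, hP⟩ := hL
    have hD : AnalyticAt ℂ (dslope (fun s => deriv g s / g s) 0) 0 :=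
      ⟨_, hP.has_fpower_series_dslope_fslope⟩
    refine ⟨fun s => dslope (fun s => deriv g s / g s) 0 s - mp (Gz G₀ N) (bz G₀) s,
      hD.sub (mp_ana fun γ' hγ' h1 => ?_), ?_⟩
    · have h2 := ((mem_Gz H).1 hγ').2.1
      have h3 : (γ' : ℂ) = 0 := by
        have := h1.symm
        rw [mul_eq_zero] at this
        exact this.resolve_left I_ne_zero
      exact h2 (by exact_mod_cast h3)
    · have h2 : ∀ᶠ s in 𝓝 (0 : ℂ), g s ≠ 0 := hg.continuousAt.eventually_ne hg0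
      have h3 : ∀ᶠ s in 𝓝 (0 : ℂ), DifferentiableAt ℂ g s :=
        hg.eventually_analyticAt.mono fun s hs => hs.differentiableAt
      have h4 := near.eventually_nhds
      have h5 := (h2.and (h3.and (near.and h4))).filter_mono
        (nhdsWithin_le_nhds (a := (0 : ℂ)) (s := {0}ᶜ))
      filter_upwards [h5, self_mem_nhdsWithin] with s hs hs0
      obtain ⟨e2, e3, e4, e5⟩ := hs
      have hs0' : s ≠ 0 := hs0
      have h6 : deriv G₀ s = p * s ^ (p - 1) * g s + s ^ p * deriv g s := by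
        have h7 : G₀ =ᶠ[𝓝 s] fun s => s ^ p * g s := e5
        rw [h7.deriv_eq]
        have h8 : HasDerivAt (fun s : ℂ => s ^ p * g s)
            ((p : ℂ) * s ^ (p - 1) * g s + s ^ p * deriv g s) s :=
          (hasDerivAt_pow p s).fun_mul e3.hasDerivAt
        exact h8.deriv
      have h9 : deriv G₀ s / G₀ s = p / s + deriv g s / g s := by
        rw [h6, e4]
        rcases Nat.eq_zero_or_pos p with hp | hp
        · subst hp
          simp
        · obtain ⟨j, rfl⟩ : ∃ j, p = j + 1 := ⟨p - 1, by omega⟩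
          rw [Nat.add_sub_cancel, pow_succ]
          field_simp
      rw [dslope_of_ne _ hs0', slope_def_field]
      unfold KM
      rw [h9, hr, hq]
      push_cast
      field_simp
      ring
  · -- away from the centre
    have hz' : -η < z.re := by rw [hz]; linarith
    have hzne : z ≠ 0 := by
      intro h1
      apply h0
      rw [hγ, h1, Complex.zero_im]
    obtain ⟨g₁, h1, h2, h3, h4⟩ := gd_loc H hz'
    set n : ℕ := analyticOrderNatAt G₀ z with hn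
    have hmz : mz G₀ γ = n := by
      unfold mz
      rw [← hzγ]
    have hb : bz G₀ γ = n / z := by
      unfold bz
      rw [hmz, ← hzγ]
    -- the main part
    have hmp : ∀ s, mp (Gz G₀ N) (bz G₀) s =
        bz G₀ γ * pol γ s + mp ((Gz G₀ N).erase γ) (bz G₀) s := by
      intro s
      unfold mp
      by_cases hm : γ ∈ Gz G₀ N
      · exact (Finset.add_sum_erase _ (fun γ => bz G₀ γ * pol γ s) hm).symm
      · rw [Finset.erase_eq_of_notMem hm]
        have e1 : mz G₀ γ = 0 := by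
          by_contra hc
          exact hm ((mem_Gz H).2 ⟨hN, h0, (mz_pos H γ).1 (Nat.pos_of_ne_zero hc)⟩)
        have e2 : bz G₀ γ = 0 := by
          unfold bz
          rw [e1]
          simp
        rw [e2, zero_mul, zero_add]
    refine ⟨fun s => (-(n : ℂ) / z + (deriv g₁ s / g₁ s - k / s)) / s - r / s ^ 2 - q / s -
      mp ((Gz G₀ N).erase γ) (bz G₀) s, ?_, ?_⟩
    · have i1 : AnalyticAt ℂ (fun s => deriv g₁ s / g₁ s) z := h1.deriv.div h1 h2
      have i2 : AnalyticAt ℂ (mp ((Gz G₀ N).erase γ) (bz G₀)) z := mp_ana fun γ' hγ' h5 => by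
        rw [hzγ] at h5
        have h6 := mul_left_cancel₀ I_ne_zero h5
        have h7 : γ = γ' := by exact_mod_cast h6
        exact (Finset.ne_of_mem_erase hγ') h7.symm
      have i3 : AnalyticAt ℂ (fun s : ℂ => s) z := analyticAt_id
      exact ((((analyticAt_const.add (i1.sub (analyticAt_const.div i3 hzne))).div i3 hzne).sub
        (analyticAt_const.div (i3.pow 2) (pow_ne_zero 2 hzne))).sub
        (analyticAt_const.div i3 hzne)).sub i2
    · have hne : ∀ᶠ s in 𝓝[≠] z, s ≠ 0 :=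
        (continuousAt_id.eventually_ne hzne).filter_mono nhdsWithin_le_nhds
      filter_upwards [h4, hne, self_mem_nhdsWithin] with s e1 e2 e3
      have e4 : s - z ≠ 0 := sub_ne_zero.2 e3
      rw [hmp]
      unfold KM pol
      rw [e1, hb, ← hzγ]
      have e5 : (n : ℂ) / (s - z) / s = n / z * (s - z)⁻¹ - n / z / s := by
        field_simp
        ring
      have e6 : ((n : ℂ) / (s - z) + deriv g₁ s / g₁ s - k / s) / s =
          (n : ℂ) / (s - z) / s + (deriv g₁ s / g₁ s - k / s) / s := by ring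
      rw [e6, e5]
      ring

/-- bounds from the analytic extension -/
lemma ext_bd {F H : ℂ → ℂ} {z : ℂ} (hF : AnalyticAt ℂ F z) (h : ∀ᶠ s in 𝓝[≠] z, H s = F s) :
    ∃ B : ℝ, ∀ᶠ s in 𝓝[≠] z, ‖H s‖ ≤ B ∧ ‖deriv H s‖ ≤ B := by
  have h1 : ∀ᶠ s in 𝓝 z, ‖F s‖ < ‖F z‖ + 1 :=
    hF.continuousAt.norm.eventually (gt_mem_nhds (by linarith))
  have h2 : ∀ᶠ s in 𝓝 z, ‖deriv F s‖ < ‖deriv F z‖ + 1 :=
    hF.deriv.continuousAt.norm.eventually (gt_mem_nhds (by linarith))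
  have h3 := eventually_eventually_nhdsWithin.2 h
  refine ⟨max (‖F z‖ + 1) (‖deriv F z‖ + 1), ?_⟩
  filter_upwards [h3, h, h1.filter_mono nhdsWithin_le_nhds, h2.filter_mono nhdsWithin_le_nhds,
    self_mem_nhdsWithin] with s e1 e2 e3 e4 e5
  have e6 : H =ᶠ[𝓝 s] F := by
    have : 𝓝[≠] z ≤ 𝓝 z := nhdsWithin_le_nhds
    rw [IsOpen.nhdsWithin_eq isOpen_compl_singleton e5] at e1
    exact e1
  rw [e2, e6.deriv_eq]
  exact ⟨e3.le.trans (le_max_left _ _), e4.le.trans (le_max_right _ _)⟩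

/-- **The regular part is bounded.** -/
theorem reg_bd (H : Gd G₀ η a C B κ) (k : ℕ) {g : ℂ → ℂ} {p : ℕ} (hg : AnalyticAt ℂ g 0)
    (hg0 : g 0 ≠ 0) (near : ∀ᶠ s in 𝓝 (0 : ℂ), G₀ s = s ^ p * g s) {r : ℝ} {q : ℂ}
    (hr : r = p - k) (hq : q = deriv g 0 / g 0)
    (hHd : ∀ s : ℂ, 0 < s.re → DifferentiableAt ℂ (KM G₀ k r q) s) (N : ℝ) :
    ∃ B : ℝ, ∀ s : ℂ, 0 < s.re → s.re < 1 → |s.im| ≤ N →
      ‖KM G₀ k r q s - mp (Gz G₀ N) (bz G₀) s‖ ≤ B ∧
      ‖deriv (fun s => KM G₀ k r q s - mp (Gz G₀ N) (bz G₀) s) s‖ ≤ B := by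
  set R : ℂ → ℂ := fun s => KM G₀ k r q s - mp (Gz G₀ N) (bz G₀) s with hR
  have hU : IsOpen {s : ℂ | 0 < s.re} := isOpen_lt continuous_const Complex.continuous_re
  have hK : IsCompact (Icc (0 : ℝ) 1 ×ℂ Icc (-N) N) := isCompact_Icc.reProdIm isCompact_Icc
  have key : ∃ B : ℝ, ∀ s ∈ (Icc (0 : ℝ) 1 ×ℂ Icc (-N) N), 0 < s.re → ‖R s‖ ≤ B ∧
      ‖deriv R s‖ ≤ B := by
    refine hK.induction_on (p := fun S => ∃ B : ℝ, ∀ s ∈ S, 0 < s.re → ‖R s‖ ≤ B ∧
      ‖deriv R s‖ ≤ B) ?_ ?_ ?_ ?_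
    · exact ⟨0, fun s hs => absurd hs (Set.notMem_empty s)⟩
    · rintro S T hST ⟨B, hB⟩
      exact ⟨B, fun s hs => hB s (hST hs)⟩
    · rintro S T ⟨B₁, hB₁⟩ ⟨B₂, hB₂⟩
      refine ⟨max B₁ B₂, fun s hs h0 => ?_⟩
      rcases hs with hs | hs
      · obtain ⟨e1, e2⟩ := hB₁ s hs h0
        exact ⟨e1.trans (le_max_left _ _), e2.trans (le_max_left _ _)⟩
      · obtain ⟨e1, e2⟩ := hB₂ s hs h0
        exact ⟨e1.trans (le_max_right _ _), e2.trans (le_max_right _ _)⟩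
    · intro z hz
      have hz1 := (Complex.mem_reProdIm.1 hz).1
      have hz2 := (Complex.mem_reProdIm.1 hz).2
      rcases hz1.1.eq_or_lt with h0 | h0
      · obtain ⟨F, f1, f2⟩ := ext_ana H k hg hg0 near hr hq (N := N) h0.symm (abs_le.2 hz2)
        obtain ⟨B, hB⟩ := ext_bd f1 f2
        rw [eventually_nhdsWithin_iff] at hB
        refine ⟨{s | s ∈ ({z}ᶜ : Set ℂ) → ‖R s‖ ≤ B ∧ ‖deriv R s‖ ≤ B},
          mem_nhdsWithin_of_mem_nhds hB, B, fun s hs h1 => hs ?_⟩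
        intro h2
        rw [Set.mem_singleton_iff] at h2
        rw [h2, ← h0] at h1
        exact lt_irrefl _ h1
      · have hRd : DifferentiableOn ℂ R {s : ℂ | 0 < s.re} := fun s hs =>
          ((hHd s hs).sub (mp_diff _ _ hs)).differentiableWithinAt
        have hA : AnalyticAt ℂ R z := hRd.analyticAt (hU.mem_nhds h0)
        have h1 : ∀ᶠ s in 𝓝 z, ‖R s‖ < ‖R z‖ + 1 :=
          hA.continuousAt.norm.eventually (gt_mem_nhds (by linarith))
        have h2 : ∀ᶠ s in 𝓝 z, ‖deriv R s‖ < ‖deriv R z‖ + 1 :=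
          hA.deriv.continuousAt.norm.eventually (gt_mem_nhds (by linarith))
        refine ⟨{s | ‖R s‖ < ‖R z‖ + 1 ∧ ‖deriv R s‖ < ‖deriv R z‖ + 1},
          mem_nhdsWithin_of_mem_nhds (h1.and h2), max (‖R z‖ + 1) (‖deriv R z‖ + 1),
          fun s hs _ => ?_⟩
        exact ⟨hs.1.le.trans (le_max_left _ _), hs.2.le.trans (le_max_right _ _)⟩
  obtain ⟨B, hB⟩ := key
  refine ⟨B, fun s h0 h1 h2 => hB s ?_ h0⟩
  rw [Complex.mem_reProdIm]
  exact ⟨⟨h0.le, h1.le⟩, abs_le.1 h2⟩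

/-- **The coefficients are dominated.** -/
theorem coef_bd (H : Gd G₀ η a C B κ) {g : ℂ → ℂ} {p : ℕ} (hg : AnalyticAt ℂ g 0)
    (hg0 : g 0 ≠ 0) (near : ∀ᶠ s in 𝓝 (0 : ℂ), G₀ s = s ^ p * g s) :
    ∃ A : ℝ, 0 ≤ A ∧ ∀ (N t : ℝ), ∑ γ ∈ Gz G₀ N with |t - γ| < η / 5, ‖bz G₀ γ‖ ≤
      A * el t / (1 + |t|) := by
  have hη := H.hη
  have hη1 := H.hη1
  obtain ⟨A, hA, hz⟩ := H.zeros'
  obtain ⟨q', ρ₀, B₀, hq', hρ₀, hB₀, hz0, hn0⟩ := km_near hg hg0 near
  refine ⟨A * (2 / ρ₀ + 1), by positivity, fun N t => ?_⟩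
  obtain ⟨n, ρ, k1, k2, k3⟩ := hz t
  have hel := el_one t
  have ht0 := abs_nonneg t
  have h1 : ∀ γ ∈ (Gz G₀ N).filter (fun γ => |t - γ| < η / 5), ‖bz G₀ γ‖ ≤
      (mz G₀ γ : ℝ) * ((2 / ρ₀ + 1) / (1 + |t|)) := by
    intro γ hγ
    rw [Finset.mem_filter] at hγ
    obtain ⟨e1, e2, e3⟩ := (mem_Gz H).1 hγ.1
    have e4 : 0 < |γ| := abs_pos.2 e2
    have e5 : ρ₀ ≤ |γ| := by
      by_contra hc
      have h2 := hz0 (I * γ) (by
        rw [norm_mul, norm_I, one_mul, Complex.norm_real, Real.norm_eq_abs]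
        exact not_le.1 hc) e3
      rw [mul_eq_zero] at h2
      have h3 : (γ : ℂ) = 0 := h2.resolve_left I_ne_zero
      exact e2 (by exact_mod_cast h3)
    have e6 : 1 + |t| ≤ (2 / ρ₀ + 1) * |γ| := by
      have f1 : |t| ≤ |t - γ| + |γ| := by
        have := abs_add_le (t - γ) γ
        rwa [sub_add_cancel] at this
      have f2 : 2 ≤ 2 / ρ₀ * |γ| := by
        rw [div_mul_eq_mul_div, le_div_iff₀ hρ₀]
        linarith
      have f3 := hγ.2
      nlinarith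
    rw [bz_norm, div_eq_mul_inv]
    refine mul_le_mul_of_nonneg_left ?_ (Nat.cast_nonneg _)
    rw [inv_eq_one_div, div_le_div_iff₀ e4 (by linarith)]
    linarith
  refine (Finset.sum_le_sum h1).trans ?_
  rw [← Finset.sum_mul, ← Nat.cast_sum]
  have h2 : (∑ γ ∈ (Gz G₀ N).filter (fun γ => |t - γ| < η / 5), mz G₀ γ) ≤ n := by
    refine mz_sum H k3 fun γ hγ => ?_
    rw [Finset.mem_filter] at hγ
    rw [abs_sub_comm]
    exact hγ.2.le
  have h3 : ((∑ γ ∈ (Gz G₀ N).filter (fun γ => |t - γ| < η / 5), mz G₀ γ : ℕ) : ℝ) ≤ A * el t :=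
    (Nat.cast_le.2 h2).trans k1
  calc _ ≤ A * el t * ((2 / ρ₀ + 1) / (1 + |t|)) :=
        mul_le_mul_of_nonneg_right h3 (by positivity)
    _ = _ := by ring

end Pool.Agent.Q195.AP
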