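import Pool.Agent.Q195.AP.Reg
import Pool.Agent.Q195.CR.Lap3

/-! Almost periodicity of the sums `∑ c(n) λ(n)`. -/

set_option autoImplicit false

open MeasureTheory Filter Topology Set Complex
open scoped ENNReal
open Pool.Agent.TH942.LS (Dat P)
open Pool.Agent.TH942.SL
open Pool.Agent.TH942.RZ (LD log_near)

namespace Pool.Agent.Q195.AP

open Pool.Agent.Q195.CR
open Pool.Agent.TH270.MS

variable {lam c : ℕ → ℝ} {δ σ : ℝ}

/-- The data of the transform. -/
theorem data1 {G₀ : ℂ → ℂ} {k κ : ℕ} {η C : ℝ} (D : Dat lam c δ σ) (hη : 0 < η)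
    (hG : ∀ s : ℂ, -η < s.re → DifferentiableAt ℂ G₀ s)
    (hgrow : ∀ s : ℂ, -η < s.re → ‖G₀ s‖ ≤ C * (1 + ‖s‖) ^ κ)
    (hexp : ∀ s : ℂ, σ < s.re → s ^ k * exp (-DD lam c s) = G₀ s)
    (hne : ∀ s : ℂ, 0 < s.re → G₀ s ≠ 0) (r : ℝ) (q : ℂ) :
    (∃ S₀ : ℝ, Gd G₀ (min η 1) (σ + 1) C S₀ κ) ∧
    (∀ x : ℝ, σ + 1 < x → Integrable fun u : ℝ => ec lam c r q u * exp (-(x * u))) ∧
    (∀ x : ℝ, σ + 1 < x → MemLp (fun u : ℝ => ec lam c r q u * exp (-(x * u))) 2) ∧
    (∀ s : ℂ, σ + 1 < s.re → KM G₀ k r q s = ∫ u : ℝ, ec lam c r q u * exp (-(s * u))) ∧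
    (∀ s : ℂ, 0 < s.re → DifferentiableAt ℂ (KM G₀ k r q) s) ∧
    (∀ δ' : ℝ, 0 < δ' → ∃ B : ℝ, ∀ s : ℂ, δ' ≤ s.re → s.re ≤ σ + 1 + 1 →
      ‖KM G₀ k r q s‖ ≤ B) := by
  have hσ := D.σ0
  have hs0 : ∀ s : ℂ, 0 < s.re → s ≠ 0 := fun s hs => by rintro rfl; simp at hs
  have hC0 : 0 ≤ C := by
    have := (norm_nonneg _).trans (hgrow 0 (by simpa using hη))
    simpa using this
  -- the logarithm of `Ψ = G₀ / s^k`
  set Ψ : ℂ → ℂ := fun s => G₀ s / s ^ k with hΨ
  have hΨd : ∀ s : ℂ, 0 < s.re → DifferentiableAt ℂ Ψ s := fun s hs =>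
    (hG s (by linarith)).div (differentiableAt_id.pow k) (pow_ne_zero _ (hs0 s hs))
  have hΨn : ∀ s : ℂ, 0 < s.re → Ψ s ≠ 0 := fun s hs =>
    div_ne_zero (hne s hs) (pow_ne_zero _ (hs0 s hs))
  have hΨg : ∀ s : ℂ, 0 < s.re → ‖Ψ s‖ ≤ C * (1 + ‖s‖) ^ (κ + k) * (1 + 1 / s.re) ^ (κ + k) := by
    intro s hs
    rw [hΨ]
    simp only
    rw [norm_div, norm_pow, div_eq_mul_inv]
    have e1 := hgrow s (by linarith)
    have e2 : (‖s‖ ^ k)⁻¹ ≤ (1 + 1 / s.re) ^ k := by
      rw [← inv_pow]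
      apply pow_le_pow_left₀ (by positivity)
      have : ‖s‖⁻¹ ≤ s.re⁻¹ := inv_anti₀ hs (Complex.re_le_norm s)
      rw [one_div]
      linarith
    have e3 : (1 + ‖s‖) ^ κ ≤ (1 + ‖s‖) ^ (κ + k) :=
      pow_le_pow_right₀ (by linarith [norm_nonneg s]) (by omega)
    have e4 : (1 + 1 / s.re) ^ k ≤ (1 + 1 / s.re) ^ (κ + k) := by
      refine pow_le_pow_right₀ ?_ (by omega)
      have : 0 ≤ 1 / s.re := by positivity
      linarith
    exact mul_le_mul (e1.trans (mul_le_mul_of_nonneg_left e3 hC0)) (e2.trans e4) (by positivity)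
      (by positivity)
  have hΨe : ∀ s : ℂ, σ < s.re → exp ((fun _ : ℂ => (0 : ℂ)) s - DD lam c s) = Ψ s := by
    intro s hs
    have h1 : s ≠ 0 := hs0 s (hσ.trans hs)
    rw [hΨ]
    simp only
    rw [← hexp s hs, zero_sub]
    field_simp
  obtain ⟨L, A₀, hLD, hLd, hLe, hLf⟩ := Pool.Agent.TH270.RS.exists_LD (G := fun _ => 0) (A' := 0)
    D hΨd hΨn (fun s _ => differentiableAt_const _) hΨe hΨg (fun s _ => by simp)
  -- the logarithmic derivative
  have hlog : ∀ s : ℂ, 0 < s.re → deriv Ψ s / Ψ s = deriv G₀ s / G₀ s - k / s := by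
    intro s hs
    have h1 := hs0 s hs
    have h2 := hne s hs
    rw [← logDeriv_apply, hΨ, logDeriv_div (f := G₀) (g := fun s : ℂ => s ^ k) s h2
      (pow_ne_zero _ h1) (hG s (by linarith)) (differentiableAt_id.pow k), logDeriv_apply,
      logDeriv_apply]
    congr 1
    rcases Nat.eq_zero_or_pos k with hk | hk
    · subst hk
      simp
    · have h3 : deriv (fun s : ℂ => s ^ k) s = k * s ^ (k - 1) := by
        simp
      rw [h3]
      obtain ⟨j, rfl⟩ : ∃ j, k = j + 1 := ⟨k - 1, by omega⟩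
      rw [Nat.add_sub_cancel, pow_succ]
      field_simp
  have hKL : ∀ s : ℂ, 0 < s.re → KM G₀ k r q s = deriv L s / s - r / s ^ 2 - q / s := by
    intro s hs
    unfold KM
    rw [← hlog s hs, (hLd s hs).deriv]
  have hP : ∀ s : ℂ, σ < s.re → deriv L s = P lam c s := by
    intro s hs
    have hU : IsOpen {s : ℂ | σ < s.re} := isOpen_lt continuous_const Complex.continuous_re
    have h1 : L =ᶠ[𝓝 s] fun s => (0 : ℂ) - DD lam c s := by
      filter_upwards [hU.mem_nhds hs] with w hw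
      exact hLf w hw
    rw [h1.deriv_eq, deriv_const_sub, (dd_deriv D hs).deriv, neg_neg]
  -- the transform
  have hHk : ∀ s : ℂ, σ + 1 < s.re → KM G₀ k r q s = ∫ u : ℝ, ec lam c r q u * exp (-(s * u)) := by
    intro s hs
    rw [ec_lap D hs, hKL s (by linarith), hP s (by linarith)]
  have hLdd : DifferentiableOn ℂ (deriv L) {s : ℂ | 0 < s.re} := by
    have hU : IsOpen {s : ℂ | 0 < s.re} := isOpen_lt continuous_const Complex.continuous_re
    have h1 : DifferentiableOn ℂ L {s : ℂ | 0 < s.re} := fun s hs =>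
      (hLd s hs).differentiableAt.differentiableWithinAt
    exact h1.deriv hU
  have hHd : ∀ s : ℂ, 0 < s.re → DifferentiableAt ℂ (KM G₀ k r q) s := by
    intro s hs
    have hU : IsOpen {s : ℂ | 0 < s.re} := isOpen_lt continuous_const Complex.continuous_re
    have h1 : KM G₀ k r q =ᶠ[𝓝 s] fun s => deriv L s / s - r / s ^ 2 - q / s := by
      filter_upwards [hU.mem_nhds hs] with w hw
      exact hKL w hw
    rw [h1.differentiableAt_iff]
    have h2 := hs0 s hs
    exact (((hLdd.differentiableAt (hU.mem_nhds hs)).div differentiableAt_id h2).sub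
      ((differentiableAt_const _).div (differentiableAt_id.pow 2) (pow_ne_zero 2 h2))).sub
      ((differentiableAt_const _).div differentiableAt_id h2)
  have hbd : ∀ δ' : ℝ, 0 < δ' → ∃ B : ℝ, ∀ s : ℂ, δ' ≤ s.re → s.re ≤ σ + 1 + 1 →
      ‖KM G₀ k r q s‖ ≤ B := by
    intro δ' hδ'
    obtain ⟨B, hB, hBB⟩ := hLD.pow (half_pos hδ') (ε := 1) one_pos
    refine ⟨B * ((1 + δ' / 2) / δ' + 1) / (δ' / 2) + |r| / δ' ^ 2 + ‖q‖ / δ', fun s hs _ => ?_⟩
    have hs1 : 0 < s.re := hδ'.trans_le hs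
    have hsn : δ' ≤ ‖s‖ := hs.trans (Complex.re_le_norm s)
    have hsn0 : 0 < ‖s‖ := hδ'.trans_le hsn
    have e8 : ‖(r : ℂ) / s ^ 2‖ ≤ |r| / δ' ^ 2 := by
      rw [norm_div, norm_pow, Complex.norm_real, Real.norm_eq_abs]
      exact div_le_div_of_nonneg_left (abs_nonneg r) (by positivity)
        (pow_le_pow_left₀ hδ'.le hsn 2)
    have e9 : ‖q / s‖ ≤ ‖q‖ / δ' := by
      rw [norm_div]
      exact div_le_div_of_nonneg_left (norm_nonneg q) hδ' hsn
    rw [hKL s hs1]
    refine (norm_sub_le _ _).trans (add_le_add ?_ e9)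
    refine (norm_sub_le _ _).trans (add_le_add ?_ e8)
    rw [norm_div]
    have hre : ∀ w : ℂ, ‖w - s‖ ≤ δ' / 2 → δ' / 2 ≤ w.re ∧ |w.im| ≤ |s.im| + δ' / 2 := by
      intro w hw
      have e1 := (abs_le.1 ((Complex.abs_re_le_norm (w - s)).trans hw)).1
      have e2 := (Complex.abs_im_le_norm (w - s)).trans hw
      rw [Complex.sub_re] at e1
      rw [Complex.sub_im] at e2
      refine ⟨by linarith, ?_⟩
      have := abs_sub_abs_le_abs_sub w.im s.im
      linarith
    have e1 := Complex.norm_deriv_le_of_forall_mem_sphere_norm_le (c := s) (f := L)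
      (C := B * (1 + (|s.im| + δ' / 2))) (half_pos hδ') (by
        apply DifferentiableOn.diffContOnCl
        rw [closure_ball _ (half_pos hδ').ne']
        intro w hw
        rw [mem_closedBall_iff_norm] at hw
        exact ((hLd w (by linarith [(hre w hw).1])).differentiableAt).differentiableWithinAt) (by
        intro w hw
        rw [mem_sphere_iff_norm] at hw
        obtain ⟨f1, f2⟩ := hre w hw.le
        have f3 := hBB w f1
        rw [Real.rpow_one] at f3
        refine f3.trans (mul_le_mul_of_nonneg_left (by linarith) hB))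
    have e2 : |s.im| ≤ ‖s‖ := Complex.abs_im_le_norm s
    rw [div_le_iff₀ hsn0]
    refine e1.trans ?_
    rw [div_mul_eq_mul_div]
    refine div_le_div_of_nonneg_right ?_ (half_pos hδ').le
    have e4 : 1 + (|s.im| + δ' / 2) ≤ ((1 + δ' / 2) / δ' + 1) * ‖s‖ := by
      have e5 : (1 + δ' / 2) ≤ (1 + δ' / 2) / δ' * ‖s‖ := by
        rw [div_mul_eq_mul_div, le_div_iff₀ hδ']
        exact mul_le_mul_of_nonneg_left hsn (by linarith)
      linarith
    calc B * (1 + (|s.im| + δ' / 2)) ≤ B * (((1 + δ' / 2) / δ' + 1) * ‖s‖) :=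
          mul_le_mul_of_nonneg_left e4 hB
      _ = _ := by ring
  -- integrability
  obtain ⟨C₁, hC₁, hkb⟩ := ec_le D r q
  have hkx : ∀ x : ℝ, σ + 1 < x → ∀ u : ℝ, ‖ec lam c r q u * exp (-(x * u))‖ ≤
      (Ici (0 : ℝ)).indicator (fun u => C₁ * Real.exp (-((x - (σ + 1)) * u))) u := by
    intro x hx u
    have e0 : ‖exp (-((x : ℂ) * u))‖ = Real.exp (-(x * u)) := by
      rw [norm_exp_neg, Complex.ofReal_re]
    rcases lt_or_ge u 0 with hu | hu
    · rw [ec_zero hu.le, zero_mul, norm_zero,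
        indicator_of_notMem (by simpa using hu)]
    · rw [indicator_of_mem (show u ∈ Ici (0 : ℝ) from hu), norm_mul, e0]
      calc ‖ec lam c r q u‖ * Real.exp (-(x * u)) ≤ (C₁ * Real.exp ((σ + 1) * u)) *
            Real.exp (-(x * u)) := mul_le_mul_of_nonneg_right (hkb u) (Real.exp_pos _).le
        _ = C₁ * (Real.exp ((σ + 1) * u) * Real.exp (-(x * u))) := by ring
        _ = _ := by
          rw [← Real.exp_add]
          ring_nf
  have hkme : ∀ x : ℝ, Measurable fun u : ℝ => ec lam c r q u * exp (-(x * u)) := fun x =>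
    (ec_meas D).mul (by fun_prop)
  have hI : ∀ {y : ℝ}, 0 < y → ∀ C₂ : ℝ,
      Integrable ((Ici (0 : ℝ)).indicator (fun u => C₂ * Real.exp (-(y * u)))) := by
    intro y hy C₂
    rw [integrable_indicator_iff measurableSet_Ici, integrableOn_Ici_iff_integrableOn_Ioi]
    have h1 : IntegrableOn (fun u : ℝ => Real.exp (-y * u)) (Ioi 0) :=
      integrableOn_exp_mul_Ioi (a := -y) (by linarith) 0
    have h2 : IntegrableOn (fun u : ℝ => C₂ * Real.exp (-y * u)) (Ioi 0) := h1.const_mul C₂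
    refine h2.congr_fun (fun u _ => ?_) measurableSet_Ioi
    simp only [neg_mul]
  have hk1 : ∀ x : ℝ, σ + 1 < x → Integrable fun u : ℝ => ec lam c r q u * exp (-(x * u)) :=
    fun x hx => (hI (by linarith : 0 < x - (σ + 1)) C₁).mono' (hkme x).aestronglyMeasurable
      (Eventually.of_forall (hkx x hx))
  have hk2 : ∀ x : ℝ, σ + 1 < x → MemLp (fun u : ℝ => ec lam c r q u * exp (-(x * u))) 2 := by
    intro x hx
    rw [memLp_two_iff_integrable_sq_norm (hkme x).aestronglyMeasurable]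
    refine (hI (by linarith : 0 < 2 * (x - (σ + 1))) (C₁ ^ 2)).mono'
      ((hkme x).norm.pow_const 2).aestronglyMeasurable (Eventually.of_forall fun u => ?_)
    rw [Real.norm_of_nonneg (by positivity)]
    refine (pow_le_pow_left₀ (norm_nonneg _) (hkx x hx u) 2).trans (le_of_eq ?_)
    by_cases hu : u ∈ Ici (0 : ℝ)
    · rw [indicator_of_mem hu, indicator_of_mem hu, mul_pow, ← Real.exp_nat_mul]
      congr 2
      push_cast
      ring
    · rw [indicator_of_notMem hu, indicator_of_notMem hu]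
      norm_num
  -- the structure
  set S₀ : ℝ := ∑' n, |c n| * Real.exp (-(σ * lam n)) with hS₀
  have hS0 : 0 ≤ S₀ := tsum_nonneg fun n => by positivity
  have hDDn : ∀ s : ℂ, σ ≤ s.re → ‖DD lam c s‖ ≤ S₀ := by
    intro s hs
    unfold DD
    refine tsum_of_norm_bounded D.sum.hasSum fun n => ?_
    rw [norm_mul, Complex.norm_real, Real.norm_eq_abs, norm_exp_neg]
    refine mul_le_mul_of_nonneg_left (Real.exp_le_exp.2 ?_) (abs_nonneg _)
    have := D.lam0 n
    nlinarith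
  set η₁ : ℝ := min η 1 with hη₁
  have hη10 : 0 < η₁ := lt_min hη one_pos
  have Hd : Gd G₀ η₁ (σ + 1) C S₀ κ := by
    refine ⟨hη10, min_le_right _ _, by linarith, fun s hs => hG s ?_, fun s hs => hgrow s ?_, hne,
      hS0, fun t => ?_⟩
    · have := min_le_left η 1
      rw [hη₁] at hs
      linarith
    · have := min_le_left η 1
      rw [hη₁] at hs
      linarith
    · have e1 : ((σ + 1 : ℝ) : ℂ) + t * I ≠ 0 := by
        intro h0
        have := congrArg Complex.re h0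
        simp at this
        linarith
      rw [← hexp _ (by simp), norm_mul, norm_pow, Complex.norm_exp]
      have e2 : 1 ≤ ‖((σ + 1 : ℝ) : ℂ) + t * I‖ := by
        have := Complex.re_le_norm (((σ + 1 : ℝ) : ℂ) + t * I)
        simp at this
        push_cast
        linarith
      have e3 : 1 ≤ ‖((σ + 1 : ℝ) : ℂ) + t * I‖ ^ k := one_le_pow₀ e2
      have e4 : -(S₀ * el t) ≤ (-DD lam c (((σ + 1 : ℝ) : ℂ) + t * I)).re := by
        have f1 := hDDn (((σ + 1 : ℝ) : ℂ) + t * I) (by simp)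
        have f2 := Complex.re_le_norm (DD lam c (((σ + 1 : ℝ) : ℂ) + t * I))
        rw [Complex.neg_re]
        have f3 := el_one t
        nlinarith
      have e5 := Real.exp_le_exp.2 e4
      have e6 := Real.exp_pos (-DD lam c (((σ + 1 : ℝ) : ℂ) + t * I)).re
      nlinarith
  exact ⟨⟨S₀, Hd⟩, hk1, hk2, hHk, hHd, hbd⟩

/-- the tail of a convergent integral -/
lemma tail_zero {f : ℝ → ℝ≥0∞} (hf : Measurable f) (hfin : ∫⁻ t, f t < ⊤) :
    Tendsto (fun N : ℕ => ∫⁻ t in {t : ℝ | (N : ℝ) - 1 < |t|}, f t) atTop (𝓝 0) := by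
  have hm : ∀ N : ℕ, MeasurableSet {t : ℝ | (N : ℝ) - 1 < |t|} := fun N =>
    measurableSet_lt measurable_const measurable_id.abs
  have h1 := tendsto_lintegral_of_dominated_convergence (μ := volume)
    (F := fun N : ℕ => {t : ℝ | (N : ℝ) - 1 < |t|}.indicator f) (f := fun _ => 0) f
    (fun N => hf.indicator (hm N))
    (fun N => Eventually.of_forall fun t => indicator_le_self _ _ t) hfin.ne
    (Eventually.of_forall fun t => by
      refine tendsto_const_nhds.congr' ?_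
      obtain ⟨N₀, hN₀⟩ := exists_nat_ge (|t| + 1)
      filter_upwards [eventually_ge_atTop N₀] with N hN
      have h2 : (N₀ : ℝ) ≤ N := by exact_mod_cast hN
      rw [indicator_of_notMem]
      simp only [Set.mem_ofPred_eq, not_lt]
      linarith)
  rw [lintegral_zero] at h1
  refine h1.congr fun N => ?_
  rw [lintegral_indicator (hm N)]

lemma el_meas (A : ℝ) : Measurable fun t : ℝ => A * el t / (1 + |t|) := by
  unfold el
  fun_prop

/-- **The sums `∑ c(n) λ(n)` are almost periodic in the sense of Stepanov.** -/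
theorem step_ec {G₀ g : ℂ → ℂ} {k p κ : ℕ} {η C : ℝ} (D : Dat lam c δ σ) (hη : 0 < η)
    (hG : ∀ s : ℂ, -η < s.re → DifferentiableAt ℂ G₀ s)
    (hgrow : ∀ s : ℂ, -η < s.re → ‖G₀ s‖ ≤ C * (1 + ‖s‖) ^ κ)
    (hexp : ∀ s : ℂ, σ < s.re → s ^ k * exp (-DD lam c s) = G₀ s)
    (hne : ∀ s : ℂ, 0 < s.re → G₀ s ≠ 0) (hg : AnalyticAt ℂ g 0) (hg0 : g 0 ≠ 0)
    (near : ∀ᶠ s in 𝓝 (0 : ℂ), G₀ s = s ^ p * g s) {r : ℝ} (hr : r = p - k) {q : ℂ}
    (hq : q = deriv g 0 / g 0) {ε : ℝ} (hε : 0 < ε) :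
    ∀ᶠ N : ℕ in atTop, ∀ᶠ T : ℝ in atTop,
      ∫⁻ u in Icc T (T + 1), ‖ec lam c r q u - ts (Gz G₀ N) (bz G₀) u‖ₑ ^ 2 ≤
        ENNReal.ofReal ε := by
  have hσ := D.σ0
  obtain ⟨⟨S₀, Hd⟩, hk1, hk2, hHk, hHd, hbd⟩ := data1 D hη hG hgrow hexp hne r q
  set η₁ : ℝ := min η 1 with hη₁
  have hη10 : 0 < η₁ := Hd.hη
  have hη11 : η₁ ≤ 1 := Hd.hη1
  -- the same data in a smaller half plane
  have Hd2 : Gd G₀ (η₁ / 2) (σ + 1) C S₀ κ := by
    refine ⟨by linarith, by linarith, Hd.ha, fun s hs => Hd.hG s (by linarith),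
      fun s hs => Hd.hgrow s (by linarith), Hd.hne, Hd.hB, Hd.hlow⟩
  obtain ⟨A₁, hA₁, hst⟩ := Hd2.struct' k hg hg0 near (r := r) (q := q) hr hq
  obtain ⟨A₂, hA₂, hco⟩ := coef_bd Hd hg hg0 near
  set h : ℝ := η₁ / 2 / 5 with hh'
  have hh : 0 < h := by rw [hh']; linarith
  have hh1 : h ≤ 1 := by rw [hh']; linarith
  set A : ℝ := A₁ + A₂ with hA
  set M : ℝ → ℝ := fun t => A * el t / (1 + |t|) with hM
  have hM1 : ∀ t, A₁ * el t / (1 + |t|) ≤ M t := by
    intro t
    have := el_one t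
    simp only [hM]
    refine div_le_div_of_nonneg_right ?_ (by positivity)
    rw [hA]
    nlinarith
  have hM2 : ∀ t, A₂ * el t / (1 + |t|) ≤ M t := by
    intro t
    have := el_one t
    simp only [hM]
    refine div_le_div_of_nonneg_right ?_ (by positivity)
    rw [hA]
    nlinarith
  have hMm : Measurable fun t => ENNReal.ofReal (M t ^ 2) :=
    ((el_meas A).pow_const 2).ennreal_ofReal
  have htail := tail_zero hMm (el_fin A)
  set c₀ : ℝ := 12 * Real.pi / h + 1 with hc₀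
  have hc00 : 0 < c₀ := by positivity
  -- the choice of `N`
  set L : ℝ≥0∞ := 144 * ENNReal.ofReal (8 * c₀ ^ 2) with hL
  have hLt : L ≠ ⊤ := ENNReal.mul_ne_top (by norm_num) ENNReal.ofReal_ne_top
  have hε2 : (0 : ℝ≥0∞) < ENNReal.ofReal (ε / 2) := ENNReal.ofReal_pos.2 (by linarith)
  have h1 : Tendsto (fun N : ℕ => L * ∫⁻ t in {t : ℝ | (N : ℝ) - 1 < |t|},
      ENNReal.ofReal (M t ^ 2)) atTop (𝓝 0) := by
    have := ENNReal.Tendsto.const_mul htail (Or.inr hLt)
    rwa [mul_zero] at this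
  filter_upwards [h1.eventually (gt_mem_nhds hε2)] with N hN
  obtain ⟨B, hB⟩ := reg_bd Hd k hg hg0 near hr hq hHd N
  obtain ⟨K, hK, hc⟩ := core (k := ec lam c r q) (H := KM G₀ k r q) (a := σ + 1) (h := h) (δ₀ := 1)
    (M := M) (Γ := Gz G₀ N) (b := bz G₀) (N := N) (B := B) (by linarith) one_pos hh hh1 hk1 hk2
    hHk hHd hbd (fun δ' h1 h2 t => by
      obtain ⟨n, cc, z, e1, e2, e3⟩ := hst δ' h1 h2 t
      exact ⟨n, cc, z, e1, e2.trans (hM1 t), fun y hy => (e3 y hy).trans (hM1 t)⟩)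
    (fun t => by
      have e1 : 2 * h = η₁ / 5 := by rw [hh']; ring
      rw [e1]
      exact (hco N t).trans (hM2 t)) hB
  -- the choice of `T`
  have h2 : Tendsto (fun T : ℝ => 144 * (ENNReal.ofReal (1 / T ^ 2) * K)) atTop (𝓝 0) := by
    have e1 : Tendsto (fun T : ℝ => 1 / T ^ 2) atTop (𝓝 0) := by
      have : Tendsto (fun T : ℝ => T ^ 2) atTop atTop := tendsto_pow_atTop (by norm_num)
      simp only [one_div]
      exact this.inv_tendsto_atTop
    have e2 := ENNReal.tendsto_ofReal e1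
    rw [ENNReal.ofReal_zero] at e2
    have e3 := ENNReal.Tendsto.mul_const e2 (Or.inr hK.ne)
    rw [zero_mul] at e3
    have e4 := ENNReal.Tendsto.const_mul (a := 144) e3 (Or.inr (by norm_num))
    rwa [mul_zero] at e4
  filter_upwards [h2.eventually (gt_mem_nhds hε2), eventually_gt_atTop 0] with T hT hT0
  refine (hc T hT0).trans ?_
  rw [mul_add, ← mul_assoc, ← hc₀, ← hL]
  calc _ ≤ ENNReal.ofReal (ε / 2) + ENNReal.ofReal (ε / 2) := add_le_add hN.le hT.le
    _ = ENNReal.ofReal ε := by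
      rw [← ENNReal.ofReal_add (by linarith) (by linarith)]
      congr 1
      ring

end Pool.Agent.Q195.AP
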