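import Pool.Agent.Q195.AP.Step
import Pool.Agent.Q195.AP.Bes
import Pool.Agent.Q195.AP.Ibp
import Pool.Agent.Q195.CR.Rate

/-! From the sums `∑ c(n) λ(n)` to the sums `∑ c(n)`. -/

set_option autoImplicit false

open MeasureTheory Filter Topology Set Complex
open scoped ENNReal
open Pool.Agent.TH942.LS (Dat P)
open Pool.Agent.TH942.SL

namespace Pool.Agent.Q195.AP

open Pool.Agent.Q195.CR
open Pool.Agent.TH270.MS

variable {lam c : ℕ → ℝ} {δ σ : ℝ}

/-- real form -/
lemma st_real {g : ℝ → ℂ} (hg : Measurable g) {T ε : ℝ} (hε : 0 ≤ ε)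
    (h : ∫⁻ u in Icc T (T + 1), ‖g u‖ₑ ^ 2 ≤ ENNReal.ofReal ε) :
    ∫ u in T..T + 1, ‖g u‖ ^ 2 ≤ ε := by
  rw [intervalIntegral.integral_of_le (by linarith),
    integral_eq_lintegral_of_nonneg_ae (Eventually.of_forall fun _ => by positivity)
      (hg.norm.pow_const 2).aestronglyMeasurable]
  refine ENNReal.toReal_le_of_le_ofReal hε (le_trans ?_ h)
  refine (lintegral_mono_set Ioc_subset_Icc_self).trans (le_of_eq ?_)
  refine lintegral_congr fun u => ?_
  rw [ENNReal.ofReal_pow (norm_nonneg _), ofReal_norm]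

lemma ec_li (D : Dat lam c δ σ) (r : ℝ) (q : ℂ) : LI (ec lam c r q) := by
  obtain ⟨C, hC, hb⟩ := ec_le D r q
  exact LI.mono (LI.of_cont (f := fun u : ℝ => C * Real.exp ((σ + 1) * u)) (by fun_prop))
    (ec_meas D).aestronglyMeasurable hb

lemma ecs_li (D : Dat lam c δ σ) (r : ℝ) (q : ℂ) (Γ : Finset ℝ) (b : ℝ → ℂ) :
    LI fun u => ‖ec lam c r q u - ts Γ b u‖ ^ 2 := by
  obtain ⟨C, hC, hb⟩ := ec_le D r q
  refine LI.mono (LI.of_cont (f := fun u : ℝ => (C * Real.exp ((σ + 1) * u) +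
    ∑ γ ∈ Γ, ‖b γ‖) ^ 2) (by fun_prop))
    (((ec_meas D).sub (ts_cont _ _).measurable).norm.pow_const 2).aestronglyMeasurable
    fun u => ?_
  rw [Real.norm_of_nonneg (by positivity)]
  refine pow_le_pow_left₀ (norm_nonneg _) ?_ 2
  exact (norm_sub_le _ _).trans (add_le_add (hb u) (ts_le _ _ _))

/-- the increments -/
theorem incr (D : Dat lam c δ σ) (r q₁ q : ℝ) {t u : ℝ} (ht1 : 1 ≤ t) (hu1 : t ≤ u) :
    ((Sh lam c u - r * Real.log u - q) - e1 lam c r q₁ u / u) -
      ((Sh lam c t - r * Real.log t - q) - e1 lam c r q₁ t / t) =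
      ∫ v in t..u, e1 lam c r q₁ v * (1 / v ^ 2) := by
  have ht0 : 0 < t := by linarith
  have hu0 : 0 < u := by linarith
  have a1 := sh_abel1 D ht0
  have a2 := sh_abel1 D hu0
  have a3 : (∫ v in Ioc 0 u, Sh lam (cm lam c) v * (1 / v ^ 2)) =
      (∫ v in Ioc 0 t, Sh lam (cm lam c) v * (1 / v ^ 2)) +
        ∫ v in Ioc t u, Sh lam (cm lam c) v * (1 / v ^ 2) := by
    have i1 := abel_int1 D u
    rw [← Ioc_union_Ioc_eq_Ioc ht0.le hu1, setIntegral_union (Set.disjoint_left.2 (by
      rintro x ⟨-, h1⟩ ⟨h2, -⟩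
      linarith)) measurableSet_Ioc
      (i1.mono_set (Ioc_subset_Ioc_right hu1)) (i1.mono_set (Ioc_subset_Ioc_left ht0.le))]
  have k3 : IntegrableOn (fun v => e1 lam c r q₁ v * (1 / v ^ 2)) (Ioc t u) := by
    obtain ⟨C, hC, hb⟩ := ec_le D r (q₁ : ℂ)
    have hcon : IntegrableOn (fun v : ℝ => C * Real.exp ((σ + 1) * v)) (Ioc t u) :=
      (Continuous.integrableOn_Icc (by fun_prop)).mono_set Ioc_subset_Icc_self
    refine hcon.mono' ((e1_meas D q₁).mul (by fun_prop)).aestronglyMeasurable ?_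
    filter_upwards [ae_restrict_mem measurableSet_Ioc] with v hv
    have hv1 : 1 ≤ v := ht1.trans hv.1.le
    have e2 : |e1 lam c r q₁ v| ≤ ‖ec lam c r (q₁ : ℂ) v‖ := by
      have := e1_ec (lam := lam) (c := c) (r := r) (q := (q₁ : ℂ)) v
      rwa [Complex.ofReal_re] at this
    have e3 : 1 / v ^ 2 ≤ 1 := by
      rw [div_le_one (by positivity)]
      exact one_le_pow₀ hv1
    rw [norm_mul, Real.norm_eq_abs, Real.norm_of_nonneg (by positivity)]
    calc |e1 lam c r q₁ v| * (1 / v ^ 2) ≤ (C * Real.exp ((σ + 1) * v)) * 1 :=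
          mul_le_mul (e2.trans (hb v)) e3 (by positivity) (by positivity)
      _ = _ := mul_one _
  have i2 : IntegrableOn (fun v : ℝ => r * (1 / v)) (Ioc t u) := by
    refine IntegrableOn.mono_set (t := Icc t u) ?_ Ioc_subset_Icc_self
    refine ContinuousOn.integrableOn_Icc (continuousOn_const.mul
      (continuousOn_const.div continuousOn_id fun v hv => ?_))
    have : t ≤ v := hv.1
    linarith
  have i3 : IntegrableOn (fun v : ℝ => q₁ * (1 / v ^ 2)) (Ioc t u) := by
    refine IntegrableOn.mono_set (t := Icc t u) ?_ Ioc_subset_Icc_self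
    refine ContinuousOn.integrableOn_Icc (continuousOn_const.mul
      (continuousOn_const.div (by fun_prop) fun v hv => ?_))
    have : 0 < v := by linarith [hv.1]
    positivity
  have a4 : ∫ v in Ioc t u, Sh lam (cm lam c) v * (1 / v ^ 2) =
      (∫ v in Ioc t u, e1 lam c r q₁ v * (1 / v ^ 2)) + r * (Real.log u - Real.log t) +
        q₁ * (1 / t - 1 / u) := by
    have b1 : ∫ v in Ioc t u, r * (1 / v) = r * (Real.log u - Real.log t) := by
      rw [integral_const_mul, ← intervalIntegral.integral_of_le hu1,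
        integral_one_div_of_pos ht0 hu0, Real.log_div hu0.ne' ht0.ne']
    have b2 : ∫ v in Ioc t u, q₁ * (1 / v ^ 2) = q₁ * (1 / t - 1 / u) := by
      rw [integral_const_mul, ← intervalIntegral.integral_of_le hu1, sq_int ht0 hu1]
    have k4 : IntegrableOn (fun v => e1 lam c r q₁ v * (1 / v ^ 2) + r * (1 / v)) (Ioc t u) :=
      k3.add i2
    rw [← b1, ← b2, ← integral_add k3 i2, ← integral_add k4 i3]
    refine setIntegral_congr_fun measurableSet_Ioc fun v hv => ?_
    have hv0 : 0 < v := by linarith [hv.1]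
    rw [e1_pos hv0]
    field_simp
    ring
  rw [intervalIntegral.integral_of_le hu1, a1, a2, a3, a4, e1_pos ht0, e1_pos hu0]
  field_simp
  ring

section

variable {G₀ g : ℂ → ℂ} {k p κ : ℕ} {η C : ℝ}

lemma cn_gd (E : Cn lam c δ σ G₀ g k p κ η C) (hne : ∀ s : ℂ, 0 < s.re → G₀ s ≠ 0) :
    ∃ S₀ : ℝ, Gd G₀ (min η 1) (σ + 1) C S₀ κ :=
  (data1 E.D E.hη E.hG E.hgrow E.hexp hne 0 0).1

/-- the mean of the sums, complex form -/
lemma ec_mean (E : Cn lam c δ σ G₀ g k p κ η C) (hne : ∀ s : ℂ, 0 < s.re → G₀ s ≠ 0) {r : ℝ}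
    (hr : (p : ℝ) = k + r) : Tendsto (mnC (ec lam c r (deriv g 0 / g 0))) atTop (𝓝 0) := by
  obtain ⟨S₀, Hd⟩ := cn_gd E hne
  set q : ℂ := deriv g 0 / g 0 with hq
  obtain ⟨L, h1, h2⟩ := mo (A := mnC (ec lam c r q)) (AN := fun N : ℕ => mnC (ts (Gz G₀ N) (bz G₀)))
    (l := fun _ => 0) (fun ε hε => by
      filter_upwards [step_ec E.D E.hη E.hG E.hgrow E.hexp hne E.hg E.hg0 E.near
        (r := r) (by linarith) hq (ε := ε ^ 2 / 2) (by positivity)] with N hN
      have hm : Measurable fun u => ec lam c r q u - ts (Gz G₀ N) (bz G₀) u :=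
        (ec_meas E.D).sub (ts_cont _ _).measurable
      have h3 := st_mean (G := fun u => ‖ec lam c r q u - ts (Gz G₀ N) (bz G₀) u‖ ^ 2)
        (ε := ε ^ 2 / 2) (ε' := ε ^ 2) (fun t => by positivity) (ecs_li E.D r q _ _) (by positivity)
        (by nlinarith [pow_pos hε 2]) (hN.mono fun T hT => st_real hm (by positivity) hT)
      filter_upwards [h3, eventually_ge_atTop 1] with T hT hT1
      have i1 : LI fun u => ec lam c r q u - ts (Gz G₀ N) (bz G₀) u :=
        (ec_li E.D r q).sub (LI.of_cont (ts_cont _ _))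
      rw [← mnC_sub (ec_li E.D r q) (LI.of_cont (ts_cont _ _)) hT1]
      refine (norm_mnC hT1).trans ?_
      refine (mn_cs i1.norm (ecs_li E.D r q _ _) hT1 hε).trans ?_
      calc _ ≤ ε / 2 + 1 / (2 * ε) * ε ^ 2 := by gcongr
        _ = ε := by
          field_simp
          ring) (fun N => by
      have h3 := ts_coef (Gz G₀ N) (bz G₀) 0
      rw [if_neg (fun h4 => ((mem_Gz Hd).1 h4).2.1 rfl)] at h3
      refine h3.congr fun T => ?_
      congr 1
      ext t
      simp)
  rwa [tendsto_nhds_unique h2 tendsto_const_nhds] at h1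

/-- the constant is real -/
lemma q_real (E : Cn lam c δ σ G₀ g k p κ η C) (hne : ∀ s : ℂ, 0 < s.re → G₀ s ≠ 0) {r : ℝ}
    (hr : (p : ℝ) = k + r) : (deriv g 0 / g 0).im = 0 := by
  have h1 := ec_mean E hne hr
  set q : ℂ := deriv g 0 / g 0 with hq
  have h2 := (Complex.continuous_im.tendsto _).comp h1
  have h3 : Tendsto (fun T : ℝ => -q.im * (1 - T⁻¹)) atTop (𝓝 (-q.im * (1 - 0))) :=
    (tendsto_const_nhds.sub tendsto_inv_atTop_zero).const_mul _
  have h4 : Tendsto (fun T : ℝ => -q.im * (1 - T⁻¹)) atTop (𝓝 (Complex.im 0)) := by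
    refine h2.congr' ?_
    filter_upwards [eventually_ge_atTop 1] with T hT
    have hT0 : T ≠ 0 := by linarith
    simp only [Function.comp]
    unfold mnC
    rw [Complex.div_ofReal_im]
    have i1 := ec_li E.D r q T hT
    have e1 : (∫ t in (1 : ℝ)..T, ec lam c r q t).im = ∫ t in (1 : ℝ)..T, (ec lam c r q t).im :=
      (intervalIntegral.intervalIntegral_im i1).symm
    have e2 : ∫ t in (1 : ℝ)..T, (ec lam c r q t).im = ∫ t in (1 : ℝ)..T, -q.im := by
      refine intervalIntegral.integral_congr fun t ht => ?_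
      rw [uIcc_of_le hT] at ht
      have ht0 : 0 < t := by linarith [ht.1]
      rw [ec_pos ht0]
      simp
    rw [e1, e2, intervalIntegral.integral_const, smul_eq_mul]
    field_simp
  have h5 := tendsto_nhds_unique h3 h4
  simp at h5
  exact h5

lemma ec_re {q : ℂ} (hq : q.im = 0) (r : ℝ) (u : ℝ) :
    ec lam c r q u = ((e1 lam c r q.re u : ℝ) : ℂ) := by
  have hq' : q = (q.re : ℂ) := by
    apply Complex.ext <;> simp [hq]
  unfold ec e1
  by_cases hu : u ∈ Ioi (0 : ℝ)
  · rw [indicator_of_mem hu, indicator_of_mem hu]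
    conv_lhs => rw [hq']
    push_cast
    ring
  · rw [indicator_of_notMem hu, indicator_of_notMem hu]
    simp

lemma e1_li (D : Dat lam c δ σ) (r q : ℝ) : LI (e1 lam c r q) := by
  refine (ec_li D r (q : ℂ)).norm.mono (e1_meas D q).aestronglyMeasurable fun t => ?_
  have := e1_ec (lam := lam) (c := c) (r := r) (q := (q : ℂ)) t
  rwa [Complex.ofReal_re] at this

/-- the mean of the sums -/
lemma e1_mean (E : Cn lam c δ σ G₀ g k p κ η C) (hne : ∀ s : ℂ, 0 < s.re → G₀ s ≠ 0) {r : ℝ}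
    (hr : (p : ℝ) = k + r) : Tendsto (mn (e1 lam c r (deriv g 0 / g 0).re)) atTop (𝓝 0) := by
  have h1 := ec_mean E hne hr
  have h2 := q_real E hne hr
  have h3 := (Complex.continuous_re.tendsto _).comp h1
  rw [Complex.zero_re] at h3
  refine h3.congr fun T => ?_
  simp only [Function.comp]
  unfold mnC mn
  simp only [ec_re h2]
  rw [intervalIntegral.integral_ofReal, ← Complex.ofReal_div, Complex.ofReal_re]

/-- **The comparison.** -/
theorem close (E : Cn lam c δ σ G₀ g k p κ η C) (hne : ∀ s : ℂ, 0 < s.re → G₀ s ≠ 0) {r q : ℝ}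
    (hr : (p : ℝ) = k + r)
    (hE : IntegrableOn (fun T : ℝ => (Sh lam c T - r * Real.log T - q) ^ 2) (Ioi 1)) :
    Tendsto (fun t : ℝ => t * (Sh lam c t - r * Real.log t - q) -
      e1 lam c r (deriv g 0 / g 0).re t) atTop (𝓝 0) := by
  set q₁ : ℝ := (deriv g 0 / g 0).re with hq₁
  have hG0 : Tendsto (fun t : ℝ => (Sh lam c t - r * Real.log t - q) - e1 lam c r q₁ t / t) atTop
      (𝓝 0) := by
    obtain ⟨q₂, K, hK, hb⟩ := cramer1 E.D E.hη E.hG E.hgrow E.hexp hne E.hg E.hg0 E.near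
      (r := r) (by linarith)
    have hm : Measurable (e1 lam c r q₂) := e1_meas E.D q₂
    have hM := lb_of hm hK hb
    set M : ℝ := K.toReal with hMd
    -- the rate with the constant `q₂`
    have h1 : Tendsto (fun t : ℝ => (Sh lam c t - r * Real.log t - q) - e1 lam c r q₂ t / t) atTop
        (𝓝 0) := by
      have h0 : Tendsto (fun t : ℝ => 2 * (1 + M) / t) atTop (𝓝 0) :=
        tendsto_const_nhds.div_atTop tendsto_id
      refine squeeze_zero_norm' ?_ h0
      filter_upwards [eventually_ge_atTop 1] with t ht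
      rw [Real.norm_eq_abs]
      exact rate E.D hM hE ht
    have h2 : Tendsto (fun t : ℝ => (q₁ - q₂) / t) atTop (𝓝 0) :=
      tendsto_const_nhds.div_atTop tendsto_id
    have h3 := h1.add h2
    rw [add_zero] at h3
    refine h3.congr' ?_
    filter_upwards [eventually_gt_atTop 0] with t ht
    rw [e1_pos ht, e1_pos ht]
    field_simp
    ring
  rw [Metric.tendsto_nhds]
  intro ε hε
  filter_upwards [tail_small (e1_li E.D r q₁) (e1_mean E hne hr) (half_pos hε),
    eventually_ge_atTop 1] with t ht ht1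
  have ht0 : 0 < t := by linarith
  rw [Real.dist_eq, sub_zero]
  have h1 : |((Sh lam c t - r * Real.log t - q) - e1 lam c r q₁ t / t)| ≤ ε / 2 / t := by
    have h2 : Tendsto (fun u : ℝ => |((Sh lam c u - r * Real.log u - q) - e1 lam c r q₁ u / u) -
        ((Sh lam c t - r * Real.log t - q) - e1 lam c r q₁ t / t)|) atTop
        (𝓝 |0 - ((Sh lam c t - r * Real.log t - q) - e1 lam c r q₁ t / t)|) :=
      (hG0.sub_const _).abs
    rw [zero_sub, abs_neg] at h2
    refine le_of_tendsto h2 ?_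
    filter_upwards [eventually_ge_atTop t] with u hu
    rw [incr E.D r q₁ q ht1 hu]
    exact ht u hu
  have h3 : t * (Sh lam c t - r * Real.log t - q) - e1 lam c r q₁ t =
      t * ((Sh lam c t - r * Real.log t - q) - e1 lam c r q₁ t / t) := by
    field_simp
  rw [h3, abs_mul, abs_of_pos ht0]
  rw [le_div_iff₀ ht0] at h1
  linarith

end

end Pool.Agent.Q195.AP
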